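import Pool.Agent.FlipP_h28.PDef

/-! # The product formula for function fields -/

universe u

namespace Flip28

variable {k F : Type u} [Field k] [CharZero k] [Field F] [Algebra k F]
  [Algebra.EssFiniteType k F]

open Polynomial in
/-- the localization of `k[f]` at the prime ideal `(f)` -/
def PA1_t {k T : Type u} [Field k] [Field T] [Algebra k T] (f : T)
    (hf : Transcendental k f) : Subalgebra k T where
  carrier := {x | ∃ p q : k[X], q.coeff 0 ≠ 0 ∧ x = aeval f p / aeval f q}
  mul_mem' := by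
    rintro x y ⟨p, q, hq, rfl⟩ ⟨p', q', hq', rfl⟩
    refine ⟨p * p', q * q', ?_, ?_⟩
    · rw [mul_coeff_zero]
      exact mul_ne_zero hq hq'
    · rw [map_mul, map_mul, div_mul_div_comm]
  add_mem' := by
    rintro x y ⟨p, q, hq, rfl⟩ ⟨p', q', hq', rfl⟩
    have h1 : aeval f q ≠ 0 := by
      intro h
      apply hq
      rw [(transcendental_iff.1 hf q h), coeff_zero]
    have h2 : aeval f q' ≠ 0 := by
      intro h
      apply hq'
      rw [(transcendental_iff.1 hf q' h), coeff_zero]
    refine ⟨p * q' + q * p', q * q', ?_, ?_⟩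
    · rw [mul_coeff_zero]
      exact mul_ne_zero hq hq'
    · rw [map_mul, map_add, map_mul, map_mul, div_add_div _ _ h1 h2]
  algebraMap_mem' := by
    intro c
    refine ⟨C c, 1, ?_, ?_⟩
    · rw [coeff_one_zero]
      exact one_ne_zero
    · rw [aeval_C, map_one, div_one]

open Polynomial in
theorem PA1_ne {k T : Type u} [Field k] [Field T] [Algebra k T] {f : T}
    (hf : Transcendental k f) {q : k[X]} (hq : q ≠ 0) : aeval f q ≠ 0 := fun h =>
  hq (transcendental_iff.1 hf q h)

open Polynomial in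
theorem PA1_fac {k : Type u} [Field k] {p : k[X]} (hp : p ≠ 0) :
    ∃ (a : ℕ) (p' : k[X]), p = X ^ a * p' ∧ p'.coeff 0 ≠ 0 := by
  obtain ⟨p', h1, h2⟩ := exists_eq_pow_rootMultiplicity_mul_and_not_dvd p hp 0
  refine ⟨p.rootMultiplicity 0, p', ?_, ?_⟩
  · rw [C_0, sub_zero] at h1
    exact h1
  · rw [C_0, sub_zero, X_dvd_iff] at h2
    exact h2

open Polynomial in
theorem PA1_unif {k T : Type u} [Field k] [Field T] [Algebra k T] {f : T}
    (hf : Transcendental k f) (hT : IntermediateField.adjoin k {f} = ⊤) :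
    IsUnif (PA1_t f hf) f := by
  have hf0 : f ≠ 0 := fun h => hf (h ▸ isAlgebraic_zero)
  refine ⟨⟨X, 1, ?_, ?_⟩, ?_, ?_⟩
  · rw [coeff_one_zero]
    exact one_ne_zero
  · rw [aeval_X, map_one, div_one]
  · rintro ⟨p, q, hq, h⟩
    have hq0 : q ≠ 0 := by
      rintro rfl
      exact hq (coeff_zero 0)
    have h1 : aeval f q = f * aeval f p := by
      rw [eq_div_iff (PA1_ne hf hq0)] at h
      rw [← h, mul_inv_cancel_left₀ hf0]
    have h2 : q = X * p := by
      have h3 : aeval f (q - X * p) = 0 := by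
        rw [map_sub, map_mul, aeval_X, h1, sub_self]
      exact sub_eq_zero.1 (transcendental_iff.1 hf _ h3)
    apply hq
    rw [h2, mul_coeff_zero, coeff_X_zero, zero_mul]
  · intro x hx
    have hxm : x ∈ IntermediateField.adjoin k {f} := by
      rw [hT]
      exact IntermediateField.mem_top
    obtain ⟨p, q, hpq⟩ := (IntermediateField.mem_adjoin_simple_iff k x).1 hxm
    have hp : p ≠ 0 := by
      rintro rfl
      apply hx
      rw [hpq, map_zero, zero_div]
    have hq : q ≠ 0 := by
      rintro rfl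
      apply hx
      rw [hpq, map_zero, div_zero]
    obtain ⟨a, p', hp', hp0⟩ := PA1_fac hp
    obtain ⟨b, q', hq', hq0⟩ := PA1_fac hq
    have hp1 : p' ≠ 0 := by
      rintro rfl
      exact hp0 (coeff_zero 0)
    have hq1 : q' ≠ 0 := by
      rintro rfl
      exact hq0 (coeff_zero 0)
    have key : x * f ^ (-((a : ℤ) - b)) = aeval f p' / aeval f q' := by
      rw [hpq, hp', hq', map_mul, map_mul, map_pow, map_pow, aeval_X, neg_sub, zpow_sub₀ hf0,
        zpow_natCast, zpow_natCast]
      have h1 := PA1_ne hf hq1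
      field_simp
    refine ⟨(a : ℤ) - b, ?_, ?_⟩
    · rw [key]
      exact ⟨p', q', hq0, rfl⟩
    · rw [key, inv_div]
      exact ⟨q', p', hp0, rfl⟩

/-- The two prime divisors of a rational function field.  `T` is a field with
`T = k(f)`, `f` transcendental over `k`.  The zero `t` of `f`: `f ∈ t`, `ord_t f = 1`, the residue
field is `k`.  Apply it also to `f⁻¹`.  Proof: `t` is the localization of `k[f]` at the prime ideal
`(f)`, i.e. the set of the `p(f) / q(f)` with `q(0) ≠ 0`. -/
theorem exists_zero {k T : Type u} [Field k] [Field T] [Algebra k T] {f : T}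
    (hf : Transcendental k f) (hT : IntermediateField.adjoin k {f} = ⊤) :
    ∃ t : Subalgebra k T, IsDVR t ∧ f ≠ 0 ∧ ord t f = 1 ∧ resDeg t ∅ = 1 := by
  have hf0 : f ≠ 0 := fun h => hf (h ▸ isAlgebraic_zero)
  have hu := PA1_unif hf hT
  have hval : IsVal (PA1_t f hf) := by
    intro x
    by_cases hx : x = 0
    · left
      rw [hx]
      exact Subalgebra.zero_mem _
    · obtain ⟨n, h1, h2⟩ := hu.2.2 x hx
      rcases le_total 0 n with hn | hn
      · left
        exact Ord_E_mem hu ⟨h1, h2⟩ hn
      · right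
        exact Ord_E_mem hu (Ord_E_inv ⟨h1, h2⟩) (by omega)
  have hloc : IsLocalRing (PA1_t f hf) := hval.isLocalRing
  refine ⟨PA1_t f hf, ⟨f, hu⟩, hf0, ?_, ?_⟩
  · apply ord_eq hu hf0
    · rw [zpow_neg_one, mul_inv_cancel₀ hf0]
      exact Subalgebra.one_mem _
    · rw [zpow_neg_one, mul_inv_cancel₀ hf0, inv_one]
      exact Subalgebra.one_mem _
  · have hres : ∀ y : IsLocalRing.ResidueField (PA1_t f hf), ∃ c : k,
        y = algebraMap k (IsLocalRing.ResidueField (PA1_t f hf)) c := by
      intro y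
      obtain ⟨⟨x, hx⟩, rfl⟩ := IsLocalRing.residue_surjective y
      obtain ⟨p, q, hq, hpq⟩ := hx
      have hq1 : q ≠ 0 := by
        rintro rfl
        exact hq (Polynomial.coeff_zero 0)
      have hqf := PA1_ne hf hq1
      refine ⟨p.coeff 0 / q.coeff 0, ?_⟩
      have h1 : algebraMap k (IsLocalRing.ResidueField (PA1_t f hf)) (p.coeff 0 / q.coeff 0) =
          IsLocalRing.residue (PA1_t f hf) (algebraMap k (PA1_t f hf) (p.coeff 0 / q.coeff 0)) :=
        rfl
      rw [h1, ← sub_eq_zero, ← map_sub, IsLocalRing.residue_eq_zero_iff,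
        IsLocalRing.mem_maximalIdeal, mem_nonunits_iff, Ord_isUnit_iff]
      rintro ⟨h3, h4⟩
      obtain ⟨r, hr⟩ : ∃ r : Polynomial k,
          p * Polynomial.C (q.coeff 0) - Polynomial.C (p.coeff 0) * q = Polynomial.X * r := by
        apply exists_eq_mul_right_of_dvd
        rw [Polynomial.X_dvd_iff, Polynomial.coeff_sub, Polynomial.mul_coeff_zero,
          Polynomial.mul_coeff_zero, Polynomial.coeff_C_zero, Polynomial.coeff_C_zero, sub_self]
      have h5 : (((⟨x, ⟨p, q, hq, hpq⟩⟩ : PA1_t f hf) -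
          algebraMap k (PA1_t f hf) (p.coeff 0 / q.coeff 0) : PA1_t f hf) : T) =
          f * (Polynomial.aeval f r / Polynomial.aeval f (Polynomial.C (q.coeff 0) * q)) := by
        have h6 : (((⟨x, ⟨p, q, hq, hpq⟩⟩ : PA1_t f hf) -
          algebraMap k (PA1_t f hf) (p.coeff 0 / q.coeff 0) : PA1_t f hf) : T) =
            x - algebraMap k T (p.coeff 0 / q.coeff 0) := rfl
        have h7 := congrArg (Polynomial.aeval f) hr
        rw [map_sub, map_mul, map_mul, map_mul, Polynomial.aeval_X, Polynomial.aeval_C,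
          Polynomial.aeval_C] at h7
        have hq0 : algebraMap k T (q.coeff 0) ≠ 0 := by
          rw [Ne, map_eq_zero]
          exact hq
        rw [h6, hpq, map_div₀, map_mul, Polynomial.aeval_C, div_sub_div _ _ hqf hq0, ← mul_div_assoc,
          ← h7]
        congr 1
        · ring
        · ring
      apply hu.2.1
      have h8 : f⁻¹ = (((⟨x, ⟨p, q, hq, hpq⟩⟩ : PA1_t f hf) -
          algebraMap k (PA1_t f hf) (p.coeff 0 / q.coeff 0) : PA1_t f hf) : T)⁻¹ *
          (Polynomial.aeval f r / Polynomial.aeval f (Polynomial.C (q.coeff 0) * q)) := by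
        rw [h5] at h3 ⊢
        have h9 := right_ne_zero_of_mul h3
        rw [mul_inv, mul_assoc, inv_mul_cancel₀ h9, mul_one]
      rw [h8]
      refine Subalgebra.mul_mem _ h4 ⟨r, Polynomial.C (q.coeff 0) * q, ?_, rfl⟩
      rw [Polynomial.mul_coeff_zero, Polynomial.coeff_C_zero]
      exact mul_ne_zero hq hq
    rw [DegE_resDeg_eq]
    have htop : IntermediateField.adjoin k
        {y : IsLocalRing.ResidueField (PA1_t f hf) | ∃ a : PA1_t f hf, (a : T) ∈ (∅ : Set T) ∧
          y = IsLocalRing.residue (PA1_t f hf) a} = ⊤ := by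
      rw [eq_top_iff]
      intro y _
      obtain ⟨c, rfl⟩ := hres y
      exact IntermediateField.algebraMap_mem _ c
    rw [htop]
    exact IntermediateField.finrank_top

end Flip28
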