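import Pool.Agent.FlipP_h28.PDef

/-! # Positivity of the degrees -/

universe u

namespace Flip28

variable {k F : Type u} [Field k] [CharZero k] [Field F] [Algebra k F]
  [Algebra.EssFiniteType k F]

/-- Proof: the residue field of the prime divisor `v` is a finitely generated extension of `k`
(`v` is a localization of a finitely generated algebra `R`, whose quotient field is `F`, see
`DegA`, `DegB`) of transcendence degree `d` (`dim_formula`), so it is finite over the field
generated by the `d` algebraically independent residues of the `s i`. Compare `degPt_pos` and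
`DegB_fin`. -/
theorem resDeg_pos {d : ℕ} (hF : Algebra.trdeg k F = (d + 1 : ℕ)) (s : Fin d → F)
    {v : Subalgebra k F} (hv : v ∈ Gd (k := k) s) : 1 ≤ resDeg v (Set.range s) := by
  obtain ⟨⟨hD, R, hR, hl⟩, hri⟩ := hv
  have hloc : IsLocalRing v := hl.2.1
  obtain ⟨hdvr, hfrv⟩ := isDVR_iff.1 hD
  have hRF : IsFractionRing R F := hl.isFractionRing_left hfrv
  obtain ⟨a, e, h1, h2, h3⟩ := dim_formula hR hRF hl
  rw [IsDiscreteValuationRing.ringKrullDim_eq_one] at h1
  have ha : a = 1 := by exact_mod_cast h1.symm
  rw [hF, ha] at h3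
  have he : e = d := by
    have h4 : d + 1 = 1 + e := by exact_mod_cast h3
    omega
  have h5 : Algebra.EssFiniteType k v := hl.essFiniteType hR
  have h6 : Algebra.EssFiniteType v (IsLocalRing.ResidueField v) := inferInstance
  have h7 : Algebra.EssFiniteType k (IsLocalRing.ResidueField v) :=
    Algebra.EssFiniteType.comp k v _
  have hind := DegB_ind hri
  have hcard : Cardinal.lift.{0} (Algebra.trdeg k (IsLocalRing.ResidueField v)) ≤
      Cardinal.lift.{u} (Cardinal.mk (Fin d)) := by
    rw [h2, he, Cardinal.mk_fin, Cardinal.lift_natCast, Cardinal.lift_natCast]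
  have hbas := hind.isTranscendenceBasis_of_lift_trdeg_le_of_finite hcard
  have hB : Algebra.IsAlgebraic (IntermediateField.adjoin k
      (Set.range fun i => IsLocalRing.residue v ⟨s i, hri.1 i⟩)) (IsLocalRing.ResidueField v) :=
    hbas.isAlgebraic_field
  have hE : Algebra.EssFiniteType (IntermediateField.adjoin k
      (Set.range fun i => IsLocalRing.residue v ⟨s i, hri.1 i⟩)) (IsLocalRing.ResidueField v) :=
    Algebra.EssFiniteType.of_comp k _ _
  have hfin : Module.Finite (IntermediateField.adjoin k
      (Set.range fun i => IsLocalRing.residue v ⟨s i, hri.1 i⟩)) (IsLocalRing.ResidueField v) :=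
    Algebra.finite_of_essFiniteType_of_isAlgebraic
  unfold resDeg
  rw [dif_pos hloc]
  have e1 : {y : IsLocalRing.ResidueField v |
      ∃ a : v, (a : F) ∈ Set.range s ∧ y = IsLocalRing.residue _ a} =
      Set.range fun i => IsLocalRing.residue v ⟨s i, hri.1 i⟩ := by
    ext y
    constructor
    · rintro ⟨a, ⟨i, hi⟩, rfl⟩
      exact ⟨i, congrArg (IsLocalRing.residue v) (Subtype.ext hi)⟩
    · rintro ⟨i, rfl⟩
      exact ⟨_, ⟨i, rfl⟩, rfl⟩
  rw [e1]
  exact Module.finrank_pos

end Flip28
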