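import Pool.Agent.FlipP_h28.PA1

/-! # The product formula for function fields -/

universe u

namespace Flip28

variable {k F : Type u} [Field k] [CharZero k] [Field F] [Algebra k F]
  [Algebra.EssFiniteType k F]

theorem PA3_trdeg {k T : Type u} [Field k] [Field T] [Algebra k T] {f : T}
    (hf : Transcendental k f) (hT : IntermediateField.adjoin k {f} = ⊤) :
    Algebra.trdeg k T = 1 := by
  have hx : AlgebraicIndependent k (fun _ : PUnit.{u + 1} => f) :=
    algebraicIndependent_unique_type_iff.2 hf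
  have hr : Set.range (fun _ : PUnit.{u + 1} => f) = {f} := Set.range_const
  have halg : Algebra.IsAlgebraic (Algebra.adjoin k (Set.range (fun _ : PUnit.{u + 1} => f))) T := by
    rw [hr]
    refine ⟨fun x => ?_⟩
    have hx : x ∈ IntermediateField.adjoin k {f} := by
      rw [hT]
      exact IntermediateField.mem_top
    rw [IntermediateField.mem_adjoin_iff_div] at hx
    obtain ⟨r, hr, s, hs, rfl⟩ := hx
    rw [div_eq_mul_inv]
    exact (isAlgebraic_algebraMap (⟨r, hr⟩ : Algebra.adjoin k {f})).mul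
      (isAlgebraic_algebraMap (⟨s, hs⟩ : Algebra.adjoin k {f})).inv
  have hb : IsTranscendenceBasis k (fun _ : PUnit.{u + 1} => f) :=
    hx.isTranscendenceBasis_iff_isAlgebraic.2 halg
  have h1 := hb.cardinalMk_eq_trdeg
  rw [← h1]
  simp

theorem PA3_ram {k T F : Type*} [Field k] [Field T] [Field F] [Algebra k T] [Algebra k F]
    [Algebra T F] {t : Subalgebra k T} {v : Subalgebra k F} (ht : IsDVR t) (hv : IsDVR v)
    (hvt : ∀ x : T, x ∈ t ↔ algebraMap T F x ∈ v) {τ : T} (hτ0 : τ ≠ 0) (hτ : ord t τ = 1) :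
    ram t v = ord v (algebraMap T F τ) := by
  have ht' : ∃ τ, IsUnif t τ := ht
  unfold ram
  rw [dif_pos ht']
  have hσ := (isUnif_iff ht).1 ht'.choose_spec
  set σ := ht'.choose with hσd
  have hm : ord t (σ * τ⁻¹) = 0 := by
    rw [ord_mul ht hσ.1 (inv_ne_zero hτ0), ord_inv ht, hσ.2, hτ]
    ring
  have hne : σ * τ⁻¹ ≠ 0 := mul_ne_zero hσ.1 (inv_ne_zero hτ0)
  have h2 := (ord_eq_zero_iff ht hne).1 hm
  have hne' : algebraMap T F (σ * τ⁻¹) ≠ 0 := (map_ne_zero _).2 hne
  have h3 : ord v (algebraMap T F (σ * τ⁻¹)) = 0 := by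
    rw [ord_eq_zero_iff hv hne']
    refine ⟨(hvt _).1 h2.1, ?_⟩
    rw [← map_inv₀]
    exact (hvt _).1 h2.2
  rw [map_mul, map_inv₀, ord_mul hv ((map_ne_zero _).2 hσ.1)
    (inv_ne_zero ((map_ne_zero _).2 hτ0)), ord_inv hv] at h3
  omega

theorem PA3_unit {k F : Type*} [Field k] [Field F] [Algebra k F] {v : Subalgebra k F}
    (hv : IsDVR v) {f : F} (hf0 : f ≠ 0) (hf : 0 < ord v f) (Q : Polynomial k)
    (hQ : Q.coeff 0 ≠ 0) :
    Polynomial.aeval f Q ≠ 0 ∧ ord v (Polynomial.aeval f Q) = 0 := by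
  by_contra hcon
  obtain ⟨p, hp0, hp1⟩ := exists_ord_one hv
  have hfv : f ∈ v := (mem_iff hv hf0).2 hf.le
  have hmem : ∀ P : Polynomial k, Polynomial.aeval f P ∈ v := by
    intro P
    rw [Polynomial.aeval_eq_sum_range]
    exact v.sum_mem fun i _ => v.smul_mem (v.pow_mem hfv i) _
  have hfp : f * p⁻¹ ∈ v := by
    rw [mem_iff hv (mul_ne_zero hf0 (inv_ne_zero hp0)), ord_mul hv hf0 (inv_ne_zero hp0),
      ord_inv hv, hp1]
    omega
  have hxp : Polynomial.aeval f Q * p⁻¹ ∈ v := by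
    by_cases hx : Polynomial.aeval f Q = 0
    · rw [hx, zero_mul]
      exact v.zero_mem
    · have h1 : ord v (Polynomial.aeval f Q) ≠ 0 := fun h => hcon ⟨hx, h⟩
      have h2 := (mem_iff hv hx).1 (hmem Q)
      rw [mem_iff hv (mul_ne_zero hx (inv_ne_zero hp0)), ord_mul hv hx (inv_ne_zero hp0),
        ord_inv hv, hp1]
      omega
  have hc : algebraMap k F (Q.coeff 0) =
      Polynomial.aeval f Q - f * Polynomial.aeval f Q.divX := by
    have e := congrArg (Polynomial.aeval f) (Polynomial.divX_mul_X_add Q)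
    simp only [map_add, map_mul, Polynomial.aeval_X, Polynomial.aeval_C] at e
    linear_combination e
  have hcp : algebraMap k F (Q.coeff 0) * p⁻¹ ∈ v := by
    rw [hc, sub_mul, mul_right_comm]
    exact v.sub_mem hxp (v.mul_mem hfp (hmem _))
  have hpi : p⁻¹ ∈ v := by
    have h1 : p⁻¹ = algebraMap k F (Q.coeff 0)⁻¹ * (algebraMap k F (Q.coeff 0) * p⁻¹) := by
      rw [← mul_assoc, ← map_mul, inv_mul_cancel₀ hQ, map_one, one_mul]
    rw [h1]
    exact v.mul_mem (v.algebraMap_mem _) hcp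
  exact (ord_pos_iff hv hp0).1 (by omega) hpi

/-- every nonzero polynomial is a power of the variable times a polynomial with non zero constant
term -/
theorem PA3_poly {k : Type*} [Field k] (P : Polynomial k) (hP : P ≠ 0) :
    ∃ n : ℕ, ∃ Q : Polynomial k, Q.coeff 0 ≠ 0 ∧ P = Polynomial.X ^ n * Q := by
  obtain ⟨Q, h1, h2⟩ := Polynomial.exists_eq_pow_rootMultiplicity_mul_and_not_dvd P hP 0
  rw [Polynomial.C_0, sub_zero] at h1 h2
  refine ⟨_, Q, fun h => h2 ?_, h1⟩
  exact Polynomial.X_dvd_iff.2 h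

theorem PA3_repr {k T : Type*} [Field k] [Field T] [Algebra k T] {f : T} 
    (hf : Transcendental k f) (hT : IntermediateField.adjoin k {f} = ⊤) {x : T} (hx : x ≠ 0) :
    ∃ n : ℤ, ∃ Q₁ Q₂ : Polynomial k, Q₁.coeff 0 ≠ 0 ∧ Q₂.coeff 0 ≠ 0 ∧
      x = f ^ n * (Polynomial.aeval f Q₁ * (Polynomial.aeval f Q₂)⁻¹) := by
  have hf0 : f ≠ 0 := by
    rintro rfl
    exact hf isAlgebraic_zero
  have hxm : x ∈ IntermediateField.adjoin k {f} := by
    rw [hT]
    exact IntermediateField.mem_top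
  rw [IntermediateField.mem_adjoin_iff_div] at hxm
  obtain ⟨r, hr, s, hs, rfl⟩ := hxm
  rw [Algebra.adjoin_singleton_eq_range_aeval] at hr hs
  obtain ⟨P₁, rfl⟩ := hr
  obtain ⟨P₂, rfl⟩ := hs
  have hP₁ : P₁ ≠ 0 := by
    rintro rfl
    exact hx (by simp)
  have hP₂ : P₂ ≠ 0 := by
    rintro rfl
    exact hx (by simp)
  obtain ⟨n₁, Q₁, h1, rfl⟩ := PA3_poly P₁ hP₁
  obtain ⟨n₂, Q₂, h2, rfl⟩ := PA3_poly P₂ hP₂
  refine ⟨(n₁ : ℤ) - n₂, Q₁, Q₂, h1, h2, ?_⟩
  change (Polynomial.aeval f (Polynomial.X ^ n₁ * Q₁)) / (Polynomial.aeval f (Polynomial.X ^ n₂ * Q₂)) = _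
  rw [map_mul, map_mul, map_pow, map_pow, Polynomial.aeval_X, zpow_sub₀ hf0, zpow_natCast,
    zpow_natCast, div_eq_mul_inv, div_eq_mul_inv, mul_inv]
  ring

theorem PA3_ord {k T F : Type*} [Field k] [Field T] [Field F] [Algebra k T] [Algebra k F]
    [Algebra T F] [IsScalarTower k T F] {f : T}
    (hf : Transcendental k f) (hT : IntermediateField.adjoin k {f} = ⊤)
    {v : Subalgebra k F} (hv : IsDVR v) (hfv : 0 < ord v (algebraMap T F f)) {x : T}
    {n : ℤ} {Q₁ Q₂ : Polynomial k} (h1 : Q₁.coeff 0 ≠ 0) (h2 : Q₂.coeff 0 ≠ 0)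
    (hx : x = f ^ n * (Polynomial.aeval f Q₁ * (Polynomial.aeval f Q₂)⁻¹)) :
    ord v (algebraMap T F x) = n * ord v (algebraMap T F f) := by
  have hf0 : f ≠ 0 := by
    rintro rfl
    exact hf isAlgebraic_zero
  have hf0' : algebraMap T F f ≠ 0 := (map_ne_zero _).2 hf0
  obtain ⟨e1, e2⟩ := PA3_unit hv hf0' hfv Q₁ h1
  obtain ⟨e3, e4⟩ := PA3_unit hv hf0' hfv Q₂ h2
  rw [hx, map_mul, map_mul, map_inv₀, map_zpow₀, ← Polynomial.aeval_algebraMap_apply,
    ← Polynomial.aeval_algebraMap_apply, ord_mul hv (zpow_ne_zero _ hf0')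
    (mul_ne_zero e1 (inv_ne_zero e3)), ord_mul hv e1 (inv_ne_zero e3), ord_inv hv, e2, e4,
    ord_zpow hv hf0']
  ring

theorem PA3_mem {k T F : Type*} [Field k] [Field T] [Field F] [Algebra k T] [Algebra k F]
    [Algebra T F] [IsScalarTower k T F] {f : T}
    (hf : Transcendental k f) (hT : IntermediateField.adjoin k {f} = ⊤)
    {t : Subalgebra k T} (ht : IsDVR t) (hft : ord t f = 1)
    {v : Subalgebra k F} (hv : IsDVR v) (hfv : 0 < ord v (algebraMap T F f)) (x : T) :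
    x ∈ t ↔ algebraMap T F x ∈ v := by
  by_cases hx : x = 0
  · rw [hx, map_zero]
    exact ⟨fun _ => v.zero_mem, fun _ => t.zero_mem⟩
  obtain ⟨n, Q₁, Q₂, h1, h2, h3⟩ := PA3_repr hf hT hx
  have h4 := PA3_ord hf hT hv hfv h1 h2 h3
  have hft' : ord t (algebraMap T T f) = 1 := hft
  have h5 : ord t (algebraMap T T x) = n * ord t (algebraMap T T f) :=
    PA3_ord hf hT ht (by rw [hft']; exact one_pos) h1 h2 h3
  rw [hft', mul_one] at h5
  have h6 : ord t x = n := h5
  rw [mem_iff ht hx, mem_iff hv ((map_ne_zero _).2 hx), h4, h6]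
  constructor
  · intro h
    exact mul_nonneg h hfv.le
  · intro h
    exact nonneg_of_mul_nonneg_left h hfv

theorem PA3_good {k T F : Type*} [Field k] [Field T] [Field F] [Algebra k T] [Algebra k F]
    [Algebra T F] [IsScalarTower k T F] {f : T}
    (hf : Transcendental k f) (hT : IntermediateField.adjoin k {f} = ⊤)
    {t : Subalgebra k T} (ht : IsDVR t) (hft : ord t f = 1) {d : ℕ} (s : Fin d → F) :
    GoodOver t s = {v | v ∈ Gd (k := k) s ∧ 0 < ord v (algebraMap T F f)} := by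
  have hf0 : f ≠ 0 := by
    rintro rfl
    exact hf isAlgebraic_zero
  ext v
  constructor
  · rintro ⟨h1, h2, h3⟩
    refine ⟨⟨h1, h3⟩, ?_⟩
    rw [ord_pos_iff h1.1 ((map_ne_zero _).2 hf0), ← map_inv₀, ← h2]
    exact (ord_pos_iff ht hf0).1 (by omega)
  · rintro ⟨⟨h1, h3⟩, h2⟩
    exact ⟨h1, PA3_mem hf hT ht hft h1.1 h2, h3⟩

theorem PA3_alg {k F : Type*} [Field k] [Field F] [Algebra k F] {v : Subalgebra k F}
    (hv : IsDVR v) {f : F} (hf0 : f ≠ 0) (hf : IsAlgebraic k f) : ord v f = 0 := by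
  rw [ord_eq_zero_iff hv hf0]
  have h1 : f⁻¹ ∈ Algebra.adjoin k {f} := hf.isIntegral.inv_mem_adjoin
  have h2 : f ∈ Algebra.adjoin k {f⁻¹} := by
    have h3 := hf.inv.isIntegral.inv_mem_adjoin
    rwa [inv_inv] at h3
  rcases hv.isVal f with h | h
  · exact ⟨h, Algebra.adjoin_le (Set.singleton_subset_iff.2 h) h1⟩
  · exact ⟨Algebra.adjoin_le (Set.singleton_subset_iff.2 h) h2, h⟩

/-- The product formula.  Proof: if `f` is algebraic over `k` then all orders are zero.
Otherwise let `T = k(f)` (`IntermediateField.adjoin k {f}`), `t` the zero of `f` in `T` and `t'`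
the zero of `f⁻¹` (`exists_zero`).  The `v ∈ Gd s` with `ord_v f > 0` are the elements of
`GoodOver t s` (if `ord_v f > 0` then the inverse image of `v` in `T` contains `t` and is not `T`,
so it is `t`: `IsDVR.eq_of_le`), and `ram t v = ord_v f`; in the same way `ord_v f < 0` iff
`v ∈ GoodOver t' s`, `ram t' v = - ord_v f`.  Now `degree_formula` gives that the two sums
are equal. -/
theorem prod_formula {d : ℕ} (hF : Algebra.trdeg k F = (d + 1 : ℕ)) (s : Fin d → F) {f : F}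
    (hf : f ≠ 0) :
    {v | v ∈ Gd (k := k) s ∧ ord v f ≠ 0}.Finite ∧
      ∑ᶠ v ∈ Gd (k := k) s, (ord v f : ℚ) * resDeg v (Set.range s) = 0 := by
  classical
  by_cases halg : IsAlgebraic k f
  · have h0 : ∀ v ∈ Gd (k := k) s, ord v f = 0 := fun v hv => PA3_alg hv.1.1 hf halg
    have he : {v | v ∈ Gd (k := k) s ∧ ord v f ≠ 0} = ∅ := by
      ext v
      rw [Set.mem_empty_iff_false, iff_false]
      rintro ⟨h1, h2⟩
      exact h2 (h0 v h1)
    rw [he]
    refine ⟨Set.finite_empty, ?_⟩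
    rw [← finsum_mem_zero (Gd (k := k) s)]
    refine finsum_mem_congr rfl fun v hv => ?_
    rw [h0 v hv, Int.cast_zero, zero_mul]
  have htr : Transcendental k f := halg
  obtain ⟨T, hTd⟩ : ∃ T : IntermediateField k F, T = IntermediateField.adjoin k {f} := ⟨_, rfl⟩
  have hfT : f ∈ T := by
    rw [hTd]
    exact IntermediateField.mem_adjoin_simple_self k f
  obtain ⟨f', hf'⟩ : ∃ f' : T, algebraMap T F f' = f := ⟨⟨f, hfT⟩, rfl⟩
  have htr' : Transcendental k f' := by
    intro h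
    apply htr
    rw [← hf']
    exact h.algebraMap
  have htop : IntermediateField.adjoin k {f'} = ⊤ := by
    apply IntermediateField.map_injective T.val
    rw [IntermediateField.adjoin_map, ← AlgHom.fieldRange_eq_map,
      IntermediateField.fieldRange_val, Set.image_singleton]
    have : T.val f' = f := hf'
    rw [this, hTd]
  have hf'0 : f' ≠ 0 := by
    rintro rfl
    exact htr' isAlgebraic_zero
  have htri : Transcendental k f'⁻¹ := by
    intro h
    apply htr'
    have := h.inv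
    rwa [inv_inv] at this
  have htopi : IntermediateField.adjoin k {f'⁻¹} = ⊤ := by
    rw [eq_top_iff, ← htop, IntermediateField.adjoin_le_iff, Set.singleton_subset_iff]
    have := (IntermediateField.adjoin k {f'⁻¹}).inv_mem
      (IntermediateField.mem_adjoin_simple_self k f'⁻¹)
    rwa [inv_inv] at this
  have hess : Algebra.EssFiniteType k T := by
    rw [IntermediateField.essFiniteType_iff, hTd]
    exact ⟨{f}, by simp⟩
  have htrd := PA3_trdeg htr' htop
  obtain ⟨t, ht, -, ht1, ht2⟩ := exists_zero htr' htop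
  obtain ⟨t', ht', -, ht1', ht2'⟩ := exists_zero htri htopi
  obtain ⟨D, hD⟩ := degree_formula (k := k) (T := T) htrd hF s
  obtain ⟨a1, a2⟩ := hD t ht
  obtain ⟨b1, b2⟩ := hD t' ht'
  rw [ht2] at a2
  rw [ht2'] at b2
  have hA := PA3_good htr' htop ht ht1 s
  have hB := PA3_good htri htopi ht' ht1' s
  rw [hf'] at hA
  rw [map_inv₀, hf'] at hB
  have hAr : ∀ v ∈ GoodOver t s, (ram t v : ℚ) * resDeg v (Set.range s) =
      (ord v f : ℚ) * resDeg v (Set.range s) := by
    intro v hv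
    rw [PA3_ram ht hv.1.1 hv.2.1 hf'0 ht1, hf']
  have hBr : ∀ v ∈ GoodOver t' s, (ram t' v : ℚ) * resDeg v (Set.range s) =
      - ((ord v f : ℚ) * resDeg v (Set.range s)) := by
    intro v hv
    rw [PA3_ram ht' hv.1.1 hv.2.1 (inv_ne_zero hf'0) ht1', map_inv₀, hf', ord_inv hv.1.1,
      Int.cast_neg, neg_mul]
  rw [finsum_mem_congr rfl hAr] at a2
  rw [finsum_mem_congr rfl hBr] at b2
  have hU : {v | v ∈ Gd (k := k) s ∧ ord v f ≠ 0} = GoodOver t s ∪ GoodOver t' s := by
    rw [hA, hB]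
    ext v
    constructor
    · rintro ⟨h1, h2⟩
      rcases lt_or_gt_of_ne h2 with h | h
      · right
        refine ⟨h1, ?_⟩
        rw [ord_inv h1.1.1]
        omega
      · left
        exact ⟨h1, h⟩
    · rintro (⟨h1, h2⟩ | ⟨h1, h2⟩)
      · exact ⟨h1, h2.ne'⟩
      · refine ⟨h1, ?_⟩
        rw [ord_inv h1.1.1] at h2
        omega
  have hdis : Disjoint (GoodOver t s) (GoodOver t' s) := by
    rw [Set.disjoint_left, hA, hB]
    rintro v ⟨h1, h2⟩ ⟨-, h3⟩
    rw [ord_inv h1.1.1] at h3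
    omega
  refine ⟨by rw [hU]; exact a1.union b1, ?_⟩
  have hsum : ∑ᶠ v ∈ Gd (k := k) s, (ord v f : ℚ) * resDeg v (Set.range s) =
      ∑ᶠ v ∈ GoodOver t s ∪ GoodOver t' s, (ord v f : ℚ) * resDeg v (Set.range s) := by
    refine finsum_mem_inter_support_eq _ _ _ ?_
    rw [← hU]
    ext v
    constructor
    · rintro ⟨h1, h2⟩
      refine ⟨⟨h1, fun h => h2 ?_⟩, h2⟩
      show (ord v f : ℚ) * resDeg v (Set.range s) = 0
      rw [h, Int.cast_zero, zero_mul]
    · rintro ⟨h1, h2⟩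
      exact ⟨h1.1, h2⟩
  rw [hsum, finsum_mem_union hdis a1 b1, a2]
  have hneg : ∑ᶠ v ∈ GoodOver t' s, (ord v f : ℚ) * resDeg v (Set.range s) =
      - ((D : ℚ) * (1 : ℕ)) := by
    rw [← b2, finsum_mem_neg_distrib _ b1, neg_neg]
  rw [hneg]
  ring

end Flip28
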