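import Pool.Agent.FlipP_h28.PDef

/-! # Residue maps -/

open scoped KaehlerDifferential

universe u

namespace Flip28

variable {k K : Type u} [Field k] [Field K] [Algebra k K] {P : Subalgebra k K}
  {F : Type u} [Field F] [Algebra k F] {π : P →ₐ[k] F}

theorem PB0_rs {f : K} (hf : f ∈ P) : rs π f = π ⟨f, hf⟩ := dif_pos hf

theorem rs_mul {f g : K} (hf : f ∈ P) (hg : g ∈ P) : rs π (f * g) = rs π f * rs π g := by
  rw [PB0_rs hf, PB0_rs hg, PB0_rs (P.mul_mem hf hg), ← map_mul]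
  rfl

theorem rs_add {f g : K} (hf : f ∈ P) (hg : g ∈ P) : rs π (f + g) = rs π f + rs π g := by
  rw [PB0_rs hf, PB0_rs hg, PB0_rs (P.add_mem hf hg), ← map_add]
  rfl

theorem rs_one : rs π (1 : K) = 1 := by
  rw [PB0_rs P.one_mem, ← map_one π]
  rfl

/-- Proof: `f, f⁻¹ ∈ P` (`ord_eq_zero_iff`). -/
theorem rs_ne_zero (hPd : IsDVR P) {f : K} (hf : f ≠ 0) (h0 : ord P f = 0) : rs π f ≠ 0 := by
  obtain ⟨h1, h2⟩ := (ord_eq_zero_iff hPd hf).1 h0
  rw [PB0_rs h1]
  exact (DegE_inv_mul π h1 h2 hf).1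

theorem rs_eq_zero (hπ : IsRes π) (hPd : IsDVR P) {f : K} (hf : f ≠ 0) (h0 : 0 < ord P f) :
    rs π f = 0 := by
  have h1 : f ∈ P := (mem_iff hPd hf).2 h0.le
  rw [PB0_rs h1]
  refine hπ.ker ⟨f, h1⟩ fun h2 => ?_
  have h3 := (mem_iff hPd (inv_ne_zero hf)).1 h2
  rw [ord_inv hPd] at h3
  omega

theorem rs_inv (hPd : IsDVR P) {f : K} (hf : f ≠ 0) (h0 : ord P f = 0) :
    rs π f⁻¹ = (rs π f)⁻¹ := by
  obtain ⟨h1, h2⟩ := (ord_eq_zero_iff hPd hf).1 h0
  rw [PB0_rs h1, PB0_rs h2]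
  exact (DegE_inv_mul π h1 h2 hf).2

theorem rs_pow {f : K} (hf : f ∈ P) (j : ℕ) : rs π (f ^ j) = rs π f ^ j := by
  rw [PB0_rs hf, PB0_rs (P.pow_mem hf j), ← map_pow]
  rfl

theorem rs_prod {ι : Type*} (S : Finset ι) (f : ι → K) (hf : ∀ i ∈ S, f i ∈ P) :
    rs π (∏ i ∈ S, f i) = ∏ i ∈ S, rs π (f i) := by
  classical
  induction S using Finset.induction_on with
  | empty => rw [Finset.prod_empty, Finset.prod_empty, rs_one]
  | insert a S ha ih =>
    rw [Finset.prod_insert ha, Finset.prod_insert ha, rs_mul (hf a (Finset.mem_insert_self a S))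
      (P.prod_mem fun i hi => hf i (Finset.mem_insert_of_mem hi)),
      ih fun i hi => hf i (Finset.mem_insert_of_mem hi)]

theorem mem_img {C : Subalgebra k K} {x : F} :
    x ∈ img π C ↔ ∃ f ∈ C, f ∈ P ∧ rs π f = x := by
  constructor
  · rintro ⟨a, ha, rfl⟩
    exact ⟨a, ha, a.2, PB0_rs a.2⟩
  · rintro ⟨f, hf, hfP, rfl⟩
    exact ⟨⟨f, hfP⟩, hf, (PB0_rs hfP).symm⟩

/-- The residue field of a prime divisor.  Proof: take the residue field of the local ring `P` and
`dim_formula` (`dim P = 1`, `isDVR_iff`); it is generated as a field by the residues of the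
generators of a chart. -/
theorem exists_res [CharZero k] [Algebra.EssFiniteType k K] {n : ℕ}
    (b : Module.Basis (Fin n) K Ω[K⁄k]) {Z : Set (Subalgebra k K)} (hZ : IsCompleteNormal Z)
    {P : Subalgebra k K} (hP : P ∈ Z) (hPd : IsDVR P) :
    ∃ (F : Type u) (_ : Field F) (_ : Algebra k F) (π : P →ₐ[k] F), IsRes π ∧
      Algebra.EssFiniteType k F ∧ ∃ e : ℕ, n = e + 1 ∧ Algebra.trdeg k F = (e : ℕ) := by
  haveI hloc : IsLocalRing P := hZ.isLocalRing hP
  obtain ⟨R, hR, hRK, hRP, -⟩ := hZ.exists_chart hP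
  obtain ⟨d, e, h1, h2, h3⟩ := dim_formula hR hRK hRP
  have hd : ringKrullDim P = 1 := (hZ.isDVR_iff hP).1 hPd
  rw [hd] at h1
  have hd1 : 1 = d := by exact_mod_cast h1
  haveI : Algebra.EssFiniteType k P := hRP.essFiniteType hR
  refine ⟨IsLocalRing.ResidueField P, inferInstance, inferInstance,
    IsScalarTower.toAlgHom k P (IsLocalRing.ResidueField P), ⟨?_, ?_⟩, ?_, e, ?_, h2⟩
  · exact IsLocalRing.residue_surjective
  · intro a ha
    show IsLocalRing.residue P a = 0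
    rw [IsLocalRing.residue_eq_zero_iff, IsLocalRing.mem_maximalIdeal, mem_nonunits_iff, LocAlg_unit]
    exact fun h => ha h.2
  · haveI : Algebra.FiniteType P (IsLocalRing.ResidueField P) :=
      Algebra.FiniteType.of_surjective (Algebra.ofId P (IsLocalRing.ResidueField P))
        IsLocalRing.residue_surjective
    exact Algebra.EssFiniteType.comp k P (IsLocalRing.ResidueField P)
  · have h4 : Algebra.trdeg k K = (n : ℕ) := by
      rw [trdeg_eq_finrank, Module.finrank_eq_card_basis b, Fintype.card_fin]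
    rw [h4] at h3
    have h5 : n = d + e := by exact_mod_cast h3
    omega

end Flip28
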