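import Pool.Agent.FlipP_h28.PB0

/-! # Composite valuation rings and their centres -/

open scoped KaehlerDifferential

universe u

namespace Flip28

variable {k K : Type u} [Field k] [Field K] [Algebra k K] {Z : Set (Subalgebra k K)}
  {P : Subalgebra k K} {F : Type u} [Field F] [Algebra k F] {π : P →ₐ[k] F}

/-- Proof: let `x ∉ P`; then `x⁻¹ ∈ P` has residue `0`, so `x⁻¹` is in the composite ring.
If `x, x⁻¹ ∈ P` use that `v` is a valuation ring; if `x ∈ P`, `x⁻¹ ∉ P` the residue is `0`. -/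
theorem isVal_comp (hπ : IsRes π) (hPd : IsDVR P) {v : Subalgebra k F} (hv : IsVal v) :
    IsVal (DegE_O π v) := by
  intro x
  by_cases hx : x ∈ P
  · by_cases hx' : x⁻¹ ∈ P
    · by_cases h0 : x = 0
      · left
        rw [h0]
        exact (DegE_O π v).zero_mem
      · have h1 := (DegE_inv_mul π hx hx' h0).2
        rcases hv (π ⟨x, hx⟩) with h | h
        · exact Or.inl (DegE_mem.2 ⟨hx, h⟩)
        · right
          refine DegE_mem.2 ⟨hx', ?_⟩
          rw [h1]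
          exact h
    · left
      refine DegE_mem.2 ⟨hx, ?_⟩
      rw [hπ.ker ⟨x, hx⟩ hx']
      exact v.zero_mem
  · have hx' : x⁻¹ ∈ P := (hPd.isVal x).resolve_left hx
    right
    refine DegE_mem.2 ⟨hx', ?_⟩
    rw [hπ.ker ⟨x⁻¹, hx'⟩ (by
      show (x⁻¹)⁻¹ ∉ P
      rw [inv_inv]
      exact hx)]
    exact v.zero_mem

/-- The centre on `Z` of the valuation composed of `P` and `v`.  Proof: `hZ.centre`; the composite
ring is contained in `P`. -/
theorem exists_centre_comp (hZ : IsCompleteNormal Z) (hπ : IsRes π) (hPd : IsDVR P)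
    {v : Subalgebra k F} (hv : IsVal v) :
    ∃ C ∈ Z, Dom C (DegE_O π v) ∧ C ≤ P ∧ img π C ≤ v := by
  obtain ⟨C, ⟨hC, hd⟩, _⟩ := hZ.centre _ (isVal_comp hπ hPd hv)
  refine ⟨C, hC, hd, fun x hx => (DegE_mem.1 (hd.1 hx)).1, ?_⟩
  rintro _ ⟨a, ha, rfl⟩
  obtain ⟨h1, h2⟩ := DegE_mem.1 (hd.1 (show (a : K) ∈ C from ha))
  exact h2

/-- Proof: an element `x` of the composite ring has its residue in `img π C`; so does ... `C` is
dominated by the composite ring of `P` and `img π C`: if `a ∈ C` has an inverse in the composite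
ring then `a⁻¹ ∈ P` and `rs π a⁻¹ = rs π c`, `c ∈ C`, so `1 - a c` has residue zero, is not a unit
of `P`, hence not a unit of `C`, so `a c` is a unit of the local ring `C`, and so is `a`. -/
theorem dom_comp (hZ : IsCompleteNormal Z) (hπ : IsRes π) (hPd : IsDVR P)
    {C : Subalgebra k K} (hC : C ∈ Z) (hCP : C ≤ P) : Dom C (DegE_O π (img π C)) := by
  have hloc : IsLocalRing C := by
    obtain ⟨S, _, _, hS⟩ := hZ.charts
    obtain ⟨R, _, hR⟩ := (hS C).1 hC
    exact hR.2.1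
  refine ⟨fun x hx => DegE_mem.2 ⟨hCP hx, ⟨⟨x, hCP hx⟩, hx, rfl⟩⟩, fun a ha ha' => ?_⟩
  by_cases h0 : a = 0
  · rw [h0, inv_zero]
    exact C.zero_mem
  obtain ⟨h1, c, hc, hca⟩ := DegE_mem.1 ha'
  have hc' : (c : K) ∈ C := hc
  have haP : a ∈ P := hCP ha
  have hxC : 1 - a * (c : K) ∈ C := C.sub_mem C.one_mem (C.mul_mem ha hc')
  have hxP : 1 - a * (c : K) ∈ P := hCP hxC
  have h2 : π ⟨1 - a * (c : K), hxP⟩ = 0 := by
    have h3 : (⟨1 - a * (c : K), hxP⟩ : P) = 1 - ⟨a, haP⟩ * c := rfl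
    have h4 : π c = π ⟨a⁻¹, h1⟩ := hca
    have h5 := DegE_inv_mul π haP h1 h0
    rw [h3, map_sub, map_one, map_mul, h4, h5.2, mul_inv_cancel₀ h5.1, sub_self]
  rcases Loc_aux_unit hloc hxC with ⟨h3, h4⟩ | ⟨h3, h4⟩
  · exact absurd h2 (DegE_inv_mul π hxP (hCP h4) h3).1
  · rw [sub_sub_cancel] at h3 h4
    have h5 : a⁻¹ = c * (a * (c : K))⁻¹ := by
      have h6 : (c : K) ≠ 0 := right_ne_zero_of_mul h3
      field_simp
    rw [h5]
    exact C.mul_mem hc' h4

/-- Proof: `dom_comp`; the composite ring is a local ring (`isVal_comp`, `IsVal.isLocalRing`) and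
the centre on `Z` is unique (`hZ.unique`). -/
theorem img_injective (hZ : IsCompleteNormal Z) (hπ : IsRes π) (hPd : IsDVR P)
    {C C' : Subalgebra k K} (hC : C ∈ Z) (hCP : C ≤ P) (hC' : C' ∈ Z) (hCP' : C' ≤ P)
    (hv : IsDVR (img π C)) (he : img π C = img π C') : C = C' := by
  have h1 := dom_comp hZ hπ hPd hC hCP
  have h2 := dom_comp hZ hπ hPd hC' hCP'
  rw [← he] at h2
  exact (hZ.centre _ (isVal_comp hπ hPd hv.isVal)).unique ⟨hC, h1⟩ ⟨hC', h2⟩

end Flip28
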