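import Pool.Agent.FlipP_h28.PB0

/-! # The place of a good point -/

open scoped KaehlerDifferential

universe u

namespace Flip28

variable {k K : Type u} [Field k] [Field K] [Algebra k K] {Z : Set (Subalgebra k K)}
  {P : Subalgebra k K} {F : Type u} [Field F] [Algebra k F] {π : P →ₐ[k] F}

theorem PB2_rs {f : K} (hf : f ∈ P) : rs π f = π ⟨f, hf⟩ := by
  unfold rs
  rw [dif_pos hf]

theorem PB2_zero : rs π (0 : K) = 0 := by
  rw [PB2_rs P.zero_mem]
  exact map_zero π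

theorem PB2_mem {C : Subalgebra k K} (hCP : C ≤ P) {f : K} (hf : f ∈ C) : rs π f ∈ img π C :=
  mem_img.2 ⟨f, hf, hCP hf, rfl⟩

theorem PB2_noeth {C : Subalgebra k K} (hCP : C ≤ P) (hC : IsNoetherianRing C) :
    IsNoetherianRing (img π C) := by
  let ψ : C →ₐ[k] img π C := (π.comp (Subalgebra.inclusion hCP)).codRestrict (img π C)
    (fun c => ⟨⟨c, hCP c.2⟩, c.2, rfl⟩)
  refine isNoetherianRing_of_surjective C (img π C) (ψ : C →+* img π C) ?_
  rintro ⟨x, y, hy, rfl⟩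
  exact ⟨⟨y, hy⟩, rfl⟩

theorem PB2_fg {R : Subalgebra k K} (hRP : R ≤ P) (hR : R.FG) : (img π R).FG := by
  have h1 : (⊤ : Subalgebra k R).FG := (R.fg_iff_finiteType.1 hR).out
  have h2 : img π R = (⊤ : Subalgebra k R).map (π.comp (Subalgebra.inclusion hRP)) := by
    ext x
    constructor
    · rintro ⟨y, hy, rfl⟩
      exact ⟨⟨y, hy⟩, Algebra.mem_top, rfl⟩
    · rintro ⟨y, -, rfl⟩
      exact ⟨⟨y, hRP y.2⟩, y.2, rfl⟩
  rw [h2]
  exact h1.map _

/-- An equation of `P` divides the elements of `C` with residue zero.  Proof: `ord P f ≥ 1`, so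
`f / t` has no poles on the `Q ∈ Z`, `Q ≥ C` (`tQ`, `tP`); `hZ.mem_of_ord`. -/
theorem GoodC.dvd (hZ : IsCompleteNormal Z) (hPd : IsDVR P) {C E : Subalgebra k K} {t w : K}
    (h : GoodC Z P C E t w) {f : K} (hf : f ∈ C) (h0 : f = 0 ∨ 0 < ord P f) :
    ∃ c ∈ C, f = c * t := by
  rcases h0 with h0 | h0
  · exact ⟨0, C.zero_mem, by rw [h0, zero_mul]⟩
  by_cases hf0 : f = 0
  · exact ⟨0, C.zero_mem, by rw [hf0, zero_mul]⟩
  refine ⟨f * t⁻¹, ?_, by rw [mul_assoc, inv_mul_cancel₀ h.t0, mul_one]⟩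
  have hti : t⁻¹ ≠ 0 := inv_ne_zero h.t0
  refine hZ.mem_of_ord h.hC (mul_ne_zero hf0 hti) fun Q hQ hQd hCQ => ?_
  rw [ord_mul hQd hf0 hti, ord_inv hQd]
  by_cases hQP : Q = P
  · subst hQP
    rw [h.tP]
    omega
  · rw [h.tQ Q hQ hQd hCQ hQP]
    have h1 := (mem_iff hQd hf0).1 (hCQ hf)
    omega

/-- `img π C` is a discrete valuation ring with uniformizer the residue of `w`, and a
localization of a finitely generated algebra.

Proof: every nonunit of `C` is `a0 t + a1 w` (`h.gen`), so every element of `img π C` is `0`, a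
unit or a multiple of `rs π w`; `rs π w ≠ 0`.  Every `x ∈ img π C`, `x ≠ 0`, is
`u (rs π w) ^ r` with a unit `u`: `x = rs π f`, `f ∈ C`; by induction on a bound for `r`: the
orders are bounded since `C` is Noetherian; for instance `f ∉ (t, w ^ N)` for some `N` by Krull's
intersection theorem in the Noetherian local ring `C / (t)`.  (Alternatively: `img π C` is a
Noetherian local domain, not a field, whose maximal ideal is principal, so a discrete valuation
ring by Mathlib; `isDVR_iff`.)  The quotient field is `F`: every element of `P` is a quotient of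
elements of `C` with denominator a unit of `P` (`hZ.isLoc_of_le`).  `IsPrimeDiv`: let `R ≤ C` be a
chart; `img π R` is finitely generated and `IsLoc (img π R) (img π C)`. -/
theorem GoodC.isPrimeDiv (hZ : IsCompleteNormal Z) (hπ : IsRes π) (hP : P ∈ Z) (hPd : IsDVR P)
    {C E : Subalgebra k K} {t w : K} (h : GoodC Z P C E t w) :
    IsPrimeDiv (img π C) ∧ ord (img π C) (rs π w) = 1 := by
  have hCP := h.hCP
  have hwP : w ∈ P := hCP h.wC
  have hordw : ord P w = 0 := (ord_eq_zero_iff hPd h.w0).2 ⟨hwP, h.wP⟩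
  have hv0 : rs π w ≠ 0 := rs_ne_zero hPd h.w0 hordw
  have hvD : rs π w ∈ img π C := PB2_mem hCP h.wC
  have hrt : rs π t = 0 := rs_eq_zero hπ hPd h.t0 (by rw [h.tP]; norm_num)
  have hloc : IsLocalRing C := hZ.isLocalRing h.hC
  -- the units of `C`
  have hu : ∀ a : C, IsUnit a ↔ (a : K) ≠ 0 ∧ (a : K)⁻¹ ∈ C := fun a => Ord_isUnit_iff a
  have htn : ¬ IsUnit (⟨t, h.tC⟩ : C) := by
    rw [hu]
    rintro ⟨-, h1⟩
    have h2 := (mem_iff hPd (inv_ne_zero h.t0)).1 (hCP h1)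
    rw [ord_inv hPd, h.tP] at h2
    omega
  have hwn : ¬ IsUnit (⟨w, h.wC⟩ : C) := by
    rw [hu]
    exact fun h1 => h.wC' h1.2
  -- `v` is not invertible
  have hvn : (rs π w)⁻¹ ∉ img π C := by
    intro h1
    obtain ⟨c, hc, hcP, hcv⟩ := mem_img.1 h1
    have h2 : rs π (c * w - 1) = 0 := by
      have h3 : rs π (c * w) = 1 := by
        rw [rs_mul hcP hwP, hcv, inv_mul_cancel₀ hv0]
      have h4 : rs π (c * w) = rs π (c * w - 1) + rs π 1 := by
        rw [← rs_add (P.sub_mem (P.mul_mem hcP hwP) P.one_mem) P.one_mem, sub_add_cancel]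
      rw [h3, rs_one] at h4
      exact (left_eq_add.1 (h4.trans (add_comm _ _))) 
    have hcw : c * w - 1 ∈ C := C.sub_mem (C.mul_mem hc h.wC) C.one_mem
    have h3 : c * w - 1 = 0 ∨ 0 < ord P (c * w - 1) := by
      by_cases h4 : c * w - 1 = 0
      · exact Or.inl h4
      · right
        have h5 := (mem_iff hPd h4).1 (hCP hcw)
        rcases h5.lt_or_eq with h6 | h6
        · exact h6
        · exact absurd h2 (rs_ne_zero hPd h4 h6.symm)
    obtain ⟨c', hc', e⟩ := h.dvd hZ hPd hcw h3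
    have h4 : (1 : C) = ⟨c, hc⟩ * ⟨w, h.wC⟩ + (-⟨c', hc'⟩) * ⟨t, h.tC⟩ := by
      ext
      show (1 : K) = c * w + -c' * t
      rw [neg_mul, ← e]
      ring
    rcases IsLocalRing.isUnit_or_isUnit_of_isUnit_add (h4 ▸ isUnit_one) with h5 | h5
    · exact hwn (isUnit_of_mul_isUnit_right h5)
    · exact htn (isUnit_of_mul_isUnit_right h5)
  -- elements of `D` are units or divisible by `v`
  have hstep : ∀ x ∈ img π C, x⁻¹ ∉ img π C → ∃ y ∈ img π C, x = rs π w * y := by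
    intro x hx hxn
    obtain ⟨f, hf, hfP, rfl⟩ := mem_img.1 hx
    have hfn : f⁻¹ ∉ C := by
      intro h1
      apply hxn
      by_cases hf0 : f = 0
      · rw [hf0, PB2_zero, inv_zero]
        exact (img π C).zero_mem
      · rw [← rs_inv hPd hf0 ((ord_eq_zero_iff hPd hf0).2 ⟨hfP, hCP h1⟩)]
        exact PB2_mem hCP h1
    obtain ⟨a0, ha0, a1, ha1, e⟩ := h.gen f hf hfn
    refine ⟨rs π a1, PB2_mem hCP ha1, ?_⟩
    rw [e, rs_add (P.mul_mem (hCP ha0) (hCP h.tC)) (P.mul_mem (hCP ha1) hwP),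
      rs_mul (hCP ha0) (hCP h.tC), rs_mul (hCP ha1) hwP, hrt, mul_zero, zero_add, mul_comm]
  obtain ⟨R, hRfg, hRfr, hRC, -⟩ := hZ.exists_chart h.hC
  have hnC : IsNoetherianRing C := hRC.isNoetherianRing hRfg
  have hnD : IsNoetherianRing (img π C) := PB2_noeth hCP hnC
  have hfac : ∀ x ∈ img π C, x ≠ 0 → ∃ (r : ℕ) (u : F), u ∈ img π C ∧ u⁻¹ ∈ img π C ∧ u ≠ 0 ∧
      x = rs π w ^ r * u := by
    intro x hx hx0
    have hvu : ¬ IsUnit (⟨rs π w, hvD⟩ : img π C) := by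
      rw [Ord_isUnit_iff]
      exact fun h1 => hvn h1.2
    have hfm : FiniteMultiplicity (⟨rs π w, hvD⟩ : img π C) ⟨x, hx⟩ :=
      FiniteMultiplicity.of_not_isUnit hvu fun h1 => hx0 (congrArg Subtype.val h1)
    obtain ⟨c, hc, hcn⟩ := hfm.exists_eq_pow_mul_and_not_dvd
    have e : x = rs π w ^ (multiplicity (⟨rs π w, hvD⟩ : img π C) ⟨x, hx⟩) * (c : F) :=
      congrArg Subtype.val hc
    refine ⟨_, c, c.2, ?_, ?_, e⟩
    · by_contra hcu
      obtain ⟨y, hy, ey⟩ := hstep c c.2 hcu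
      exact hcn ⟨⟨y, hy⟩, Subtype.ext ey⟩
    · intro hc0
      rw [hc0, mul_zero] at e
      exact hx0 e
  have hunif : IsUnif (img π C) (rs π w) := by
    refine ⟨hvD, hvn, fun x hx => ?_⟩
    obtain ⟨⟨p, hp⟩, rfl⟩ := hπ.surj x
    have hx' : π ⟨p, hp⟩ = rs π p := (PB2_rs hp).symm
    rw [hx'] at hx ⊢
    obtain ⟨r, hr, s, hs, hsP, e⟩ := (hZ.isLoc_of_le h.hC hP hCP).2.2 p hp
    have hs0 : s ≠ 0 := by
      rintro rfl
      rw [inv_zero, mul_zero] at e
      rw [e, PB2_zero] at hx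
      exact hx rfl
    have hos : ord P s = 0 := (ord_eq_zero_iff hPd hs0).2 ⟨hCP hs, hsP⟩
    have hss := rs_ne_zero (π := π) hPd hs0 hos
    have hpe : rs π p = rs π r * (rs π s)⁻¹ := by
      rw [e, rs_mul (hCP hr) hsP, rs_inv hPd hs0 hos]
    have hrr : rs π r ≠ 0 := by
      intro h1
      rw [hpe, h1, zero_mul] at hx
      exact hx rfl
    obtain ⟨a, u, hu1, hu2, hu0, ea⟩ := hfac _ (PB2_mem hCP hr) hrr
    obtain ⟨b, u', hu1', hu2', hu0', eb⟩ := hfac _ (PB2_mem hCP hs) hss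
    have key : rs π p * rs π w ^ (-((a : ℤ) - b)) = u * u'⁻¹ := by
      rw [hpe, ea, eb, neg_sub, zpow_sub₀ hv0, zpow_natCast, zpow_natCast]
      field_simp
    refine ⟨(a : ℤ) - b, ?_, ?_⟩
    · rw [key]
      exact (img π C).mul_mem hu1 hu2'
    · rw [key, mul_inv, inv_inv]
      exact (img π C).mul_mem hu2 hu1'
  have hDVR : IsDVR (img π C) := ⟨_, hunif⟩
  refine ⟨⟨hDVR, img π R, PB2_fg (hRC.le.trans hCP) hRfg, ?_, hDVR.isVal.isLocalRing, ?_⟩, ?_⟩
  · intro x hx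
    obtain ⟨f, hf, hfP, rfl⟩ := mem_img.1 hx
    exact PB2_mem hCP (hRC.le hf)
  · intro x hx
    obtain ⟨f, hf, hfP, rfl⟩ := mem_img.1 hx
    obtain ⟨r, hr, s, hs, hsC, e⟩ := hRC.2.2 f hf
    by_cases hs0 : s = 0
    · refine ⟨0, (img π R).zero_mem, 1, (img π R).one_mem, ?_, ?_⟩
      · rw [inv_one]
        exact (img π C).one_mem
      · rw [e, hs0, inv_zero, mul_zero, PB2_zero, zero_mul]
    · have hsP : s ∈ P := hCP (hRC.le hs)
      have hos : ord P s = 0 := (ord_eq_zero_iff hPd hs0).2 ⟨hsP, hCP hsC⟩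
      refine ⟨rs π r, PB2_mem (hRC.le.trans hCP) hr, rs π s, PB2_mem (hRC.le.trans hCP) hs, ?_, ?_⟩
      · rw [← rs_inv hPd hs0 hos]
        exact PB2_mem hCP hsC
      · rw [e, rs_mul (hCP (hRC.le hr)) (hCP hsC), rs_inv hPd hs0 hos]
  · exact ((isUnif_iff hDVR).1 hunif).2

end Flip28
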