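import Pool.Agent.FlipP_h28.PB2

/-! # Orders along the blow up and orders of residues -/

open scoped KaehlerDifferential

universe u

namespace Flip28

variable {k K : Type u} [Field k] [Field K] [Algebra k K] {Z : Set (Subalgebra k K)}
  {P : Subalgebra k K} {F : Type u} [Field F] [Algebra k F] {π : P →ₐ[k] F}

/-- Proof: induction on `e`.  If `f = ∑ a i t ^ i w ^ (e - i)` and `e < ord E f` then all `a i`
are nonunits of `C` by `h.unit` (replace `a i` by `0` for `i > e`), so `a i = b i t + c i w`, and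
`f` is a form of degree `e + 1`. -/
theorem GoodC.expand {C E : Subalgebra k K} {t w : K} (h : GoodC Z P C E t w) {f : K}
    (hf : f ∈ C) (hf0 : f ≠ 0) (e : ℕ) (he : (e : ℤ) ≤ ord E f) :
    ∃ a : ℕ → K, (∀ i, a i ∈ C) ∧ f = ∑ i ∈ Finset.range (e + 1), a i * t ^ i * w ^ (e - i) := by
  induction e with
  | zero =>
    refine ⟨fun i => if i = 0 then f else 0, fun i => ?_, ?_⟩
    · dsimp only
      split_ifs
      · exact hf
      · exact C.zero_mem
    · rw [zero_add, Finset.sum_range_one]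
      simp
  | succ e ih =>
    obtain ⟨a, ha, hfa⟩ := ih (by push_cast at he; omega)
    have hnu : ∀ i, i ≤ e → a i = 0 ∨ (a i)⁻¹ ∉ C := by
      intro i hi
      by_contra hcon
      push Not at hcon
      obtain ⟨-, h2⟩ := h.unit e a ha ⟨i, hi, hcon.1, hcon.2⟩
      rw [← hfa] at h2
      rw [h2] at he
      push_cast at he
      omega
    have hbc : ∀ i, ∃ b ∈ C, ∃ c ∈ C, (i ≤ e → a i = b * t + c * w) ∧ (e < i → b = 0 ∧ c = 0) := by
      intro i
      by_cases hi : i ≤ e
      · rcases hnu i hi with h0 | h0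
        · exact ⟨0, C.zero_mem, 0, C.zero_mem, fun _ => by rw [h0, zero_mul, zero_mul, add_zero],
            fun hi' => absurd hi (not_le.2 hi')⟩
        · obtain ⟨b, hb, c, hc, hbc⟩ := h.gen (a i) (ha i) h0
          exact ⟨b, hb, c, hc, fun _ => hbc, fun hi' => absurd hi (not_le.2 hi')⟩
      · exact ⟨0, C.zero_mem, 0, C.zero_mem, fun hi' => absurd hi' hi, fun _ => ⟨rfl, rfl⟩⟩
    choose b hb c hc hbc1 hbc2 using hbc
    refine ⟨fun i => (if i = 0 then 0 else b (i - 1)) + c i, fun i => ?_, ?_⟩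
    · refine C.add_mem ?_ (hc i)
      split_ifs
      · exact C.zero_mem
      · exact hb _
    · have h1 : f = ∑ i ∈ Finset.range (e + 1), b i * t ^ (i + 1) * w ^ (e - i) +
          ∑ i ∈ Finset.range (e + 1), c i * t ^ i * w ^ (e + 1 - i) := by
        rw [hfa, ← Finset.sum_add_distrib]
        refine Finset.sum_congr rfl fun i hi => ?_
        have hi' : i ≤ e := Nat.lt_succ_iff.1 (Finset.mem_range.1 hi)
        rw [hbc1 i hi', Nat.succ_sub hi', pow_succ, pow_succ]
        ring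
      have h2 : ∑ i ∈ Finset.range (e + 1 + 1), (if i = 0 then 0 else b (i - 1)) * t ^ i *
          w ^ (e + 1 - i) = ∑ i ∈ Finset.range (e + 1), b i * t ^ (i + 1) * w ^ (e - i) := by
        rw [Finset.sum_range_succ', if_pos rfl, zero_mul, zero_mul, add_zero]
        refine Finset.sum_congr rfl fun i _ => ?_
        rw [if_neg (Nat.succ_ne_zero i), Nat.add_sub_cancel, Nat.add_sub_add_right]
      have h3 : ∑ i ∈ Finset.range (e + 1 + 1), c i * t ^ i * w ^ (e + 1 - i) =
          ∑ i ∈ Finset.range (e + 1), c i * t ^ i * w ^ (e + 1 - i) := by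
        rw [Finset.sum_range_succ, (hbc2 (e + 1) (Nat.lt_succ_self e)).2, zero_mul, zero_mul,
          add_zero]
      rw [h1, ← h2, ← h3, ← Finset.sum_add_distrib]
      refine Finset.sum_congr rfl fun i _ => ?_
      ring

/-- Proof: `expand` with `e = ord E f` (which is `≥ 0` as `C ≤ E`): the residue of `f` is
`rs (a 0) * rs w ^ e`, since `rs t = 0`; `a 0` and `w` are in `C`, `ord (rs w) = 1`. -/
theorem GoodC.ord_le (hZ : IsCompleteNormal Z) (hπ : IsRes π) (hP : P ∈ Z) (hPd : IsDVR P)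
    {C E : Subalgebra k K} {t w : K} (h : GoodC Z P C E t w) {f : K} (hf : f ∈ C) (hf0 : f ≠ 0)
    (h0 : ord P f = 0) : ord E f ≤ ord (img π C) (rs π f) := by
  have hEd : IsDVR E := h.hE.1
  obtain ⟨hD, hw1⟩ := h.isPrimeDiv hZ hπ hP hPd
  have hDd : IsDVR (img π C) := hD.1
  have he0 : 0 ≤ ord E f := (mem_iff hEd hf0).1 (h.hCE.1 hf)
  obtain ⟨e, he⟩ := Int.eq_ofNat_of_zero_le he0
  obtain ⟨a, ha, hfa⟩ := h.expand hf hf0 e he.ge
  have htP : t ∈ P := h.hCP h.tC
  have hwP : w ∈ P := h.hCP h.wC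
  have haP : ∀ i, a i ∈ P := fun i => h.hCP (ha i)
  have h1 : f = a 0 * w ^ e + t * ∑ i ∈ Finset.range e, a (i + 1) * t ^ i * w ^ (e - (i + 1)) := by
    rw [hfa, Finset.sum_range_succ', pow_zero, mul_one, Nat.sub_zero, add_comm, Finset.mul_sum]
    congr 1
    refine Finset.sum_congr rfl fun i _ => ?_
    rw [pow_succ]
    ring
  have hg : ∑ i ∈ Finset.range e, a (i + 1) * t ^ i * w ^ (e - (i + 1)) ∈ P :=
    P.sum_mem fun i _ => P.mul_mem (P.mul_mem (haP _) (P.pow_mem htP _)) (P.pow_mem hwP _)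
  have hrt : rs π t = 0 := rs_eq_zero hπ hPd h.t0 (by rw [h.tP]; exact one_pos)
  have hrf : rs π f = rs π (a 0) * rs π w ^ e := by
    rw [h1, rs_add (P.mul_mem (haP 0) (P.pow_mem hwP e)) (P.mul_mem htP hg), rs_mul htP hg, hrt,
      zero_mul, add_zero, rs_mul (haP 0) (P.pow_mem hwP e), rs_pow hwP]
  have hrf0 : rs π f ≠ 0 := rs_ne_zero hPd hf0 h0
  have ha0 : rs π (a 0) ≠ 0 := by
    intro h2
    rw [h2, zero_mul] at hrf
    exact hrf0 hrf
  have hwe0 : rs π w ^ e ≠ 0 := by
    intro h2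
    rw [h2, mul_zero] at hrf
    exact hrf0 hrf
  have hw0 : rs π w ≠ 0 := by
    intro h2
    have h3 : rs π w ∉ ({0} : Set F) := fun h4 => by
      rw [Set.mem_singleton_iff] at h4
      have h5 : ord (img π C) (0 : F) = 1 := by rw [← h4]; exact hw1
      have h6 : ord (img π C) (0 : F) = 0 := by
        have h7 := ord_inv hDd (0 : F)
        rw [inv_zero] at h7
        omega
      omega
    exact h3 h2
  have hmem : rs π (a 0) ∈ img π C := mem_img.2 ⟨a 0, ha 0, haP 0, rfl⟩
  have hn : 0 ≤ ord (img π C) (rs π (a 0)) := (mem_iff hDd ha0).1 hmem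
  rw [hrf, ord_mul hDd ha0 hwe0, ord_pow hDd hw0, hw1, mul_one, he]
  have h8 : (Int.ofNat e : ℤ) = (e : ℤ) := rfl
  omega

end Flip28
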