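import Pool.Agent.FlipP_h28.PDef

/-! # Almost all points of codimension one are good -/

open scoped KaehlerDifferential

universe u

namespace Flip28

section

variable {k K : Type u} [Field k] [Field K] [Algebra k K] {n : ℕ}
  (b : Module.Basis (Fin n) K Ω[K⁄k])

theorem PC1_low {j0 j1 : Fin n} (hj0 : (j0 : ℕ) = 0) (hj1 : (j1 : ℕ) = 1) :
    low n 2 = {j0, j1} := by
  ext i
  rw [mem_low, Finset.mem_insert, Finset.mem_singleton, Fin.ext_iff, Fin.ext_iff, hj0, hj1]
  omega

/-- exchange of the first two coordinates -/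
theorem PC1_swap {C : Subalgebra k K} {x : Fin n → K} (hx : IsCoord b C 2 x) {j0 j1 : Fin n}
    (hj0 : (j0 : ℕ) = 0) (hj1 : (j1 : ℕ) = 1) : IsCoord b C 2 (x ∘ Equiv.swap j0 j1) := by
  classical
  have hj01 : j0 ≠ j1 := by
    intro h
    rw [h, hj1] at hj0
    exact one_ne_zero hj0
  refine ⟨fun i => hx.mem _, ?_, ?_, ?_, ?_, hx.dim, hx.le⟩
  · intro h
    apply hx.ne
    unfold jac at h ⊢
    have h1 := AlternatingMap.map_swap b.det (fun i => KaehlerDifferential.D k K (x i)) hj01
    have h2 : b.det ((fun i => KaehlerDifferential.D k K (x i)) ∘ Equiv.swap j0 j1) = 0 := h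
    rw [h2] at h1
    exact (neg_eq_zero.1 h1.symm)
  · intro f hf
    obtain ⟨a, ha, e⟩ := hx.span f hf
    refine ⟨a ∘ Equiv.swap j0 j1, fun i => ha _, ?_⟩
    rw [e]
    exact (Equiv.sum_comp (Equiv.swap j0 j1)
      (fun i => a i • KaehlerDifferential.D k K (x i))).symm
  · intro i hi
    have h1 : ((Equiv.swap j0 j1 i : Fin n) : ℕ) < 2 := by
      by_cases h0 : i = j0
      · rw [h0, Equiv.swap_apply_left]
        omega
      · by_cases h1 : i = j1
        · rw [h1, Equiv.swap_apply_right]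
          omega
        · rw [Equiv.swap_apply_of_ne_of_ne h0 h1]
          exact hi
    exact hx.nonunit _ h1
  · intro f hf hf'
    obtain ⟨a, ha, e⟩ := hx.gen f hf hf'
    refine ⟨a ∘ Equiv.swap j0 j1, fun i => ha _, ?_⟩
    rw [PC1_low hj0 hj1, Finset.sum_pair hj01] at e ⊢
    simp only [Function.comp_apply, Equiv.swap_apply_left, Equiv.swap_apply_right]
    rw [e, add_comm]

/-- replace the second coordinate `x_1` by `t = a_0 x_0 + a_1 x_1`, `a_1` a unit -/
theorem PC1_update {C : Subalgebra k K} (iC : IsLocalRing C) {x : Fin n → K}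
    (hx : IsCoord b C 2 x) {j0 j1 : Fin n}
    (hj0 : (j0 : ℕ) = 0) (hj1 : (j1 : ℕ) = 1) {t a0 a1 : K} (ht : t ∈ C) (ht' : t⁻¹ ∉ C)
    (ha0 : a0 ∈ C) (ha1 : a1 ∈ C) (ha10 : a1 ≠ 0) (ha1' : a1⁻¹ ∈ C)
    (e : t = a0 * x j0 + a1 * x j1) : IsCoord b C 2 (Function.update x j1 t) := by
  classical
  have hj01 : j0 ≠ j1 := by
    intro h
    rw [h, hj1] at hj0
    exact one_ne_zero hj0
  obtain ⟨p, hp, ep⟩ := hx.span a0 ha0
  obtain ⟨r, hr, er⟩ := hx.span a1 ha1
  obtain ⟨c, hc⟩ : ∃ c : Fin n → K, c = fun i => ((if i = j0 then a0 else 0) + x j0 * p i) +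
      ((if i = j1 then a1 else 0) + x j1 * r i) := ⟨_, rfl⟩
  have hcC : ∀ i, c i ∈ C := by
    intro i
    rw [hc]
    refine C.add_mem (C.add_mem ?_ (C.mul_mem (hx.mem j0) (hp i)))
      (C.add_mem ?_ (C.mul_mem (hx.mem j1) (hr i)))
    · split_ifs
      · exact ha0
      · exact C.zero_mem
    · split_ifs
      · exact ha1
      · exact C.zero_mem
  have hDt : KaehlerDifferential.D k K t = ∑ i, c i • KaehlerDifferential.D k K (x i) := by
    rw [e, map_add, Derivation.leibniz, Derivation.leibniz, ep, er, hc]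
    simp only [add_smul, Finset.sum_add_distrib, Finset.smul_sum, smul_smul, ite_smul, zero_smul,
      Finset.sum_ite_eq', Finset.mem_univ, if_true]
  -- `c j1` is a unit
  have hcu : c j1 ≠ 0 ∧ (c j1)⁻¹ ∈ C := by
    have m0 := NC2_mem_maximal (hx.mem j0) (Or.inr (hx.nonunit j0 (by omega)))
    have m1 := NC2_mem_maximal (hx.mem j1) (Or.inr (hx.nonunit j1 (by omega)))
    have m2 := Ideal.add_mem _ (Ideal.mul_mem_right ⟨p j1, hp j1⟩ _ m0)
      (Ideal.mul_mem_right ⟨r j1, hr j1⟩ _ m1)
    have hval : c j1 = a1 + (x j0 * p j1 + x j1 * r j1) := by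
      rw [hc]
      simp only [if_neg hj01.symm, if_true]
      ring
    by_contra hcon
    rw [not_and_or, not_not] at hcon
    have m3 := NC2_mem_maximal (hcC j1) hcon
    have m4 := Ideal.sub_mem _ m3 m2
    have h5 : a1 = 0 ∨ a1⁻¹ ∉ C := by
      by_contra h6
      rw [not_or, not_not] at h6
      rw [IsLocalRing.mem_maximalIdeal, mem_nonunits_iff] at m4
      apply m4
      rw [LocAlg_unit]
      have h7 : (((⟨c j1, hcC j1⟩ : C) - (⟨x j0, hx.mem j0⟩ * ⟨p j1, hp j1⟩ +
          ⟨x j1, hx.mem j1⟩ * ⟨r j1, hr j1⟩) : C) : K) = a1 := by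
        show c j1 - (x j0 * p j1 + x j1 * r j1) = a1
        rw [hval]
        ring
      rw [h7]
      exact h6
    rcases h5 with h5 | h5
    · exact ha10 h5
    · exact h5 ha1'
  obtain ⟨hc0, hc1⟩ := hcu
  have hupd : (fun j => KaehlerDifferential.D k K (Function.update x j1 t j)) =
      Function.update (fun j => KaehlerDifferential.D k K (x j)) j1
        (∑ l, c l • KaehlerDifferential.D k K (x l)) := by
    funext j
    by_cases hj : j = j1
    · subst hj
      rw [Function.update_self, Function.update_self, hDt]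
    · rw [Function.update_of_ne hj, Function.update_of_ne hj]
  refine ⟨?_, ?_, ?_, ?_, ?_, hx.dim, hx.le⟩
  · intro i
    by_cases hi : i = j1
    · subst hi
      rw [Function.update_self]
      exact ht
    · rw [Function.update_of_ne hi]
      exact hx.mem i
  · have h1 : jac b (Function.update x j1 t) = c j1 * jac b x := by
      unfold jac
      rw [hupd, AlternatingMap.map_update_sum, Finset.sum_eq_single j1]
      · rw [AlternatingMap.map_update_smul, Function.update_eq_self, smul_eq_mul]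
      · intro l _ hl
        rw [AlternatingMap.map_update_smul, AlternatingMap.map_update_self _ _ hl.symm, smul_zero]
      · intro h
        exact absurd (Finset.mem_univ _) h
    rw [h1]
    exact mul_ne_zero hc0 hx.ne
  · intro f hf
    obtain ⟨a, ha, ea⟩ := hx.span f hf
    obtain ⟨v, hv⟩ : ∃ v : K, v = a j1 * (c j1)⁻¹ := ⟨_, rfl⟩
    have hvC : v ∈ C := by
      rw [hv]
      exact C.mul_mem (ha j1) hc1
    have hvc : v * c j1 = a j1 := by
      rw [hv, mul_assoc, inv_mul_cancel₀ hc0, mul_one]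
    refine ⟨fun i => if i = j1 then v else a i - v * c i, fun i => ?_, ?_⟩
    · dsimp only
      split_ifs
      · exact hvC
      · exact C.sub_mem (ha i) (C.mul_mem hvC (hcC i))
    · have h1 : ∀ i, (if i = j1 then v else a i - v * c i) •
          KaehlerDifferential.D k K (Function.update x j1 t i) =
          (a i • KaehlerDifferential.D k K (x i) - (v * c i) • KaehlerDifferential.D k K (x i)) +
            (if i = j1 then v • KaehlerDifferential.D k K t else 0) := by
        intro i
        by_cases hi : i = j1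
        · subst hi
          rw [if_pos rfl, if_pos rfl, Function.update_self, hvc, sub_self, zero_add]
        · rw [if_neg hi, if_neg hi, Function.update_of_ne hi, sub_smul, add_zero]
      simp only [h1]
      rw [Finset.sum_add_distrib, Finset.sum_sub_distrib, ← ea, Finset.sum_ite_eq' Finset.univ j1,
        if_pos (Finset.mem_univ _), hDt, Finset.smul_sum]
      simp only [smul_smul]
      rw [sub_add_cancel]
  · intro i hi
    by_cases hij : i = j1
    · subst hij
      rw [Function.update_self]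
      exact ht'
    · rw [Function.update_of_ne hij]
      exact hx.nonunit i hi
  · intro f hf hf'
    obtain ⟨a, ha, ea⟩ := hx.gen f hf hf'
    rw [PC1_low hj0 hj1, Finset.sum_pair hj01] at ea
    refine ⟨fun i => if i = j0 then a j0 - a j1 * a1⁻¹ * a0 else a j1 * a1⁻¹, fun i => ?_, ?_⟩
    · dsimp only
      split_ifs
      · exact C.sub_mem (ha j0) (C.mul_mem (C.mul_mem (ha j1) ha1') ha0)
      · exact C.mul_mem (ha j1) ha1'
    · rw [PC1_low hj0 hj1, Finset.sum_pair hj01]
      dsimp only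
      rw [if_pos rfl, if_neg hj01.symm, Function.update_self, Function.update_of_ne hj01, e, ea]
      field_simp
      ring

/-- the properties of `w` from coordinates -/
theorem PC1_of_coord [CharZero k] [Algebra.EssFiniteType k K] {Z : Set (Subalgebra k K)}
    (hZ : IsCompleteNormal Z) {C E : Subalgebra k K} (hC : C ∈ Z)
    (hE : IsPrimeDiv E) (hd : Dom C E) (hlt : disc b Z E < ((2 : ℕ) : ℚ)) {x : Fin n → K}
    (hx : IsCoord b C 2 x) {j0 j1 : Fin n} (hj0 : (j0 : ℕ) = 0) (hj1 : (j1 : ℕ) = 1) {t : K}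
    (ht : x j1 = t) :
    ∃ w ∈ C, w ≠ 0 ∧ w⁻¹ ∉ C ∧
      (∀ a ∈ C, a⁻¹ ∉ C → ∃ a0 ∈ C, ∃ a1 ∈ C, a = a0 * t + a1 * w) ∧
      ∀ (N : ℕ) (a : ℕ → K), (∀ i, a i ∈ C) → (∃ i, i ≤ N ∧ a i ≠ 0 ∧ (a i)⁻¹ ∈ C) →
        (∑ i ∈ Finset.range (N + 1), a i * t ^ i * w ^ (N - i)) ≠ 0 ∧
          ord E (∑ i ∈ Finset.range (N + 1), a i * t ^ i * w ^ (N - i)) = N := by
  classical
  have hj01 : j0 ≠ j1 := by
    intro h
    rw [h, hj1] at hj0
    exact one_ne_zero hj0
  have hw : x j0 ≠ 0 := by
    intro h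
    apply hx.nonunit j0 (by omega)
    rw [h, inv_zero]
    exact C.zero_mem
  refine ⟨x j0, hx.mem j0, hw, hx.nonunit j0 (by omega), ?_, ?_⟩
  · intro f hf hf'
    obtain ⟨a, ha, ea⟩ := hx.gen f hf hf'
    rw [PC1_low hj0 hj1, Finset.sum_pair hj01, ht] at ea
    exact ⟨a j1, ha j1, a j0, ha j0, by rw [ea, add_comm]⟩
  · intro N a ha hu
    obtain ⟨G, hG⟩ : ∃ G : MvPolynomial (Fin n) K, G = ∑ i ∈ Finset.range (N + 1),
      MvPolynomial.C (a i) * MvPolynomial.X j1 ^ i := ⟨_, rfl⟩
    have hco : ∀ s, G.coeff s = ∑ i ∈ Finset.range (N + 1),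
        if Finsupp.single j1 i = s then a i else 0 := by
      intro s
      rw [hG, MvPolynomial.coeff_sum]
      refine Finset.sum_congr rfl fun i _ => ?_
      rw [MvPolynomial.coeff_C_mul, MvPolynomial.coeff_X_pow]
      split_ifs <;> simp
    obtain ⟨g1, g2⟩ := hx.unit_of_coeff b hZ hC hE hd hlt hj0 (by omega) G
      (by
        intro s
        rw [hco]
        refine Subalgebra.sum_mem _ fun i _ => ?_
        split_ifs
        · exact ha i
        · exact C.zero_mem)
      (by
        obtain ⟨i, hi, h0, h1⟩ := hu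
        refine ⟨Finsupp.single j1 i, ?_⟩
        have h2 : G.coeff (Finsupp.single j1 i) = a i := by
          rw [hco, Finset.sum_eq_single i]
          · rw [if_pos rfl]
          · intro l _ hl
            rw [if_neg]
            intro h
            exact hl (Finsupp.single_injective j1 h)
          · intro h
            exact absurd (Finset.mem_range.2 (by omega)) h
        rw [h2]
        exact ⟨h0, h1⟩)
      (by
        intro i hi
        have h1 : i = j1 := by
          by_contra hne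
          rw [MvPolynomial.mem_vars_iff_mem_support] at hi
          obtain ⟨s, hs, hsi⟩ := hi
          rw [MvPolynomial.mem_support_iff, hco] at hs
          obtain ⟨l, -, hl⟩ := Finset.exists_ne_zero_of_sum_ne_zero hs
          have h2 : Finsupp.single j1 l = s := by
            by_contra h3
            rw [if_neg h3] at hl
            exact hl rfl
          rw [← h2, Finsupp.mem_support_iff, Finsupp.single_apply] at hsi
          rw [if_neg (fun h => hne h.symm)] at hsi
          exact hsi rfl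
        rw [h1]
        exact ⟨hj01.symm, by omega⟩)
    have hbl : blow 2 x j0 j1 = t * (x j0)⁻¹ := by
      unfold blow
      rw [if_neg hj01.symm, if_pos (by omega), ht]
    have hev : MvPolynomial.aeval (blow 2 x j0) G =
        ∑ i ∈ Finset.range (N + 1), a i * (t * (x j0)⁻¹) ^ i := by
      rw [hG, map_sum]
      refine Finset.sum_congr rfl fun i _ => ?_
      rw [map_mul, map_pow, MvPolynomial.aeval_X, hbl, MvPolynomial.aeval_C]
      rfl
    have hsum : ∑ i ∈ Finset.range (N + 1), a i * t ^ i * x j0 ^ (N - i) =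
        x j0 ^ N * MvPolynomial.aeval (blow 2 x j0) G := by
      rw [hev, Finset.mul_sum]
      refine Finset.sum_congr rfl fun i hi => ?_
      have hi' : i ≤ N := by
        have := Finset.mem_range.1 hi
        omega
      have h1 : x j0 ^ N = x j0 ^ (N - i) * x j0 ^ i := by
        rw [← pow_add, Nat.sub_add_cancel hi']
      rw [h1, mul_pow, inv_pow]
      have h2 : x j0 ^ i ≠ 0 := pow_ne_zero _ hw
      field_simp
    rw [hsum]
    refine ⟨mul_ne_zero (pow_ne_zero _ hw) g1, ?_⟩
    have h3 : ord E (MvPolynomial.aeval (blow 2 x j0) G) = 0 := by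
      have h4 : MvPolynomial.aeval (blow 2 x j0) G ∈ E := by
        have h5 : ∀ i : Fin n, (i : ℕ) < 2 → ord E (x i) = 1 :=
          hx.ord_eq_one b hZ hC hE hd hlt
        rw [hev]
        refine Subalgebra.sum_mem _ fun i _ => E.mul_mem (hd.1 (ha i)) (E.pow_mem ?_ _)
        have ht0 : t ≠ 0 := by
          intro h
          apply hx.nonunit j1 (by omega)
          rw [ht, h, inv_zero]
          exact C.zero_mem
        rw [mem_iff hE.1 (mul_ne_zero ht0 (inv_ne_zero hw)), ord_mul hE.1 ht0 (inv_ne_zero hw),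
          ord_inv hE.1, h5 j0 (by omega), ← ht, h5 j1 (by omega)]
        norm_num
      exact (ord_eq_zero_iff hE.1 g1).2 ⟨h4, g2⟩
    rw [ord_mul hE.1 (pow_ne_zero _ hw) g1, h3, ord_pow hE.1 hw,
      hx.ord_eq_one b hZ hC hE hd hlt j0 (by omega)]
    ring

end

variable {k K : Type u} [Field k] [Field K] [Algebra k K] [CharZero k]
  [Algebra.EssFiniteType k K] {n : ℕ} (b : Module.Basis (Fin n) K Ω[K⁄k])
  {Z : Set (Subalgebra k K)}

/-- Let `y 0 ∈ C` be a nonunit which is part of a system of coordinates in the sense of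
`exists_spread`, and `E` the blow up of the smooth point `C` of dimension two.  Then there is `w`
with the following properties.

Proof: let `x` be coordinates at `C` (`exists_coord`), `y i0 = a0 x_0 + a1 x_1` (`hx.gen`).  By
`NC2_unit` `a0` or `a1` is a unit of `C`; let it be `a1` (`a0`: exchange the roles) and `w = x_0`.
Then `t = y i0` and `w` generate the maximal ideal.  `unit`: substitute
`x_1 = a1⁻¹ (t - a0 w)`, i.e. `t = a0 x_0 + a1 x_1`, in the form and get a form in `x_0, x_1`
of degree `N` whose coefficients are not all nonunits (the substitution is invertible over `C`);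
a form of degree `N` in `x_0, x_1` with a unit coefficient has order `N` along `E` by
`IsCoord.unit_of_coeff` (divide by `x_0 ^ N`) and `hx.ord_eq_one`.  Alternatively check that
`x` with `x_1` replaced by `t` are coordinates at `C`. -/
theorem exists_w (hZ : IsCompleteNormal Z) {C E : Subalgebra k K} (hC : C ∈ Z)
    (hs : Algebra.FormallySmooth k C) (h2 : ringKrullDim C = ((2 : ℕ) : WithBot ℕ∞))
    (hE : IsPrimeDiv E) (hd : Dom C E) (hlt : disc b Z E < 2) {y : Fin n → K}
    (hy : ∀ i, y i ∈ C) (hj : jac b y ≠ 0)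
    (hspan : ∀ f ∈ C, ∃ a : Fin n → K, (∀ i, a i ∈ C) ∧ KaehlerDifferential.D k K f =
      ∑ i, a i • KaehlerDifferential.D k K (y i)) {i0 : Fin n} (hi0 : (y i0)⁻¹ ∉ C) :
    ∃ w ∈ C, w ≠ 0 ∧ w⁻¹ ∉ C ∧
      (∀ a ∈ C, a⁻¹ ∉ C → ∃ a0 ∈ C, ∃ a1 ∈ C, a = a0 * y i0 + a1 * w) ∧
      ∀ (N : ℕ) (a : ℕ → K), (∀ i, a i ∈ C) → (∃ i, i ≤ N ∧ a i ≠ 0 ∧ (a i)⁻¹ ∈ C) →
        (∑ i ∈ Finset.range (N + 1), a i * y i0 ^ i * w ^ (N - i)) ≠ 0 ∧
          ord E (∑ i ∈ Finset.range (N + 1), a i * y i0 ^ i * w ^ (N - i)) = N := by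
  classical
  have iC : IsLocalRing C := hZ.isLocalRing hC
  obtain ⟨R, hR, hRK, hRC, -⟩ := hZ.exists_chart hC
  obtain ⟨d, x, hx⟩ := exists_coord b hR hRK hRC hs
  have hd2 : d = 2 := by
    have h1 := hx.dim.symm.trans h2
    exact_mod_cast h1
  subst hd2
  have hn : 2 ≤ n := hx.le
  have hlt' : disc b Z E < ((2 : ℕ) : ℚ) := by exact_mod_cast hlt
  obtain ⟨a, ha, e⟩ := hx.gen (y i0) (hy i0) hi0
  obtain ⟨j0, hj0⟩ : ∃ j0 : Fin n, (j0 : ℕ) = 0 := ⟨⟨0, by omega⟩, rfl⟩
  obtain ⟨j1, hj1⟩ : ∃ j1 : Fin n, (j1 : ℕ) = 1 := ⟨⟨1, by omega⟩, rfl⟩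
  have hj01 : j0 ≠ j1 := by
    intro h
    rw [h, hj1] at hj0
    exact one_ne_zero hj0
  rw [PC1_low hj0 hj1, Finset.sum_pair hj01] at e
  have hu := NC2_unit b hj hspan (ha j0) (ha j1) (hx.mem j0) (hx.mem j1)
    (hx.nonunit j0 (by omega)) (hx.nonunit j1 (by omega)) e
  rcases hu with hu | hu
  · have hx1 := PC1_swap b hx hj0 hj1
    have hx2 := PC1_update b iC hx1 hj0 hj1 (hy i0) hi0 (ha j1) (ha j0) hu.1 hu.2 (by
      simp only [Function.comp_apply, Equiv.swap_apply_left, Equiv.swap_apply_right]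
      rw [e, add_comm])
    exact PC1_of_coord b hZ hC hE hd hlt' hx2 hj0 hj1 (Function.update_self _ _ _)
  · have hx2 := PC1_update b iC hx hj0 hj1 (hy i0) hi0 (ha j0) (ha j1) hu.1 hu.2 e
    exact PC1_of_coord b hZ hC hE hd hlt' hx2 hj0 hj1 (Function.update_self _ _ _)

end Flip28
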