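import Pool.Agent.FlipP_h28.PB1

/-! # Killing poles -/

open scoped KaehlerDifferential

universe u

namespace Flip28

variable {k K : Type u} [Field k] [Field K] [Algebra k K] {Z : Set (Subalgebra k K)}

/-- Proof: let `R` be one of the finitely many charts with `R ≤ P`.  If `R ≤ Q` and `Q ∈ Z` is a
localization of `R` (as is `P`) choose `h ∈ R` with `h⁻¹ ∉ Q`, `h⁻¹ ∈ P`: it exists because
otherwise the prime ideal of `Q` in `R` is contained in the one of `P`, so `P ≤ Q` and `P = Q`.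
Otherwise choose `h = 1`: there is no point `C ≤ Q` in this chart.  (If `C` is a
localization of `R` and `C ≤ P`, `C ≤ Q` then `P` and `Q` are localizations of `R`:
`hZ.isLoc_of_le`, `IsLoc.trans`.) -/
theorem exists_kill (hZ : IsCompleteNormal Z) {P Q : Subalgebra k K} (hP : P ∈ Z)
    (hPd : IsDVR P) (hQ : Q ∈ Z) (hQd : IsDVR Q) (hne : Q ≠ P) :
    ∃ S : Finset K, (∀ h ∈ S, h ≠ 0 ∧ ord P h = 0) ∧
      ∀ C ∈ Z, C ≤ P → ∃ h ∈ S, h ∈ C ∧ (C ≤ Q → 1 ≤ ord Q h) := by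
  classical
  obtain ⟨𝒞, hfin, -, hmem⟩ := hZ.charts
  have key : ∀ R : Subalgebra k K, ∃ h : K, h ≠ 0 ∧ ord P h = 0 ∧ h ∈ R ∧
      ∀ C ∈ Z, IsLoc R C → C ≤ P → C ≤ Q → 1 ≤ ord Q h := by
    intro R
    by_cases hex : ∃ C ∈ Z, IsLoc R C ∧ C ≤ P ∧ C ≤ Q
    · obtain ⟨C, hC, hRC, hCP, hCQ⟩ := hex
      have hRP : IsLoc R P := hRC.trans (hZ.isLoc_of_le hC hP hCP)
      have hRQ : IsLoc R Q := hRC.trans (hZ.isLoc_of_le hC hQ hCQ)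
      have hex2 : ∃ h ∈ R, h ≠ 0 ∧ h⁻¹ ∈ P ∧ h⁻¹ ∉ Q := by
        by_contra hcon
        push Not at hcon
        apply hne
        refine hPd.eq_of_le ?_ hQd.ne_top
        intro x hx
        obtain ⟨r, hr, s, hs, hsP, e⟩ := hRP.2.2 x hx
        by_cases hs0 : s = 0
        · rw [e, hs0, inv_zero, mul_zero]
          exact Q.zero_mem
        · rw [e]
          exact Q.mul_mem (hRQ.1 hr) (hcon s hs hs0 hsP)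
      obtain ⟨h, hhR, hh0, hhP, hhQ⟩ := hex2
      refine ⟨h, hh0, (ord_eq_zero_iff hPd hh0).2 ⟨hRP.1 hhR, hhP⟩, hhR, ?_⟩
      intro _ _ _ _ _
      exact (ord_pos_iff hQd hh0).2 hhQ
    · refine ⟨1, one_ne_zero, ord_one hPd, R.one_mem, ?_⟩
      intro C hC hRC hCP hCQ
      exact absurd ⟨C, hC, hRC, hCP, hCQ⟩ hex
  choose h h0 hP0 hR hQ1 using key
  refine ⟨hfin.toFinset.image h, ?_, ?_⟩
  · intro f hf
    rw [Finset.mem_image] at hf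
    obtain ⟨R, -, rfl⟩ := hf
    exact ⟨h0 R, hP0 R⟩
  · intro C hC hCP
    obtain ⟨R, hRC, hl⟩ := (hmem C).1 hC
    refine ⟨h R, Finset.mem_image_of_mem h (hfin.mem_toFinset.2 hRC), hl.1 (hR R), ?_⟩
    intro hCQ
    exact hQ1 R C hC hl hCP hCQ

/-- Proof: choose `η Q` in `S Q` by `hS`; `f * ∏ (η Q) ^ (M Q)` has no poles on the `Q ≥ C`;
`hZ.mem_of_ord`. -/
theorem exists_mult (hZ : IsCompleteNormal Z) {P : Subalgebra k K} (hP : P ∈ Z)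
    (hPd : IsDVR P) {S : Subalgebra k K → Finset K}
    (hS0 : ∀ Q ∈ Z, IsDVR Q → Q ≠ P → ∀ h ∈ S Q, h ≠ 0 ∧ ord P h = 0)
    (hS : ∀ Q ∈ Z, IsDVR Q → Q ≠ P → ∀ C ∈ Z, C ≤ P → ∃ h ∈ S Q, h ∈ C ∧ (C ≤ Q → 1 ≤ ord Q h))
    {f : K} (hf : f ≠ 0) (h0 : ord P f = 0) {𝒬 : Finset (Subalgebra k K)}
    {M : Subalgebra k K → ℕ} (h𝒬 : ∀ Q ∈ 𝒬, Q ∈ Z ∧ IsDVR Q ∧ Q ≠ P)
    (hM : ∀ Q ∈ Z, IsDVR Q → ord Q f < 0 → Q ∈ 𝒬 ∧ -ord Q f ≤ M Q)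
    {C : Subalgebra k K} (hC : C ∈ Z) (hCP : C ≤ P) :
    ∃ η : Subalgebra k K → K, (∀ Q ∈ 𝒬, η Q ∈ S Q ∧ η Q ∈ C) ∧
      f * ∏ Q ∈ 𝒬, η Q ^ M Q ∈ C := by
  classical
  have key : ∀ Q : Subalgebra k K, ∃ h : K, Q ∈ 𝒬 → h ∈ S Q ∧ h ∈ C ∧ (C ≤ Q → 1 ≤ ord Q h) := by
    intro Q
    by_cases hQ : Q ∈ 𝒬
    · obtain ⟨h1, h2, h3⟩ := h𝒬 Q hQ
      obtain ⟨h, hh, hh', hh''⟩ := hS Q h1 h2 h3 C hC hCP
      exact ⟨h, fun _ => ⟨hh, hh', hh''⟩⟩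
    · exact ⟨0, fun h => absurd h hQ⟩
  choose η hη using key
  have hη0 : ∀ Q ∈ 𝒬, η Q ≠ 0 := fun Q hQ =>
    (hS0 Q (h𝒬 Q hQ).1 (h𝒬 Q hQ).2.1 (h𝒬 Q hQ).2.2 _ (hη Q hQ).1).1
  have hpow0 : ∀ Q ∈ 𝒬, η Q ^ M Q ≠ 0 := fun Q hQ => pow_ne_zero _ (hη0 Q hQ)
  have hprod0 : ∏ Q ∈ 𝒬, η Q ^ M Q ≠ 0 := Finset.prod_ne_zero_iff.2 hpow0
  refine ⟨η, fun Q hQ => ⟨(hη Q hQ).1, (hη Q hQ).2.1⟩, ?_⟩
  refine hZ.mem_of_ord hC (mul_ne_zero hf hprod0) ?_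
  intro P' hP' hd' hCP'
  have hterm : ∀ Q ∈ 𝒬, ord P' (η Q ^ M Q) = M Q * ord P' (η Q) := fun Q hQ =>
    ord_pow hd' (hη0 Q hQ) _
  have hnn : ∀ Q ∈ 𝒬, 0 ≤ (M Q : ℤ) * ord P' (η Q) := by
    intro Q hQ
    refine mul_nonneg (Int.natCast_nonneg _) ?_
    exact (mem_iff hd' (hη0 Q hQ)).1 (hCP' (hη Q hQ).2.1)
  rw [ord_mul hd' hf hprod0, ord_prod hd' _ _ hpow0, Finset.sum_congr rfl hterm]
  have hsum : 0 ≤ ∑ Q ∈ 𝒬, (M Q : ℤ) * ord P' (η Q) := Finset.sum_nonneg hnn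
  by_cases hneg : ord P' f < 0
  · obtain ⟨hm, hle⟩ := hM P' hP' hd' hneg
    have h1 : (M P' : ℤ) * ord P' (η P') ≤ ∑ Q ∈ 𝒬, (M Q : ℤ) * ord P' (η Q) :=
      Finset.single_le_sum hnn hm
    have h2 := (hη P' hm).2.2 hCP'
    have h3 : (M P' : ℤ) * 1 ≤ (M P' : ℤ) * ord P' (η P') :=
      mul_le_mul_of_nonneg_left h2 (Int.natCast_nonneg _)
    linarith
  · linarith

end Flip28
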