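import Pool.Agent.FlipP_h28.PC2
import Pool.Agent.FlipP_h28.PB3

/-! # Orders of residues at all places -/

open scoped KaehlerDifferential

universe u

namespace Flip28

variable {k K : Type u} [Field k] [Field K] [Algebra k K] {Z : Set (Subalgebra k K)}
  {P : Subalgebra k K} {F : Type u} [Field F] [Algebra k F] {π : P →ₐ[k] F}

/-- the sum of the absolute values of the orders at `v` of the residues of the elements of `S` -/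
noncomputable def lam (π : P →ₐ[k] F) (S : Finset K) (v : Subalgebra k F) : ℕ :=
  ∑ h ∈ S, (ord v (rs π h)).natAbs

/-- residue of a product of powers, and orders -/
theorem PC3_aux (hPd : IsDVR P) {v : Subalgebra k F} (hv : IsDVR v)
    {f : K} (hf : f ≠ 0) (h0 : ord P f = 0) (𝒬 : Finset (Subalgebra k K))
    (M : Subalgebra k K → ℕ) (η : Subalgebra k K → K)
    (hη : ∀ Q ∈ 𝒬, η Q ≠ 0 ∧ ord P (η Q) = 0) :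
    f * ∏ Q ∈ 𝒬, η Q ^ M Q ≠ 0 ∧ ord P (f * ∏ Q ∈ 𝒬, η Q ^ M Q) = 0 ∧
    ord v (rs π (f * ∏ Q ∈ 𝒬, η Q ^ M Q)) =
      ord v (rs π f) + ∑ Q ∈ 𝒬, (M Q : ℤ) * ord v (rs π (η Q)) := by
  have h1 : ∀ Q ∈ 𝒬, η Q ^ M Q ≠ 0 := fun Q hQ => pow_ne_zero _ (hη Q hQ).1
  have h2 : ∏ Q ∈ 𝒬, η Q ^ M Q ≠ 0 := Finset.prod_ne_zero_iff.2 h1
  have hfP : f ∈ P := ((ord_eq_zero_iff hPd hf).1 h0).1
  have hηP : ∀ Q ∈ 𝒬, η Q ∈ P := fun Q hQ => ((ord_eq_zero_iff hPd (hη Q hQ).1).1 (hη Q hQ).2).1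
  have hηP' : ∀ Q ∈ 𝒬, η Q ^ M Q ∈ P := fun Q hQ => P.pow_mem (hηP Q hQ) _
  have h3 : ∏ Q ∈ 𝒬, η Q ^ M Q ∈ P := P.prod_mem hηP'
  refine ⟨mul_ne_zero hf h2, ?_, ?_⟩
  · rw [ord_mul hPd hf h2, h0, ord_prod hPd _ _ h1, zero_add]
    refine Finset.sum_eq_zero fun Q hQ => ?_
    rw [ord_pow hPd (hη Q hQ).1, (hη Q hQ).2, mul_zero]
  · have h4 : ∀ Q ∈ 𝒬, rs π (η Q) ≠ 0 := fun Q hQ => rs_ne_zero hPd (hη Q hQ).1 (hη Q hQ).2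
    have h5 : ∀ Q ∈ 𝒬, rs π (η Q ^ M Q) ≠ 0 := fun Q hQ => by
      rw [rs_pow (hηP Q hQ)]
      exact pow_ne_zero _ (h4 Q hQ)
    rw [rs_mul hfP h3, rs_prod _ _ hηP', ord_mul hv (rs_ne_zero hPd hf h0)
      (Finset.prod_ne_zero_iff.2 h5), ord_prod hv _ _ h5]
    congr 1
    refine Finset.sum_congr rfl fun Q hQ => ?_
    rw [rs_pow (hηP Q hQ), ord_pow hv (h4 Q hQ)]

theorem PC3_lam {S : Finset K} {h : K} (hh : h ∈ S) (v : Subalgebra k F) :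
    ord v (rs π h) ≤ lam π S v := by
  have h1 : (ord v (rs π h)).natAbs ≤ lam π S v :=
    Finset.single_le_sum (f := fun h => (ord v (rs π h)).natAbs) (fun _ _ => Nat.zero_le _) hh
  omega

/-- Proof: let `C` be the centre of the composite valuation (`exists_centre_comp`), `η` as in
`exists_mult`; then `rs f * ∏ rs (η Q) ^ M Q ∈ img π C ≤ v`, so its order is `≥ 0`. -/
theorem ord_res_ge (hZ : IsCompleteNormal Z) (hπ : IsRes π) (hP : P ∈ Z) (hPd : IsDVR P)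
    {S : Subalgebra k K → Finset K}
    (hS0 : ∀ Q ∈ Z, IsDVR Q → Q ≠ P → ∀ h ∈ S Q, h ≠ 0 ∧ ord P h = 0)
    (hS : ∀ Q ∈ Z, IsDVR Q → Q ≠ P → ∀ C ∈ Z, C ≤ P → ∃ h ∈ S Q, h ∈ C ∧ (C ≤ Q → 1 ≤ ord Q h))
    {f : K} (hf : f ≠ 0) (h0 : ord P f = 0) {𝒬 : Finset (Subalgebra k K)}
    {M : Subalgebra k K → ℕ} (h𝒬 : ∀ Q ∈ 𝒬, Q ∈ Z ∧ IsDVR Q ∧ Q ≠ P)
    (hM : ∀ Q ∈ Z, IsDVR Q → ord Q f < 0 → Q ∈ 𝒬 ∧ -ord Q f ≤ M Q)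
    {v : Subalgebra k F} (hv : IsDVR v) :
    -(∑ Q ∈ 𝒬, (M Q : ℤ) * lam π (S Q) v) ≤ ord v (rs π f) := by
  classical
  obtain ⟨C, hC, -, hCP, hCv⟩ := exists_centre_comp hZ hπ hPd hv.isVal
  obtain ⟨η, hη, hmem⟩ := exists_mult hZ hP hPd hS0 hS hf h0 h𝒬 hM hC hCP
  have hη0 : ∀ Q ∈ 𝒬, η Q ≠ 0 ∧ ord P (η Q) = 0 := fun Q hQ =>
    hS0 Q (h𝒬 Q hQ).1 (h𝒬 Q hQ).2.1 (h𝒬 Q hQ).2.2 _ (hη Q hQ).1
  obtain ⟨h1, h2, h3⟩ := PC3_aux (π := π) hPd hv hf h0 𝒬 M η hη0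
  have h4 : rs π (f * ∏ Q ∈ 𝒬, η Q ^ M Q) ∈ v := hCv (mem_img.2 ⟨_, hmem, hCP hmem, rfl⟩)
  have h5 := (mem_iff hv (rs_ne_zero hPd h1 h2)).1 h4
  rw [h3] at h5
  have h6 : ∑ Q ∈ 𝒬, (M Q : ℤ) * ord v (rs π (η Q)) ≤ ∑ Q ∈ 𝒬, (M Q : ℤ) * lam π (S Q) v :=
    Finset.sum_le_sum fun Q hQ =>
      mul_le_mul_of_nonneg_left (PC3_lam (hη Q hQ).1 v) (Int.natCast_nonneg _)
  linarith

/-- Proof: the same at the point `C` itself: `f * ∏ (η Q) ^ M Q ∈ C` has order at least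
`ord E f` along `E` because `∏ (η Q) ^ M Q ∈ C ≤ E`; `GoodC.ord_le`. -/
theorem ord_res_ge_good (hZ : IsCompleteNormal Z) (hπ : IsRes π) (hP : P ∈ Z) (hPd : IsDVR P)
    {S : Subalgebra k K → Finset K}
    (hS0 : ∀ Q ∈ Z, IsDVR Q → Q ≠ P → ∀ h ∈ S Q, h ≠ 0 ∧ ord P h = 0)
    (hS : ∀ Q ∈ Z, IsDVR Q → Q ≠ P → ∀ C ∈ Z, C ≤ P → ∃ h ∈ S Q, h ∈ C ∧ (C ≤ Q → 1 ≤ ord Q h))
    {f : K} (hf : f ≠ 0) (h0 : ord P f = 0) {𝒬 : Finset (Subalgebra k K)}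
    {M : Subalgebra k K → ℕ} (h𝒬 : ∀ Q ∈ 𝒬, Q ∈ Z ∧ IsDVR Q ∧ Q ≠ P)
    (hM : ∀ Q ∈ Z, IsDVR Q → ord Q f < 0 → Q ∈ 𝒬 ∧ -ord Q f ≤ M Q)
    {C E : Subalgebra k K} {t w : K} (h : GoodC Z P C E t w) :
    ord E f - (∑ Q ∈ 𝒬, (M Q : ℤ) * lam π (S Q) (img π C)) ≤ ord (img π C) (rs π f) := by
  classical
  obtain ⟨η, hη, hmem⟩ := exists_mult hZ hP hPd hS0 hS hf h0 h𝒬 hM h.hC h.hCP
  have hη0 : ∀ Q ∈ 𝒬, η Q ≠ 0 ∧ ord P (η Q) = 0 := fun Q hQ =>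
    hS0 Q (h𝒬 Q hQ).1 (h𝒬 Q hQ).2.1 (h𝒬 Q hQ).2.2 _ (hη Q hQ).1
  have hv : IsDVR (img π C) := (h.isPrimeDiv hZ hπ hP hPd).1.1
  have hEd : IsDVR E := h.hE.1
  obtain ⟨h1, h2, h3⟩ := PC3_aux (π := π) hPd hv hf h0 𝒬 M η hη0
  have h4 := h.ord_le hZ hπ hP hPd hmem h1 h2
  rw [h3] at h4
  have h5 : ∀ Q ∈ 𝒬, η Q ^ M Q ≠ 0 := fun Q hQ => pow_ne_zero _ (hη0 Q hQ).1
  have h6 : ord E f ≤ ord E (f * ∏ Q ∈ 𝒬, η Q ^ M Q) := by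
    rw [ord_mul hEd hf (Finset.prod_ne_zero_iff.2 h5)]
    have h7 : ∏ Q ∈ 𝒬, η Q ^ M Q ∈ E :=
      E.prod_mem fun Q hQ => E.pow_mem (h.hCE.1 (hη Q hQ).2) _
    have h8 := (mem_iff hEd (Finset.prod_ne_zero_iff.2 h5)).1 h7
    linarith
  have h9 : ∑ Q ∈ 𝒬, (M Q : ℤ) * ord (img π C) (rs π (η Q)) ≤
      ∑ Q ∈ 𝒬, (M Q : ℤ) * lam π (S Q) (img π C) :=
    Finset.sum_le_sum fun Q hQ =>
      mul_le_mul_of_nonneg_left (PC3_lam (hη Q hQ).1 _) (Int.natCast_nonneg _)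
  linarith

end Flip28
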