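import Pool.Agent.FlipP_h28.PC3
import Pool.Agent.FlipP_h28.PA3
import Pool.Agent.FlipP_h28.PA2

/-! # The degree inequality on a prime divisor -/

open scoped KaehlerDifferential

universe u

namespace Flip28

variable {k K : Type u} [Field k] [Field K] [Algebra k K] {Z : Set (Subalgebra k K)}
  {P : Subalgebra k K} {F : Type u} [Field F] [Algebra k F] {π : P →ₐ[k] F}

/-- Proof: choose `S Q` by `exists_kill` (for the `Q ∈ Z`, `IsDVR Q`, `Q ≠ P`) and put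
`B Q = ∑ᶠ v ∈ Gd s, lam π (S Q) v * resDeg v (range s)`, a finite sum by `prod_formula`.
Apply `prod_formula` to `rs π f ≠ 0`; estimate `ord v (rs π f)` by `ord_res_ge` and, for the
places `v = img π C`, `C ∈ 𝒞` (different for different `C`: `img_injective`), by
`ord_res_ge_good`, and use `1 ≤ resDeg v (range s)` (`resDeg_pos`), `0 ≤ e`. -/
theorem degree_bound [CharZero k] [Algebra.EssFiniteType k F] (hZ : IsCompleteNormal Z)
    (hπ : IsRes π) (hP : P ∈ Z) (hPd : IsDVR P) {d : ℕ}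
    (hF : Algebra.trdeg k F = (d + 1 : ℕ)) (s : Fin d → F) :
    ∃ B : Subalgebra k K → ℕ, ∀ f : K, f ≠ 0 → ord P f = 0 →
      ∀ (𝒬 : Finset (Subalgebra k K)) (M : Subalgebra k K → ℕ),
        (∀ Q ∈ 𝒬, Q ∈ Z ∧ IsDVR Q ∧ Q ≠ P) →
        (∀ Q ∈ Z, IsDVR Q → ord Q f < 0 → Q ∈ 𝒬 ∧ -ord Q f ≤ M Q) →
        ∀ (𝒞 : Finset (Subalgebra k K)) (e : ℤ), 0 ≤ e →
          (∀ C ∈ 𝒞, ∃ E t w, GoodC Z P C E t w ∧ img π C ∈ Gd (k := k) s ∧ e ≤ ord E f) →
          (𝒞.card : ℤ) * e ≤ ∑ Q ∈ 𝒬, (M Q : ℤ) * B Q := by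
  classical
  have hS : ∀ Q : Subalgebra k K, ∃ S : Finset K, Q ∈ Z → IsDVR Q → Q ≠ P →
      (∀ h ∈ S, h ≠ 0 ∧ ord P h = 0) ∧
      ∀ C ∈ Z, C ≤ P → ∃ h ∈ S, h ∈ C ∧ (C ≤ Q → 1 ≤ ord Q h) := by
    intro Q
    by_cases h : Q ∈ Z ∧ IsDVR Q ∧ Q ≠ P
    · obtain ⟨S, hS⟩ := exists_kill hZ hP hPd h.1 h.2.1 h.2.2
      exact ⟨S, fun _ _ _ => hS⟩
    · exact ⟨∅, fun h1 h2 h3 => (h ⟨h1, h2, h3⟩).elim⟩
  choose S hS using hS
  have hS0 : ∀ Q ∈ Z, IsDVR Q → Q ≠ P → ∀ h ∈ S Q, h ≠ 0 ∧ ord P h = 0 :=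
    fun Q h1 h2 h3 => (hS Q h1 h2 h3).1
  have hS1 : ∀ Q ∈ Z, IsDVR Q → Q ≠ P → ∀ C ∈ Z, C ≤ P →
      ∃ h ∈ S Q, h ∈ C ∧ (C ≤ Q → 1 ≤ ord Q h) :=
    fun Q h1 h2 h3 => (hS Q h1 h2 h3).2
  have hfin : ∀ Q ∈ Z, IsDVR Q → Q ≠ P →
      {v | v ∈ Gd (k := k) s ∧ lam π (S Q) v ≠ 0}.Finite := by
    intro Q h1 h2 h3
    have hsub : {v | v ∈ Gd (k := k) s ∧ lam π (S Q) v ≠ 0} ⊆
        ⋃ h ∈ S Q, {v | v ∈ Gd (k := k) s ∧ ord v (rs π h) ≠ 0} := by
      rintro v ⟨hv, hl⟩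
      have : ∃ h ∈ S Q, (ord v (rs π h)).natAbs ≠ 0 := by
        by_contra hc
        push Not at hc
        exact hl (Finset.sum_eq_zero hc)
      obtain ⟨h, hh, hne⟩ := this
      rw [Set.mem_iUnion₂]
      exact ⟨h, hh, hv, fun h0 => hne (by rw [h0]; rfl)⟩
    refine Set.Finite.subset ?_ hsub
    refine Set.Finite.biUnion (Finset.finite_toSet (S Q)) ?_
    intro h hh
    obtain ⟨hh0, hh1⟩ := hS0 Q h1 h2 h3 h hh
    exact (prod_formula hF s (rs_ne_zero hPd hh0 hh1)).1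
  refine ⟨fun Q => ∑ᶠ v ∈ Gd (k := k) s, lam π (S Q) v * resDeg v (Set.range s), ?_⟩
  intro f hf hf0 𝒬 M h𝒬 hM 𝒞 e he h𝒞
  obtain ⟨hfin0, hsum0⟩ := prod_formula hF s (rs_ne_zero (π := π) hPd hf hf0)
  -- the finite set of places
  have hfinW : ({v | v ∈ Gd (k := k) s ∧ ord v (rs π f) ≠ 0} ∪
      (⋃ Q ∈ 𝒬, {v | v ∈ Gd (k := k) s ∧ lam π (S Q) v ≠ 0}) ∪
      ((𝒞.image (img π) : Finset (Subalgebra k F)) : Set (Subalgebra k F))).Finite := by
    refine (hfin0.union ?_).union (Finset.finite_toSet _)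
    refine Set.Finite.biUnion (Finset.finite_toSet 𝒬) ?_
    intro Q hQ
    obtain ⟨h1, h2, h3⟩ := h𝒬 Q hQ
    exact hfin Q h1 h2 h3
  set W : Finset (Subalgebra k F) := hfinW.toFinset with hW
  have hWmem : ∀ v, v ∈ W ↔ (v ∈ {v | v ∈ Gd (k := k) s ∧ ord v (rs π f) ≠ 0} ∪
      (⋃ Q ∈ 𝒬, {v | v ∈ Gd (k := k) s ∧ lam π (S Q) v ≠ 0}) ∪
      ((𝒞.image (img π) : Finset (Subalgebra k F)) : Set (Subalgebra k F))) := fun v => by
    rw [hW, Set.Finite.mem_toFinset]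
  have hWG : (W : Set (Subalgebra k F)) ⊆ Gd (k := k) s := by
    intro v hv
    rw [Finset.mem_coe, hWmem] at hv
    rcases hv with (hv | hv) | hv
    · exact hv.1
    · rw [Set.mem_iUnion₂] at hv
      obtain ⟨Q, _, hv⟩ := hv
      exact hv.1
    · rw [Finset.mem_coe, Finset.mem_image] at hv
      obtain ⟨C, hC, rfl⟩ := hv
      obtain ⟨E, t, w, _, h2, _⟩ := h𝒞 C hC
      exact h2
  have hsub1 : (Finset.image (img π) 𝒞) ⊆ W := by
    intro v hv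
    rw [hWmem]
    exact Or.inr hv
  -- the product formula as a sum over W
  have hs0 : ∑ v ∈ W, (ord v (rs π f) : ℚ) * resDeg v (Set.range s) = 0 := by
    rw [← hsum0]
    symm
    apply finsum_mem_eq_sum_of_subset
    · rintro v ⟨hv, hne⟩
      rw [Finset.mem_coe, hWmem]
      refine Or.inl (Or.inl ⟨hv, fun h0 => hne ?_⟩)
      simp only [h0, Int.cast_zero, zero_mul]
    · exact hWG
  have hsB : ∀ Q ∈ 𝒬, ∑ᶠ v ∈ Gd (k := k) s, lam π (S Q) v * resDeg v (Set.range s) =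
      ∑ v ∈ W, lam π (S Q) v * resDeg v (Set.range s) := by
    intro Q hQ
    apply finsum_mem_eq_sum_of_subset
    · rintro v ⟨hv, hne⟩
      rw [Finset.mem_coe, hWmem]
      refine Or.inl (Or.inr ?_)
      rw [Set.mem_iUnion₂]
      refine ⟨Q, hQ, hv, fun h0 => hne ?_⟩
      show lam π (S Q) v * resDeg v (Set.range s) = 0
      rw [h0, zero_mul]
    · exact hWG
  -- the integral form
  have hs1 : ∑ v ∈ W, ord v (rs π f) * (resDeg v (Set.range s) : ℤ) = 0 := by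
    have : ((∑ v ∈ W, ord v (rs π f) * (resDeg v (Set.range s) : ℤ) : ℤ) : ℚ) = 0 := by
      push_cast
      exact hs0
    exact_mod_cast this
  have hlow : ∀ v ∈ W, ((if v ∈ Finset.image (img π) 𝒞 then e else 0) -
      (∑ Q ∈ 𝒬, (M Q : ℤ) * lam π (S Q) v)) * (resDeg v (Set.range s) : ℤ) ≤
      ord v (rs π f) * (resDeg v (Set.range s) : ℤ) := by
    intro v hv
    refine mul_le_mul_of_nonneg_right ?_ (Int.natCast_nonneg _)
    by_cases hvC : v ∈ Finset.image (img π) 𝒞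
    · rw [if_pos hvC]
      rw [Finset.mem_image] at hvC
      obtain ⟨C, hC, rfl⟩ := hvC
      obtain ⟨E, t, w, h1, _, h3⟩ := h𝒞 C hC
      have := ord_res_ge_good hZ hπ hP hPd hS0 hS1 hf hf0 h𝒬 hM h1
      linarith
    · rw [if_neg hvC, zero_sub]
      have hvd : IsDVR v := (hWG (Finset.mem_coe.2 hv)).1.1
      exact ord_res_ge hZ hπ hP hPd hS0 hS1 hf hf0 h𝒬 hM hvd
  have hsumle := Finset.sum_le_sum hlow
  rw [hs1] at hsumle
  have hcard : (𝒞.card : ℤ) * e ≤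
      ∑ v ∈ W, (if v ∈ Finset.image (img π) 𝒞 then e else 0) * (resDeg v (Set.range s) : ℤ) := by
    have hci : (Finset.image (img π) 𝒞).card = 𝒞.card := by
      apply Finset.card_image_of_injOn
      intro C hC C' hC' hCC
      obtain ⟨E, t, w, h1, h2, _⟩ := h𝒞 C hC
      obtain ⟨E', t', w', h1', _, _⟩ := h𝒞 C' hC'
      exact img_injective hZ hπ hPd h1.hC h1.hCP h1'.hC h1'.hCP h2.1.1 hCC
    rw [← hci]
    have : ∑ v ∈ W, (if v ∈ Finset.image (img π) 𝒞 then e else 0) *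
        (resDeg v (Set.range s) : ℤ) =
        ∑ v ∈ Finset.image (img π) 𝒞, e * (resDeg v (Set.range s) : ℤ) := by
      rw [← Finset.sum_subset hsub1]
      · refine Finset.sum_congr rfl fun v hv => ?_
        rw [if_pos hv]
      · intro v _ hv
        rw [if_neg hv, zero_mul]
    rw [this]
    calc ((Finset.image (img π) 𝒞).card : ℤ) * e = ∑ v ∈ Finset.image (img π) 𝒞, e := by
          rw [Finset.sum_const, nsmul_eq_mul]
      _ ≤ _ := by
          refine Finset.sum_le_sum fun v hv => ?_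
          have h1 : 1 ≤ resDeg v (Set.range s) :=
            resDeg_pos hF s (hWG (Finset.mem_coe.2 (hsub1 hv)))
          have h2 : (1 : ℤ) ≤ (resDeg v (Set.range s) : ℤ) := by exact_mod_cast h1
          nlinarith
  have hexp : ∑ v ∈ W, ((if v ∈ Finset.image (img π) 𝒞 then e else 0) -
      (∑ Q ∈ 𝒬, (M Q : ℤ) * lam π (S Q) v)) * (resDeg v (Set.range s) : ℤ) =
      ∑ v ∈ W, (if v ∈ Finset.image (img π) 𝒞 then e else 0) * (resDeg v (Set.range s) : ℤ) -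
      ∑ Q ∈ 𝒬, (M Q : ℤ) * ((∑ᶠ v ∈ Gd (k := k) s,
        lam π (S Q) v * resDeg v (Set.range s) : ℕ) : ℤ) := by
    have h1 : ∀ v ∈ W, ((if v ∈ Finset.image (img π) 𝒞 then e else 0) -
      (∑ Q ∈ 𝒬, (M Q : ℤ) * lam π (S Q) v)) * (resDeg v (Set.range s) : ℤ) =
      (if v ∈ Finset.image (img π) 𝒞 then e else 0) * (resDeg v (Set.range s) : ℤ) -
      ∑ Q ∈ 𝒬, (M Q : ℤ) * (lam π (S Q) v * resDeg v (Set.range s) : ℕ) := by
      intro v _
      rw [sub_mul, Finset.sum_mul]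
      congr 1
      refine Finset.sum_congr rfl fun Q _ => ?_
      push_cast
      ring
    rw [Finset.sum_congr rfl h1, Finset.sum_sub_distrib]
    congr 1
    rw [Finset.sum_comm]
    refine Finset.sum_congr rfl fun Q hQ => ?_
    rw [hsB Q hQ, ← Finset.mul_sum]
    push_cast
    rfl
  rw [hexp] at hsumle
  linarith

end Flip28
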