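import Pool.Agent.FlipP_h28.PDef

/-! # Almost all points of codimension one are good -/

open scoped KaehlerDifferential

universe u

namespace Flip28

variable {k K : Type u} [Field k] [Field K] [Algebra k K] [CharZero k]
  [Algebra.EssFiniteType k K] {n : ℕ} (b : Module.Basis (Fin n) K Ω[K⁄k])
  {Z : Set (Subalgebra k K)}

theorem PC5_opn (Z : Set (Subalgebra k K)) (f : K) : Opn Z {A | f ∈ A} := by
  intro R hR hK hRX A hA hfA
  obtain ⟨r, hr, s, hs, hsA, e⟩ := hA.2.2 f hfA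
  by_cases hs0 : s = 0
  · refine ⟨1, R.one_mem, one_ne_zero, by rw [inv_one]; exact A.one_mem, fun B hB _ => ?_⟩
    show f ∈ B
    rw [e, hs0, inv_zero, mul_zero]
    exact B.zero_mem
  · refine ⟨s, hs, hs0, hsA, fun B hB hsB => ?_⟩
    show f ∈ B
    rw [e]
    exact B.mul_mem (hB.1 hr) hsB

theorem PC5_one {x : WithBot ℕ∞} (h : (0 : WithBot ℕ∞) < x) : ((1 : ℕ) : WithBot ℕ∞) ≤ x := by
  induction x using WithBot.recBotCoe with
  | bot => exact absurd h not_lt_bot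
  | coe y =>
    have h1 : (0 : ℕ∞) < y := by exact_mod_cast h
    have h2 : (0 : ℕ∞) + 1 ≤ y := Order.add_one_le_of_lt h1
    have h3 : ((1 : ℕ) : ℕ∞) ≤ y := by simpa using h2
    exact WithBot.coe_le_coe.2 h3

/-- only finitely many discrete valuation rings of a model do not contain a given element -/
theorem PC5_fin {Z : Set (Subalgebra k K)} (hZ : IsCompleteNormal Z) (f : K) :
    {Q | Q ∈ Z ∧ IsDVR Q ∧ f ∉ Q}.Finite := by
  refine (finite_of_opn hZ (PC5_opn Z f) (e := 1) fun A hA hAU => ?_).subset ?_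
  · have h1 : f ∉ A := hAU
    have h2 : A ≠ ⊤ := by
      rintro rfl
      exact h1 Algebra.mem_top
    have h3 := dim_lt_of_le_ne hZ hA hZ.top_mem le_top h2
    have h4 : (0 : WithBot ℕ∞) ≤ ringKrullDim (⊤ : Subalgebra k K) := ringKrullDim_nonneg_of_nontrivial
    have h5 : (0 : WithBot ℕ∞) < ringKrullDim A := lt_of_le_of_lt h4 h3
    exact PC5_one h5
  · rintro Q ⟨h1, h2, h3⟩
    refine ⟨h1, h3, ?_⟩
    rw [(hZ.isDVR_iff h1).1 h2]
    rfl

/-- A nonzero function has only finitely many zeros and poles.  Proof: for each chart `R` the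
points `Q` with `ord Q f ≠ 0` are the minimal primes of the closed sets `f ∉ A`, `f⁻¹ ∉ A`;
`finite_of_opn` with `e = 1` for the open sets `{A | f ∈ A}`, `{A | f⁻¹ ∈ A}` (see the proof of
`finite_not_mem`); the points outside have dimension at least one since `f, f⁻¹ ∈ ⊤`. -/
theorem finite_ord_ne {Z : Set (Subalgebra k K)} (hZ : IsCompleteNormal Z) {f : K}
    (hf : f ≠ 0) : {Q | Q ∈ Z ∧ IsDVR Q ∧ ord Q f ≠ 0}.Finite := by
  refine ((PC5_fin hZ f).union (PC5_fin hZ f⁻¹)).subset ?_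
  rintro Q ⟨h1, h2, h3⟩
  by_cases h4 : f ∈ Q
  · refine Or.inr ⟨h1, h2, fun h5 => h3 ?_⟩
    exact (ord_eq_zero_iff h2 hf).2 ⟨h4, h5⟩
  · exact Or.inl ⟨h1, h2, h4⟩

/-- Two different prime divisors have only finitely many common points of codimension one.
Proof: `f ∈ P`, `f ∉ Q` exists (`IsDVR.eq_of_le`), then `f ∉ C` for `C ≤ Q`; `finite_not_mem`. -/
theorem finite_common {Z : Set (Subalgebra k K)} (hZ : IsCompleteNormal Z)
    {P Q : Subalgebra k K} (hP : P ∈ Z) (hPd : IsDVR P) (hQd : IsDVR Q) (hne : P ≠ Q) :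
    {C | C ∈ Z ∧ C ≤ P ∧ ringKrullDim C = ((2 : ℕ) : WithBot ℕ∞) ∧ C ≤ Q}.Finite := by
  obtain ⟨f, hfP, hfQ⟩ : ∃ f ∈ P, f ∉ Q := by
    by_contra hcon
    push Not at hcon
    exact hne (hPd.eq_of_le hcon hQd.ne_top).symm
  refine (finite_not_mem hZ hP hPd hfP).subset ?_
  rintro C ⟨h1, h2, h3, h4⟩
  exact ⟨h1, h2, h3, fun h => hfQ (h4 h)⟩

end Flip28
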