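import Pool.Agent.FlipP_h28.PC1
import Pool.Agent.FlipP_h28.PC5

/-! # Almost all points of codimension one are good -/

open scoped KaehlerDifferential

universe u

namespace Flip28

variable {k K : Type u} [Field k] [Field K] [Algebra k K] [CharZero k]
  [Algebra.EssFiniteType k K] {n : ℕ} (b : Module.Basis (Fin n) K Ω[K⁄k])
  {Z : Set (Subalgebra k K)}

/-- If `w` is a nonunit of `C` and `t`, `w` generate the nonunits of `C`, `t` a nonunit of `P`,
then `w⁻¹ ∈ P`: otherwise `P` dominates `C`. -/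
theorem PC6_wP {Z : Set (Subalgebra k K)} (hZ : IsCompleteNormal Z)
    {P C : Subalgebra k K} (hP : P ∈ Z) (hPd : IsDVR P) (hC : C ∈ Z) (hCP : C ≤ P)
    (h2 : ringKrullDim C = ((2 : ℕ) : WithBot ℕ∞)) {t w : K} (ht0 : t ≠ 0) (ht : t⁻¹ ∉ P)
    (htP : t ∈ P) (hw0 : w ≠ 0) (hwC : w ∈ C)
    (hgen : ∀ a ∈ C, a⁻¹ ∉ C → ∃ a0 ∈ C, ∃ a1 ∈ C, a = a0 * t + a1 * w) : w⁻¹ ∈ P := by
  by_contra hw
  have hwP : w ∈ P := hCP hwC
  have hot : 0 < ord P t := (ord_pos_iff hPd ht0).2 ht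
  have how : 0 < ord P w := (ord_pos_iff hPd hw0).2 hw
  have hdom : Dom C P := by
    refine ⟨hCP, fun x hx hxi => ?_⟩
    by_contra hxC
    obtain ⟨a0, ha0, a1, ha1, e⟩ := hgen x hx hxC
    have hx0 : x ≠ 0 := by
      rintro rfl
      apply hxC
      rw [inv_zero]
      exact C.zero_mem
    have hox : ord P x = 0 := (ord_eq_zero_iff hPd hx0).2 ⟨hCP hx, hxi⟩
    -- the sum has positive order
    have hpos : 0 < ord P x := by
      by_cases h0 : a0 = 0
      · have ha10 : a1 ≠ 0 := by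
          rintro rfl
          apply hx0
          rw [e, h0]
          ring
        rw [e, h0, zero_mul, zero_add, ord_mul hPd ha10 hw0]
        have := (mem_iff hPd ha10).1 (hCP ha1)
        omega
      by_cases h1 : a1 = 0
      · rw [e, h1, zero_mul, add_zero, ord_mul hPd h0 ht0]
        have := (mem_iff hPd h0).1 (hCP ha0)
        omega
      have hA : 0 < ord P (a0 * t) := by
        rw [ord_mul hPd h0 ht0]
        have := (mem_iff hPd h0).1 (hCP ha0)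
        omega
      have hB : 0 < ord P (a1 * w) := by
        rw [ord_mul hPd h1 hw0]
        have := (mem_iff hPd h1).1 (hCP ha1)
        omega
      have hne : a0 * t + a1 * w ≠ 0 := by
        rw [← e]
        exact hx0
      have := ord_add hPd (mul_ne_zero h0 ht0) (mul_ne_zero h1 hw0) hne
      rw [e]
      exact lt_of_lt_of_le (lt_min hA hB) this
    omega
  have hCeq : C = P := hZ.unique hC hP (hZ.isLocalRing hP) hdom (Dom.refl P)
  have h1 := (hZ.isDVR_iff hP).1 hPd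
  rw [← hCeq, h2] at h1
  have h3 : ((2 : ℕ) : WithBot ℕ∞) = ((1 : ℕ) : WithBot ℕ∞) := by
    rw [h1, Nat.cast_one]
  have h4 : (2 : ℕ) = 1 := by exact_mod_cast h3
  omega

/-- Proof: `y`, `T` as in `exists_spread`, `t = y 0` (`NC3_unif`), `j = jac y`.  Exclude the
finitely many `C` with some `f ∈ T`, `f ∉ C` (`finite_not_mem`), and the `C ≤ Q` for the finitely
many `Q ≠ P` with `ord Q t ≠ 0` (`finite_ord_ne`, `finite_common`).  For the other `C`: see the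
proof of `finite_nongeneric` for `kord b 1 E j = 1`, `ord E t = 1`; `exists_w` gives the rest.
`w⁻¹ ∈ P`: otherwise `w` and `t` are nonunits of `P`, so all nonunits of `C` are nonunits of `P`,
`Dom C P`, `C = P` by uniqueness of centres, contrary to the dimensions. -/
theorem finite_not_good (hZ : IsCompleteNormal Z) (hs : ∀ A ∈ Z, Algebra.FormallySmooth k A)
    {P : Subalgebra k K} (hP : P ∈ Z) (hPd : IsDVR P) :
    ∃ j t : K, j ≠ 0 ∧ kord b 1 P j = 0 ∧ t ≠ 0 ∧ ord P t = 1 ∧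
      {C | C ∈ Z ∧ C ≤ P ∧ ringKrullDim C = ((2 : ℕ) : WithBot ℕ∞) ∧
        ¬ ∀ E, IsPrimeDiv E → Dom C E → disc b Z E < 2 →
          (∃ w, GoodC Z P C E t w) ∧ kord b 1 E j = 1}.Finite := by
  obtain ⟨y, T, hy, hT, hTP, hsp⟩ := exists_spread b hZ hP hPd (hs P hP)
  have hn : 0 < n := lt_of_lt_of_le one_pos hy.le
  obtain ⟨i0, hi0⟩ : ∃ i0 : Fin n, (i0 : ℕ) = 0 := ⟨⟨0, hn⟩, rfl⟩
  obtain ⟨ht0, ht1⟩ := NC3_unif b hPd hy hi0
  have hti : (y i0)⁻¹ ∉ P := hy.nonunit i0 (by omega)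
  have hj : jac b y ≠ 0 := hy.ne
  have hkj : kord b 1 P (jac b y) = 0 := (hy.isGen b hZ hP).2 P hP hPd le_rfl
  refine ⟨jac b y, y i0, hj, hkj, ht0, ht1, ?_⟩
  have hQfin := finite_ord_ne hZ ht0
  have hfin1 : (⋃ f ∈ T, {C | C ∈ Z ∧ C ≤ P ∧
      ringKrullDim C = ((2 : ℕ) : WithBot ℕ∞) ∧ f ∉ C}).Finite :=
    Set.Finite.biUnion hT fun f hf => finite_not_mem hZ hP hPd (hTP f hf)
  have hfin2 : (⋃ Q ∈ ({Q | Q ∈ Z ∧ IsDVR Q ∧ ord Q (y i0) ≠ 0} \ {P} : Set (Subalgebra k K)),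
      {C | C ∈ Z ∧ C ≤ P ∧ ringKrullDim C = ((2 : ℕ) : WithBot ℕ∞) ∧ C ≤ Q}).Finite :=
    Set.Finite.biUnion hQfin.diff fun Q hQ =>
      finite_common hZ hP hPd hQ.1.2.1 fun h => hQ.2 h.symm
  refine (hfin1.union hfin2).subset ?_
  rintro C ⟨hC, hCP, hC2, hne⟩
  by_contra hcon
  have hin : ∀ f ∈ T, f ∈ C := by
    intro f hf
    by_contra hfC
    exact hcon (Or.inl (Set.mem_iUnion₂.2 ⟨f, hf, hC, hCP, hC2, hfC⟩))
  have hQ : ∀ Q ∈ Z, IsDVR Q → C ≤ Q → Q ≠ P → ord Q (y i0) = 0 := by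
    intro Q hQ hQd hCQ hQP
    by_contra h0
    exact hcon (Or.inr (Set.mem_iUnion₂.2 ⟨Q, ⟨⟨hQ, hQd, h0⟩, hQP⟩, hC, hCP, hC2, hCQ⟩))
  apply hne
  intro E hE hd hlt
  have hEd : IsDVR E := hE.1
  obtain ⟨hyC, hspan⟩ := hsp C hC hCP hin
  have htC : (y i0)⁻¹ ∉ C := fun h1 => hti (hCP h1)
  have hgen : IsGen b Z 1 C (jac b y) := by
    refine ⟨hj, fun Q hQ hQd hCQ => ?_⟩
    have hloc := hZ.isLoc_of_le hC hQ hCQ
    have hsp2 := coeff_of_isLoc hloc (C : Set K) (Algebra.adjoin_eq C).symm y (fun r hr => by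
      obtain ⟨a, ha, e⟩ := hspan r hr
      exact ⟨a, fun i => hCQ (ha i), e⟩)
    have h1 := cord_eq_of_span b (hZ.isPrimeDiv hQ hQd) (fun i => hCQ (hyC i)) hj hsp2
    unfold kord
    rw [h1]
    ring
  have hd1 : disc b Z E = 1 := disc_lt_two b hZ hC (hs C hC) hE hd (by exact_mod_cast hC2) hlt
  have hk1 : kord b 1 E (jac b y) = 1 := by
    have h1 := kord_eq_of_isGen b hZ hC (hs C hC) hE hd hgen
    rw [hd1] at h1
    have h2 : ((kord b 1 E (jac b y) : ℤ) : ℚ) = ((1 : ℤ) : ℚ) := by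
      rw [h1]
      norm_num
    exact_mod_cast h2
  have ht : ord E (y i0) = 1 := ord_coord_eq_one b hZ hC (hs C hC) hC2 hE hd hlt hyC hj hspan htC
  obtain ⟨w, hwC, hw0, hwi, hg, hu⟩ := exists_w b hZ hC (hs C hC) hC2 hE hd hlt hyC hj hspan htC
  refine ⟨⟨w, ?_⟩, hk1⟩
  exact
    { hC := hC
      hCP := hCP
      hE := hE
      hCE := hd
      tC := hyC i0
      wC := hwC
      t0 := ht0
      tP := ht1
      tE := ht
      tQ := hQ
      w0 := hw0
      wP := PC6_wP hZ hP hPd hC hCP hC2 ht0 hti (hCP (hyC i0)) hw0 hwC hg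
      wC' := hwi
      gen := hg
      unit := hu }

end Flip28
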