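import Pool.Agent.FlipP_h28.PC4
import Pool.Agent.FlipP_h28.PC5

/-! # The degree inequality for pluricanonical forms -/

open scoped KaehlerDifferential

universe u

namespace Flip28

variable {k K : Type u} [Field k] [Field K] [Algebra k K] {n : ℕ}
  (b : Module.Basis (Fin n) K Ω[K⁄k]) {Z : Set (Subalgebra k K)}
  {P : Subalgebra k K} {F : Type u} [Field F] [Algebra k F] {π : P →ₐ[k] F}

/-- Proof: apply `degree_bound` to `f = g * j ^ (-m) * t ^ (-kord m P g)`: `ord P f = 0` by `hj`,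
`ht`; for `Q ∈ Z`: `ord Q f = kord m Q g - m * kord 1 Q j - kord m P g * ord Q t`, so the poles
are bounded by `M Q + m |kord 1 Q j| + |kord m P g| |ord Q t|`; the `Q` with `kord 1 Q j ≠ 0` or
`ord Q t ≠ 0` are finitely many (hypothesis `hfin`, `finite_ord_ne`); add them to `𝒬`.
`ord E f = kord m E g - m - kord m P g` for the `E` in question. -/
theorem form_bound [CharZero k] [Algebra.EssFiniteType k K] [Algebra.EssFiniteType k F]
    (hZ : IsCompleteNormal Z)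
    (hπ : IsRes π) (hP : P ∈ Z) (hPd : IsDVR P) {d : ℕ}
    (hF : Algebra.trdeg k F = (d + 1 : ℕ)) (s : Fin d → F) {j t : K} (hj0 : j ≠ 0)
    (hj : kord b 1 P j = 0) (ht0 : t ≠ 0) (ht : ord P t = 1)
    (hfin : {Q | Q ∈ Z ∧ IsDVR Q ∧ kord b 1 Q j ≠ 0}.Finite) :
    ∃ (B : Subalgebra k K → ℕ) (B0 : ℕ), ∀ m : ℤ, 0 < m → ∀ g : K, g ≠ 0 →
      ∀ (𝒬 : Finset (Subalgebra k K)) (M : Subalgebra k K → ℕ),
        (∀ Q ∈ 𝒬, Q ∈ Z ∧ IsDVR Q ∧ Q ≠ P) →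
        (∀ Q ∈ Z, IsDVR Q → Q ≠ P → kord b m Q g < 0 → Q ∈ 𝒬 ∧ -kord b m Q g ≤ M Q) →
        ∀ (𝒞 : Finset (Subalgebra k K)) (e : ℤ), 0 ≤ e →
          (∀ C ∈ 𝒞, ∃ E w, GoodC Z P C E t w ∧ kord b 1 E j = 1 ∧ img π C ∈ Gd (k := k) s ∧
            e + m + kord b m P g ≤ kord b m E g) →
          (𝒞.card : ℤ) * e ≤ (m + |kord b m P g|) * B0 + ∑ Q ∈ 𝒬, (M Q : ℤ) * B Q := by
  classical
  obtain ⟨B, hB⟩ := degree_bound hZ hπ hP hPd hF s
  have hfin2 := finite_ord_ne hZ ht0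
  have hfin3 : (({Q | Q ∈ Z ∧ IsDVR Q ∧ kord b 1 Q j ≠ 0} ∪ {Q | Q ∈ Z ∧ IsDVR Q ∧ ord Q t ≠ 0}) \
      {P} : Set (Subalgebra k K)).Finite := (hfin.union hfin2).sdiff
  obtain ⟨Q0, hQ0⟩ : ∃ Q0 : Finset (Subalgebra k K), ∀ Q, Q ∈ Q0 ↔
      ((Q ∈ Z ∧ IsDVR Q ∧ kord b 1 Q j ≠ 0) ∨ (Q ∈ Z ∧ IsDVR Q ∧ ord Q t ≠ 0)) ∧ Q ≠ P := by
    refine ⟨hfin3.toFinset, fun Q => ?_⟩
    rw [Set.Finite.mem_toFinset]
    rfl
  obtain ⟨B0, hB0⟩ : ∃ B0 : ℕ, (B0 : ℤ) = ∑ Q ∈ Q0, (|kord b 1 Q j| + |ord Q t|) * B Q := by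
    refine ⟨∑ Q ∈ Q0, ((kord b 1 Q j).natAbs + (ord Q t).natAbs) * B Q, ?_⟩
    push_cast
    rfl
  refine ⟨B, B0, ?_⟩
  intro m hm g hg 𝒬 M h𝒬 hM 𝒞 e he h𝒞
  obtain ⟨p, hp⟩ : ∃ p : ℤ, p = kord b m P g := ⟨_, rfl⟩
  rw [← hp] at h𝒞 ⊢
  obtain ⟨f, hf⟩ : ∃ f : K, f = g * j ^ (-m) * t ^ (-p) := ⟨_, rfl⟩
  have hjm : j ^ (-m) ≠ 0 := zpow_ne_zero _ hj0
  have htp : t ^ (-p) ≠ 0 := zpow_ne_zero _ ht0
  have hf0 : f ≠ 0 := by
    rw [hf]
    exact mul_ne_zero (mul_ne_zero hg hjm) htp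
  have hof : ∀ Q : Subalgebra k K, IsDVR Q →
      ord Q f = kord b m Q g - m * kord b 1 Q j - p * ord Q t := by
    intro Q hQd
    rw [hf, ord_mul hQd (mul_ne_zero hg hjm) htp, ord_mul hQd hg hjm, ord_zpow hQd hj0,
      ord_zpow hQd ht0]
    unfold kord
    ring
  have hoP : ord P f = 0 := by
    rw [hof P hPd, ← hp, hj, ht]
    ring
  obtain ⟨M', hM'⟩ : ∃ M' : Subalgebra k K → ℕ, ∀ Q, (M' Q : ℤ) =
      (if Q ∈ 𝒬 then (M Q : ℤ) else 0) + (m * |kord b 1 Q j| + |p| * |ord Q t|) := by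
    refine ⟨fun Q => (if Q ∈ 𝒬 then M Q else 0) +
      (m.natAbs * (kord b 1 Q j).natAbs + p.natAbs * (ord Q t).natAbs), fun Q => ?_⟩
    push_cast
    rw [abs_of_pos hm]
  have hmain := hB f hf0 hoP (𝒬 ∪ Q0) M' ?_ ?_ 𝒞 e he ?_
  · refine hmain.trans ?_
    have h1 : ∑ Q ∈ 𝒬 ∪ Q0, (M' Q : ℤ) * B Q =
        ∑ Q ∈ 𝒬 ∪ Q0, (if Q ∈ 𝒬 then (M Q : ℤ) else 0) * B Q +
          ∑ Q ∈ 𝒬 ∪ Q0, (m * |kord b 1 Q j| + |p| * |ord Q t|) * B Q := by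
      rw [← Finset.sum_add_distrib]
      refine Finset.sum_congr rfl fun Q _ => ?_
      rw [hM', add_mul]
    have h2 : ∑ Q ∈ 𝒬 ∪ Q0, (if Q ∈ 𝒬 then (M Q : ℤ) else 0) * B Q =
        ∑ Q ∈ 𝒬, (M Q : ℤ) * B Q := by
      symm
      rw [← Finset.sum_subset (Finset.subset_union_left (s₁ := 𝒬) (s₂ := Q0))]
      · refine Finset.sum_congr rfl fun Q hQ => ?_
        rw [if_pos hQ]
      · intro Q _ hQ
        rw [if_neg hQ, zero_mul]
    have h3 : ∑ Q ∈ 𝒬 ∪ Q0, (m * |kord b 1 Q j| + |p| * |ord Q t|) * (B Q : ℤ) =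
        ∑ Q ∈ Q0, (m * |kord b 1 Q j| + |p| * |ord Q t|) * (B Q : ℤ) := by
      symm
      refine Finset.sum_subset Finset.subset_union_right ?_
      intro Q hQ hQn
      have hQ𝒬 : Q ∈ 𝒬 := (Finset.mem_union.1 hQ).resolve_right hQn
      obtain ⟨hQZ, hQd, hQP⟩ := h𝒬 Q hQ𝒬
      have hk0 : kord b 1 Q j = 0 := by
        by_contra h
        exact hQn ((hQ0 Q).2 ⟨Or.inl ⟨hQZ, hQd, h⟩, hQP⟩)
      have ho0 : ord Q t = 0 := by
        by_contra h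
        exact hQn ((hQ0 Q).2 ⟨Or.inr ⟨hQZ, hQd, h⟩, hQP⟩)
      rw [hk0, ho0]
      simp
    have h4 : ∑ Q ∈ Q0, (m * |kord b 1 Q j| + |p| * |ord Q t|) * (B Q : ℤ) ≤
        (m + |p|) * B0 := by
      rw [hB0, Finset.mul_sum]
      refine Finset.sum_le_sum fun Q _ => ?_
      rw [← mul_assoc]
      refine mul_le_mul_of_nonneg_right ?_ (Int.natCast_nonneg _)
      have e1 := abs_nonneg (kord b 1 Q j)
      have e2 := abs_nonneg (ord Q t)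
      have e3 := abs_nonneg p
      have e4 : 0 ≤ |p| * |kord b 1 Q j| := mul_nonneg e3 e1
      have e5 : 0 ≤ m * |ord Q t| := mul_nonneg hm.le e2
      have e6 : (m + |p|) * (|kord b 1 Q j| + |ord Q t|) =
          m * |kord b 1 Q j| + |p| * |ord Q t| + (|p| * |kord b 1 Q j| + m * |ord Q t|) := by
        ring
      rw [e6]
      linarith
    rw [h1, h2, h3]
    linarith
  · intro Q hQ
    rcases Finset.mem_union.1 hQ with h | h
    · exact h𝒬 Q h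
    · obtain ⟨h1, h2⟩ := (hQ0 Q).1 h
      rcases h1 with h1 | h1
      · exact ⟨h1.1, h1.2.1, h2⟩
      · exact ⟨h1.1, h1.2.1, h2⟩
  · intro Q hQ hQd hneg
    have hQP : Q ≠ P := by
      rintro rfl
      omega
    have hfQ := hof Q hQd
    refine ⟨?_, ?_⟩
    · by_contra hn
      have hn1 : Q ∉ 𝒬 := fun h => hn (Finset.mem_union_left _ h)
      have hn2 : Q ∉ Q0 := fun h => hn (Finset.mem_union_right _ h)
      have hk0 : kord b 1 Q j = 0 := by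
        by_contra h
        exact hn2 ((hQ0 Q).2 ⟨Or.inl ⟨hQ, hQd, h⟩, hQP⟩)
      have ho0 : ord Q t = 0 := by
        by_contra h
        exact hn2 ((hQ0 Q).2 ⟨Or.inr ⟨hQ, hQd, h⟩, hQP⟩)
      rw [hk0, ho0] at hfQ
      have hk : kord b m Q g < 0 := by
        have : ord Q f = kord b m Q g := by
          rw [hfQ]
          ring
        omega
      exact hn1 (hM Q hQ hQd hQP hk).1
    · rw [hM']
      have e1 : m * kord b 1 Q j ≤ m * |kord b 1 Q j| :=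
        mul_le_mul_of_nonneg_left (le_abs_self _) hm.le
      have e2 : p * ord Q t ≤ |p| * |ord Q t| := by
        rw [← abs_mul]
        exact le_abs_self _
      have e3 : -kord b m Q g ≤ (if Q ∈ 𝒬 then (M Q : ℤ) else 0) := by
        by_cases hk : kord b m Q g < 0
        · obtain ⟨h1, h2⟩ := hM Q hQ hQd hQP hk
          rw [if_pos h1]
          exact h2
        · have h0 : (0 : ℤ) ≤ (if Q ∈ 𝒬 then (M Q : ℤ) else 0) := by
            split_ifs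
            · exact Int.natCast_nonneg _
            · exact le_rfl
          omega
      rw [hfQ]
      linarith
  · intro C hC
    obtain ⟨E, w, hG, hk1, himg, hle⟩ := h𝒞 C hC
    refine ⟨E, t, w, hG, himg, ?_⟩
    rw [hof E hG.hE.1, hk1, hG.tE]
    linarith

end Flip28
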