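import Pool.Agent.FlipP_h28.PC5

/-! # Zeros and poles of forms -/

open scoped KaehlerDifferential

universe u

namespace Flip28

variable {k K : Type u} [Field k] [Field K] [Algebra k K] {n : ℕ}
  (b : Module.Basis (Fin n) K Ω[K⁄k]) {Z : Set (Subalgebra k K)}

/-- there are functions whose differentials form a basis -/
theorem PD2_exists : ∃ y : Fin n → K, jac b y ≠ 0 := by
  classical
  have hspan : Submodule.span K (Set.range (fun x : K => KaehlerDifferential.D k K x)) = ⊤ :=
    KaehlerDifferential.span_range_derivation k K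
  obtain ⟨κ, a, -, hspan', hli⟩ := exists_linearIndependent' K
    (fun x : K => KaehlerDifferential.D k K x)
  have hb : Module.Basis κ K Ω[K⁄k] := Module.Basis.mk hli (by
    rw [hspan', hspan])
  have e : κ ≃ Fin n := hb.indexEquiv b
  have hv1 : LinearIndependent K (fun i => KaehlerDifferential.D k K ((a ∘ e.symm) i)) :=
    hli.comp _ e.symm.injective
  refine ⟨a ∘ e.symm, ?_⟩
  unfold jac
  have h3 := (Module.Basis.is_basis_iff_det b
    (v := fun i => KaehlerDifferential.D k K ((a ∘ e.symm) i))).1 ⟨hv1, by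
      have hfin : FiniteDimensional K Ω[K⁄k] := Module.Basis.finiteDimensional_of_finite b
      refine hv1.span_eq_top_of_card_eq_finrank' ?_
      rw [Module.finrank_eq_card_basis b]⟩
  exact h3.ne_zero

/-- The rational form `j ω` has only finitely many zeros and poles.  Proof: let `R` be a chart,
`A = ⊤` the generic point; there are coordinates at `⊤` which are coordinates on an open set
(`exists_spread` is for prime divisors; take any `y` with `jac y ≠ 0`, whose differentials form a
basis, and the finitely many coefficients of `dr = ∑ a i • dy_i` for generators `r` of the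
charts).  Outside the finitely many `Q` with `f ∉ Q` for one of these functions (or with
`R` not contained in `Q`: use only the charts `R ≤ Q`), `cord Q = - ord Q (jac y)`
(`cord_eq_of_span`, `coeff_of_isLoc`), so `kord 1 Q j = ord Q (j / jac y)`; `finite_ord_ne`. -/
theorem finite_kord_ne [CharZero k] [Algebra.EssFiniteType k K] (hZ : IsCompleteNormal Z)
    {j : K} (hj : j ≠ 0) : {Q | Q ∈ Z ∧ IsDVR Q ∧ kord b 1 Q j ≠ 0}.Finite := by
  classical
  obtain ⟨y, hy⟩ := PD2_exists b
  obtain ⟨𝒞, hfin, hfg, hmem⟩ := hZ.charts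
  have hG : ∀ R : Subalgebra k K, ∃ G : Finset K, R ∈ 𝒞 → Algebra.adjoin k (G : Set K) = R := by
    intro R
    by_cases h : R ∈ 𝒞
    · obtain ⟨G, hG⟩ := (hfg R h).1
      exact ⟨G, fun _ => hG⟩
    · exact ⟨∅, fun h' => absurd h' h⟩
  choose G hG using hG
  choose a ha using fun r : K => (exists_coeff b hy r).exists
  obtain ⟨T, hT⟩ : ∃ T : Set K, T = (⋃ R ∈ 𝒞, ⋃ r ∈ (G R : Set K), Set.range (a r)) ∪
      Set.range y ∪ {jac b y, j} := ⟨_, rfl⟩
  have hTfin : T.Finite := by
    rw [hT]
    refine (Set.Finite.union ?_ (Set.finite_range y)).union ?_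
    · refine hfin.biUnion fun R _ => ?_
      exact (G R).finite_toSet.biUnion fun r _ => Set.finite_range (a r)
    · exact (Set.finite_singleton j).insert _
  have hbad : (⋃ f ∈ T, {Q | Q ∈ Z ∧ IsDVR Q ∧ f ≠ 0 ∧ ord Q f ≠ 0}).Finite := by
    refine hTfin.biUnion fun f _ => ?_
    by_cases hf : f = 0
    · refine Set.finite_empty.subset ?_
      rintro Q ⟨-, -, h, -⟩
      exact absurd hf h
    · refine (finite_ord_ne hZ hf).subset ?_
      rintro Q ⟨h1, h2, -, h3⟩
      exact ⟨h1, h2, h3⟩
  refine hbad.subset ?_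
  rintro Q ⟨hQ, hQd, hk⟩
  by_contra hcon
  have hTQ : ∀ f ∈ T, f ≠ 0 → ord Q f = 0 := by
    intro f hf hf0
    by_contra h
    apply hcon
    simp only [Set.mem_iUnion]
    exact ⟨f, hf, hQ, hQd, hf0, h⟩
  have hTQ' : ∀ f ∈ T, f ∈ Q := by
    intro f hf
    by_cases h0 : f = 0
    · rw [h0]
      exact Q.zero_mem
    · exact (mem_iff hQd h0).2 (by rw [hTQ f hf h0])
  obtain ⟨R, hR, hRQ⟩ := (hmem Q).1 hQ
  have haT : ∀ r ∈ (G R : Set K), ∀ i, a r i ∈ T := by
    intro r hr i
    rw [hT]
    refine Or.inl (Or.inl ?_)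
    simp only [Set.mem_iUnion]
    exact ⟨R, hR, r, hr, i, rfl⟩
  have hyT : ∀ i, y i ∈ T := by
    intro i
    rw [hT]
    exact Or.inl (Or.inr ⟨i, rfl⟩)
  have hjT : jac b y ∈ T := by
    rw [hT]
    exact Or.inr (Or.inl rfl)
  have hj'T : j ∈ T := by
    rw [hT]
    exact Or.inr (Or.inr rfl)
  have hspan := coeff_of_isLoc hRQ (G R : Set K) (hG R hR).symm y
    (fun r hr => ⟨a r, fun i => hTQ' _ (haT r hr i), ha r⟩)
  have hcord := cord_eq_of_span b (hZ.isPrimeDiv hQ hQd) (fun i => hTQ' _ (hyT i)) hy hspan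
  apply hk
  unfold kord
  rw [hcord, hTQ _ hj'T hj, hTQ _ hjT hy]
  norm_num

end Flip28
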