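import Pool.Agent.FlipN_h28.NE5
import Pool.Agent.Flip_h28.DegF

/-! # Residue maps, good points of codimension one of a prime divisor -/

open scoped KaehlerDifferential

universe u

namespace Flip28

section

variable {k F : Type*} [Field k] [Field F] [Algebra k F]

/-- the prime divisors of `F/k` for which the residues of the `s i` are algebraically independent
over `k`; if the transcendence degree of `F` is `d + 1` these are the places of the function field
`F` of one variable over `k(s)` -/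
def Gd {d : ℕ} (s : Fin d → F) : Set (Subalgebra k F) := {v | IsPrimeDiv v ∧ ResIndep v s}

end

variable {k K : Type u} [Field k] [Field K] [Algebra k K]

/-- `π` is the residue map of `P` -/
structure IsRes {P : Subalgebra k K} {F : Type u} [Field F] [Algebra k F] (π : P →ₐ[k] F) :
    Prop where
  surj : Function.Surjective π
  ker : ∀ a : P, (a : K)⁻¹ ∉ P → π a = 0

open Classical in
/-- the residue of `f`; zero if `f ∉ P` -/
noncomputable def rs {P : Subalgebra k K} {F : Type u} [Field F] [Algebra k F] (π : P →ₐ[k] F)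
    (f : K) : F := if h : f ∈ P then π ⟨f, h⟩ else 0

/-- the image of the local ring `C` in the residue field of `P` -/
def img {P : Subalgebra k K} {F : Type u} [Field F] [Algebra k F] (π : P →ₐ[k] F)
    (C : Subalgebra k K) : Subalgebra k F := (C.comap P.val).map π

/-- `C` is a regular point of codimension one of the prime divisor `P`, `E` its blow up; `t` and
`w` generate the maximal ideal of `C`, `t` is an equation of `P`. -/
structure GoodC (Z : Set (Subalgebra k K)) (P C E : Subalgebra k K) (t w : K) : Prop where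
  hC : C ∈ Z
  hCP : C ≤ P
  hE : IsPrimeDiv E
  hCE : Dom C E
  tC : t ∈ C
  wC : w ∈ C
  t0 : t ≠ 0
  tP : ord P t = 1
  tE : ord E t = 1
  tQ : ∀ Q ∈ Z, IsDVR Q → C ≤ Q → Q ≠ P → ord Q t = 0
  w0 : w ≠ 0
  wP : w⁻¹ ∈ P
  wC' : w⁻¹ ∉ C
  gen : ∀ a ∈ C, a⁻¹ ∉ C → ∃ a0 ∈ C, ∃ a1 ∈ C, a = a0 * t + a1 * w
  unit : ∀ (N : ℕ) (a : ℕ → K), (∀ i, a i ∈ C) → (∃ i, i ≤ N ∧ a i ≠ 0 ∧ (a i)⁻¹ ∈ C) →
    (∑ i ∈ Finset.range (N + 1), a i * t ^ i * w ^ (N - i)) ≠ 0 ∧
      ord E (∑ i ∈ Finset.range (N + 1), a i * t ^ i * w ^ (N - i)) = N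

section

variable {n : ℕ} (b : Module.Basis (Fin n) K Ω[K⁄k])

/-- The class of `K_X + η D` is pseudoeffective for all `η > 0`, and the orders along `V` of the
sections are bounded by `κ m` (i.e. `a(V, X) + σ_V(K_X) ≤ κ` if `D` is ample). -/
def App (X : Set (Subalgebra k K)) (V : Subalgebra k K) (κ : ℚ) : Prop :=
  ∃ D : Subalgebra k K → ℕ, {Q | Q ∈ X ∧ IsDVR Q ∧ D Q ≠ 0}.Finite ∧
    ∀ η : ℚ, 0 < η → ∃ D' : Subalgebra k K → ℕ, {Q | Q ∈ X ∧ IsDVR Q ∧ D' Q ≠ 0}.Finite ∧
      ∀ δ : ℚ, 0 < δ → ∃ m : ℤ, 0 < m ∧ ∃ g : K, g ≠ 0 ∧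
        (∀ Q ∈ X, IsDVR Q → -(η * m * D Q + δ * m * D' Q) ≤ (kord b m Q g : ℚ)) ∧
        (kord b m V g : ℚ) ≤ κ * m

end

end Flip28
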