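import Pool.Agent.FlipP_h28.PB2

/-! # Choice of the functions `s` -/

open scoped KaehlerDifferential

universe u

namespace Flip28

variable {k K : Type u} [Field k] [Field K] [Algebra k K] {Z : Set (Subalgebra k K)}
  {P : Subalgebra k K} {F : Type u} [Field F] [Algebra k F] {π : P →ₐ[k] F}

/-- the residues of the generators contain a transcendence basis of the residue field -/
theorem PE1_basis {R C : Subalgebra k K} {G : Finset K}
    (hG : Algebra.adjoin k (G : Set K) = R) (h : IsLoc R C) (d : ℕ)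
    (hd : haveI := h.2.1
      Algebra.trdeg k (IsLocalRing.ResidueField C) = (d : ℕ)) :
    ∃ σ : Fin d → K, (∀ i, σ i ∈ G) ∧ ResIndep C σ := by
  haveI : IsLocalRing C := h.2.1
  let T : Set (IsLocalRing.ResidueField C) :=
    {x | ∃ g ∈ G, ∃ hg : g ∈ C, IsLocalRing.residue C ⟨g, hg⟩ = x}
  let W : Subalgebra k K :=
    { carrier := {x | ∃ hx : x ∈ C, IsLocalRing.residue C ⟨x, hx⟩ ∈ Algebra.adjoin k T}
      mul_mem' := by
        rintro a b ⟨ha, ha'⟩ ⟨hb, hb'⟩
        exact ⟨C.mul_mem ha hb, by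
          have := (Algebra.adjoin k T).mul_mem ha' hb'
          rw [← map_mul] at this
          exact this⟩
      add_mem' := by
        rintro a b ⟨ha, ha'⟩ ⟨hb, hb'⟩
        exact ⟨C.add_mem ha hb, by
          have := (Algebra.adjoin k T).add_mem ha' hb'
          rw [← map_add] at this
          exact this⟩
      algebraMap_mem' := fun c => ⟨C.algebraMap_mem c, (Algebra.adjoin k T).algebraMap_mem c⟩ }
  have hGC : ∀ g ∈ G, g ∈ C := by
    intro g hg
    apply h.1
    rw [← hG]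
    exact Algebra.subset_adjoin hg
  have hRW : R ≤ W := by
    rw [← hG]
    apply Algebra.adjoin_le
    intro g hg
    exact ⟨hGC g hg, Algebra.subset_adjoin ⟨g, hg, hGC g hg, rfl⟩⟩
  have halg : Algebra.IsAlgebraic (Algebra.adjoin k T) (IsLocalRing.ResidueField C) := by
    constructor
    intro z
    obtain ⟨⟨x, hx⟩, rfl⟩ := IsLocalRing.residue_surjective z
    obtain ⟨r, hr, s, hs, hsC, e⟩ := h.2.2 x hx
    obtain ⟨hrC, hrL⟩ := hRW hr
    obtain ⟨hsC', hsL⟩ := hRW hs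
    have h3 : (⟨x, hx⟩ : C) = ⟨r, hrC⟩ * ⟨s⁻¹, hsC⟩ := Subtype.ext e
    rw [h3, map_mul]
    refine IsAlgebraic.mul (isAlgebraic_algebraMap (⟨_, hrL⟩ : Algebra.adjoin k T)) ?_
    by_cases hs0 : s = 0
    · have h4 : (⟨s⁻¹, hsC⟩ : C) = 0 := by
        apply Subtype.ext
        change s⁻¹ = 0
        rw [hs0, inv_zero]
      rw [h4, map_zero]
      exact isAlgebraic_zero
    · have h4 : IsLocalRing.residue C ⟨s, hsC'⟩ * IsLocalRing.residue C ⟨s⁻¹, hsC⟩ = 1 := by
        rw [← map_mul, ← map_one (IsLocalRing.residue C)]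
        congr 1
        apply Subtype.ext
        exact mul_inv_cancel₀ hs0
      rw [← inv_eq_of_mul_eq_one_right h4]
      exact IsAlgebraic.inv (isAlgebraic_algebraMap (⟨_, hsL⟩ : Algebra.adjoin k T))
  obtain ⟨t, htT, ht⟩ := exists_isTranscendenceBasis_subset (R := k) T
  have hc := ht.cardinalMk_eq_trdeg
  rw [hd] at hc
  obtain ⟨hf, hcard⟩ := Cardinal.mk_eq_nat_iff_fintype.1 hc
  let ε : Fin d ≃ t := (Fintype.equivFinOfCardEq hcard).symm
  have hlift : ∀ i : Fin d, ∃ g ∈ G, ∃ hg : g ∈ C,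
      IsLocalRing.residue C ⟨g, hg⟩ = (ε i : IsLocalRing.ResidueField C) :=
    fun i => htT (ε i).2
  choose σ hσG hσC hσ using hlift
  refine ⟨σ, hσG, hσC, fun Q hQ => ?_⟩
  have hind : AlgebraicIndependent k
      (fun i => IsLocalRing.residue C (⟨σ i, hσC i⟩ : C)) := by
    have h5 : (fun i => IsLocalRing.residue C (⟨σ i, hσC i⟩ : C)) =
        (fun x : t => (x : IsLocalRing.ResidueField C)) ∘ ε := by
      funext i
      exact hσ i
    rw [h5]
    exact ht.1.comp ε ε.injective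
  let φ : C →ₐ[k] IsLocalRing.ResidueField C := IsScalarTower.toAlgHom k C _
  have h3 : φ (MvPolynomial.aeval (fun i => (⟨σ i, hσC i⟩ : C)) Q) ≠ 0 := by
    intro h0
    rw [MvPolynomial.comp_aeval_apply] at h0
    exact hQ (algebraicIndependent_iff.1 hind Q h0)
  have h4 : (MvPolynomial.aeval (fun i => (⟨σ i, hσC i⟩ : C)) Q : C) =
      MvPolynomial.aeval σ Q := by
    change C.val _ = _
    rw [MvPolynomial.comp_aeval_apply]
    rfl
  have h5 : IsUnit (MvPolynomial.aeval (fun i => (⟨σ i, hσC i⟩ : C)) Q) := by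
    by_contra hu
    exact h3 ((IsLocalRing.residue_eq_zero_iff _).2 ((IsLocalRing.mem_maximalIdeal _).2 hu))
  rw [LocAlg_unit, h4] at h5
  exact h5

theorem PE1_img {C : Subalgebra k K} (hCP : C ≤ P) {d : ℕ} {σ : Fin d → K}
    (h : ResIndep C σ) : ResIndep (img π C) (fun i => rs π (σ i)) := by
  refine ⟨fun i => mem_img.2 ⟨σ i, h.1 i, hCP (h.1 i), rfl⟩, fun Q hQ => ?_⟩
  obtain ⟨h1, h2⟩ := h.2 Q hQ
  obtain ⟨h3, h4⟩ := DegE_aeval π (r := σ) (s := fun i => rs π (σ i))
    (fun i => ⟨hCP (h.1 i), (PB0_rs (hCP (h.1 i))).symm⟩) Q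
  obtain ⟨h5, h6⟩ := DegE_inv_mul π h3 (hCP h2) h1
  rw [← h4]
  refine ⟨h5, ?_⟩
  rw [← h6]
  exact mem_img.2 ⟨_, h2, hCP h2, PB0_rs (hCP h2)⟩

/-- `F` is the residue field of `P` -/
theorem PE1_trdeg [IsLocalRing P] (hπ : IsRes π) :
    Algebra.trdeg k (IsLocalRing.ResidueField P) = Algebra.trdeg k F := by
  have hloc : IsLocalHom (π : P →+* F) := by
    refine ⟨fun a ha => ?_⟩
    have h1 : π a ≠ 0 := ha.ne_zero
    rw [LocAlg_unit]
    obtain ⟨h2, h3, -⟩ := DegE_inv hπ.ker a.2 h1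
    exact ⟨h2, h3⟩
  let f : IsLocalRing.ResidueField P →ₐ[k] F :=
    { IsLocalRing.ResidueField.lift (π : P →+* F) with
      commutes' := fun c => by
        change IsLocalRing.ResidueField.lift (π : P →+* F)
          (IsLocalRing.residue P (algebraMap k P c)) = _
        rw [IsLocalRing.ResidueField.lift_residue_apply]
        exact π.commutes c }
  have hf : ∀ a : P, f (IsLocalRing.residue P a) = π a := fun a =>
    IsLocalRing.ResidueField.lift_residue_apply (π : P →+* F) a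
  have hs : Function.Surjective f := by
    intro x
    obtain ⟨a, rfl⟩ := hπ.surj x
    exact ⟨_, hf a⟩
  exact (AlgEquiv.ofBijective f ⟨f.toRingHom.injective, hs⟩).trdeg_eq

/-- Proof: there are finitely many charts `R`, each generated by a finite set `G`; if
`C ∈ 𝒞` is a localization of `R`, its residue field is generated by the residues of `G`, and has
transcendence degree `d` over `k` (`dim_formula` for `C`, which has dimension two, and
for `P`); it is also the residue field of `img π C`.  So there is an injective map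
`σ : Fin d → G` such that the residues of the `σ i` are algebraically independent, i.e.
`ResIndep (img π C) (fun i => rs π (σ i))`.  There are only finitely many pairs `(R, σ)`, so one
of them occurs for infinitely many `C ∈ 𝒞`. -/
theorem exists_indep [CharZero k] [Algebra.EssFiniteType k K] (hZ : IsCompleteNormal Z)
    (hπ : IsRes π) (hP : P ∈ Z) (hPd : IsDVR P) {d : ℕ}
    (hF : Algebra.trdeg k F = (d + 1 : ℕ)) {𝒞 : Set (Subalgebra k K)} (hinf : 𝒞.Infinite)
    (h𝒞 : ∀ C ∈ 𝒞, ringKrullDim C = ((2 : ℕ) : WithBot ℕ∞) ∧ ∃ E t w, GoodC Z P C E t w) :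
    ∃ s : Fin d → F, {C | C ∈ 𝒞 ∧ img π C ∈ Gd (k := k) s}.Infinite := by
  obtain ⟨Ch, hfin, hCh, hmem⟩ := hZ.charts
  have hG : ∀ R : Subalgebra k K, ∃ G : Finset K, R ∈ Ch → Algebra.adjoin k (G : Set K) = R := by
    intro R
    by_cases hR : R ∈ Ch
    · obtain ⟨G, hG⟩ := (hCh R hR).1
      exact ⟨G, fun _ => hG⟩
    · exact ⟨∅, fun h => absurd h hR⟩
  choose G hG using hG
  have htr : Algebra.trdeg k K = ((1 + (d + 1) : ℕ) : Cardinal) := by
    obtain ⟨R, hR, hRP⟩ := (hmem P).1 hP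
    haveI : IsLocalRing P := hRP.2.1
    obtain ⟨d', e', h1, h2, h3⟩ := dim_formula (hCh R hR).1 (hCh R hR).2 hRP
    rw [(hZ.isDVR_iff hP).1 hPd] at h1
    have hd1 : 1 = d' := by exact_mod_cast h1
    rw [PE1_trdeg hπ, hF] at h2
    have hd2 : d + 1 = e' := by exact_mod_cast h2
    rw [h3, ← hd1, ← hd2]
  have hex : ∀ C ∈ 𝒞, ∃ σ : Fin d → K, (∃ R ∈ Ch, ∀ i, σ i ∈ G R) ∧ ResIndep C σ := by
    intro C hC
    obtain ⟨hdim, E, t, w, hgood⟩ := h𝒞 C hC
    obtain ⟨R, hR, hRC⟩ := (hmem C).1 hgood.hC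
    obtain ⟨d', e', h1, h2, h3⟩ := dim_formula (hCh R hR).1 (hCh R hR).2 hRC
    rw [hdim] at h1
    have hd1 : 2 = d' := by exact_mod_cast h1
    rw [htr] at h3
    have hd2 : 1 + (d + 1) = d' + e' := by exact_mod_cast h3
    have hd3 : e' = d := by omega
    rw [hd3] at h2
    obtain ⟨σ, hσ, hσ'⟩ := PE1_basis (hG R hR) hRC d h2
    exact ⟨σ, ⟨R, hR, hσ⟩, hσ'⟩
  have hS : {σ : Fin d → K | ∃ R ∈ Ch, ∀ i, σ i ∈ G R}.Finite := by
    have h1 : (⋃ R ∈ Ch, Set.pi Set.univ (fun _ : Fin d => (G R : Set K))).Finite :=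
      Set.Finite.biUnion hfin fun R _ => Set.Finite.pi fun _ => (G R).finite_toSet
    refine h1.subset ?_
    rintro σ ⟨R, hR, hσ⟩
    exact Set.mem_biUnion hR fun i _ => hσ i
  have hσ : ∃ σ : Fin d → K, {C | C ∈ 𝒞 ∧ ResIndep C σ}.Infinite := by
    by_contra hcon
    push Not at hcon
    apply hinf
    refine (Set.Finite.biUnion hS fun σ _ => hcon σ).subset ?_
    intro C hC
    obtain ⟨σ, h1, h2⟩ := hex C hC
    exact Set.mem_biUnion h1 ⟨hC, h2⟩
  obtain ⟨σ, hσ⟩ := hσ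
  refine ⟨fun i => rs π (σ i), hσ.mono ?_⟩
  rintro C ⟨hC, hCσ⟩
  obtain ⟨-, E, t, w, hgood⟩ := h𝒞 C hC
  exact ⟨hC, (hgood.isPrimeDiv hZ hπ hP hPd).1, PE1_img hgood.hCP hCσ⟩

end Flip28
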