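import Pool.Agent.FlipP_h28.PDef

/-! # Prime divisors of small discrepancy, second version -/

open scoped KaehlerDifferential

universe u

namespace Flip28

variable {k K : Type u} [Field k] [Field K] [Algebra k K] [CharZero k]
  [Algebra.EssFiniteType k K] {n : ℕ} {b : Module.Basis (Fin n) K Ω[K⁄k]}
  {X Z : Set (Subalgebra k K)} {c : ℕ}

/-- Proof: the proof of `ResSit.finite_or` (file `ND3`) without the sets `S P`. -/
theorem ResSit.finite_or' (h : ResSit b c X Z) :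
    ∃ ℰ : Set (Subalgebra k K), ℰ.Finite ∧ ∀ E, IsPrimeDiv E → ∀ A ∈ X, Dom A E →
      ¬ Algebra.FormallySmooth k A → disc b X E < c → E ∈ ℰ ∨
      ∃ P ∈ Z, IsDVR P ∧ P ∉ X ∧ disc b X P < (c : ℚ) - 1 ∧ A ≤ P ∧
        ∃ C ∈ Z, C ≤ P ∧ ringKrullDim C = ((2 : ℕ) : WithBot ℕ∞) ∧ Dom C E ∧
          disc b Z E < 2 := by
  classical
  -- the exceptional prime divisors
  have hfin1 : {P | P ∈ Z ∧ P ∉ X ∧ ringKrullDim P = ((1 : ℕ) : WithBot ℕ∞)}.Finite := by
    refine finite_removed h.cZ h.cX (c := 1) ?_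
    intro A hA hAX
    obtain ⟨e, he, -⟩ := dim_le_basis b h.cZ hA
    rw [he]
    rcases Nat.eq_zero_or_pos e with h0 | h0
    · exfalso
      subst h0
      have h1 : A = ⊤ := (h.cZ.eq_top_iff hA).2 (by simpa using he)
      exact hAX (h1 ▸ h.cX.top_mem)
    · exact_mod_cast h0
  -- the generic points of the exceptional locus
  obtain ⟨T, hT, hTZ, hTU, hgen⟩ := (opn_model (X := Z) h.cX).exists_generic h.cZ
  have hfin3 : (⋃ C ∈ T, {E | ∃ e : ℕ, ringKrullDim C = e ∧ c ≤ e ∧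
      IsPrimeDiv E ∧ Dom C E ∧ disc b Z E < c}).Finite := by
    refine hT.biUnion fun C hC => ?_
    obtain ⟨e, he, -⟩ := dim_le_basis b h.cZ (hTZ hC)
    by_cases hce : c ≤ e
    · refine (ND3_sub (b := b) h.cZ (hTZ hC) (h.sm C (hTZ hC)) he
        (r := (c : ℚ)) (by exact_mod_cast hce)).subset ?_
      rintro E ⟨-, -, -, hE⟩
      exact hE
    · convert Set.finite_empty
      rw [Set.eq_empty_iff_forall_notMem]
      rintro E ⟨e', he', hce', -⟩
      rw [he] at he'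
      have h1 : e = e' := by exact_mod_cast he'
      omega
  refine ⟨_, hfin1.union hfin3, fun E hE A hA hAE hAs hlt => ?_⟩
  obtain ⟨C, hC, hCE⟩ := h.cZ.exists_centre hE.1.isVal
  rcases h.cases hE hA hAE hAs hC hCE hlt with hc | ⟨P, hP, hPd, hPX, hPlt, hCP, hC2, hE2, -⟩ |
    ⟨hCX, hno, hElt⟩
  · exact Or.inl (Or.inl hc)
  · refine Or.inr ⟨P, hP, hPd, hPX, hPlt, ?_, C, hC, hCP, hC2, hCE, hE2⟩
    obtain ⟨x, hx, hxC⟩ := h.down C hC
    have h1 : x = A := h.cX.unique hx hA hE.1.isVal.isLocalRing (hxC.trans hCE) hAE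
    exact h1 ▸ hxC.1.trans hCP
  · obtain ⟨B, hB, hCB⟩ := hgen C hC hCX
    obtain ⟨e, he, -⟩ := dim_le_basis b h.cZ (hTZ hB)
    have hce : c ≤ e := h.dim_ge (hTZ hB) (hTU B hB)
      (fun P hP hPd hBP => hno P hP hPd (hCB.trans hBP)) he
    refine Or.inl (Or.inr ?_)
    by_cases hne : C = B
    · subst hne
      exact Set.mem_biUnion hB ⟨e, he, hce, hE, hCE, hElt⟩
    · exfalso
      have h1 := dim_lt_of_le_ne h.cZ hC (hTZ hB) hCB hne
      obtain ⟨e', he', -⟩ := dim_le_basis b h.cZ hC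
      rw [he, he'] at h1
      have h2 : e < e' := by exact_mod_cast h1
      have h3 := disc_ge_of_smooth b h.cZ hC (h.sm C hC) hE hCE he'
      have h4 : (c : ℚ) + 1 ≤ e' := by exact_mod_cast (by omega : c + 1 ≤ e')
      linarith

end Flip28
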