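import Pool.Agent.FlipP_h28.PDef

/-! # Forms with bounded poles -/

open scoped KaehlerDifferential

universe u

namespace Flip28

variable {k K : Type u} [Field k] [Field K] [Algebra k K] {n : ℕ}
  (b : Module.Basis (Fin n) K Ω[K⁄k]) {X : Set (Subalgebra k K)}

theorem PF2_exists_nonunit (hX : IsCompleteNormal X) {A : Subalgebra k K} (hA : A ∈ X)
    {Q : Subalgebra k K} (hQ : IsDVR Q) (hAQ : A ≤ Q) : ∃ x ∈ A, x ≠ 0 ∧ 0 < ord Q x := by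
  by_contra hcon
  push Not at hcon
  obtain ⟨R, -, hF, hRA, -⟩ := hX.exists_chart hA
  apply hQ.ne_top
  rw [eq_top_iff]
  intro z _
  obtain ⟨x, y, hy, hxy⟩ := IsFractionRing.div_surjective (A := R) z
  have hy0 : (y : K) ≠ 0 := fun h => nonZeroDivisors.ne_zero hy (Subtype.ext h)
  have h1 := hcon y (hRA.1 y.2) hy0
  have h2 : (y : K)⁻¹ ∈ Q := by
    rw [mem_iff hQ (inv_ne_zero hy0), ord_inv hQ]
    omega
  rw [← hxy, div_eq_mul_inv]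
  exact Q.mul_mem (hAQ (hRA.1 x.2)) h2

/-- Proof: for each of the finitely many `Q ≥ A` with `D Q ≠ 0` there is `x ∈ A`, `x ≠ 0`, with
`x⁻¹ ∉ Q` (otherwise `Q` would contain all quotients of elements of `A`, i.e. `K`); take the
product of the powers `x ^ (D Q)`. -/
theorem exists_high (hX : IsCompleteNormal X) {A : Subalgebra k K} (hA : A ∈ X)
    {D : Subalgebra k K → ℕ} (hD : {Q | Q ∈ X ∧ IsDVR Q ∧ D Q ≠ 0}.Finite) :
    ∃ e ∈ A, e ≠ 0 ∧ ∀ Q ∈ X, IsDVR Q → A ≤ Q → (D Q : ℤ) ≤ ord Q e := by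
  classical
  have hx : ∀ Q : Subalgebra k K, ∃ x ∈ A, x ≠ 0 ∧ (IsDVR Q → A ≤ Q → 0 < ord Q x) := by
    intro Q
    by_cases h : IsDVR Q ∧ A ≤ Q
    · obtain ⟨x, h1, h2, h3⟩ := PF2_exists_nonunit hX hA h.1 h.2
      exact ⟨x, h1, h2, fun _ _ => h3⟩
    · exact ⟨1, A.one_mem, one_ne_zero, fun h1 h2 => absurd ⟨h1, h2⟩ h⟩
  choose x hxA hx0 hxQ using hx
  have hp0 : ∀ Q : Subalgebra k K, x Q ^ D Q ≠ 0 := fun Q => pow_ne_zero _ (hx0 Q)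
  refine ⟨∏ Q ∈ hD.toFinset, x Q ^ D Q, A.prod_mem fun Q _ => A.pow_mem (hxA Q) _,
    Finset.prod_ne_zero_iff.2 fun Q _ => hp0 Q, fun Q hQX hQ hAQ => ?_⟩
  rw [ord_prod hQ _ _ fun P _ => hp0 P]
  have h0 : ∀ P : Subalgebra k K, 0 ≤ ord Q (x P ^ D P) := fun P =>
    (mem_iff hQ (hp0 P)).1 (hAQ (A.pow_mem (hxA P) _))
  by_cases hDQ : D Q = 0
  · rw [hDQ]
    exact Finset.sum_nonneg fun P _ => h0 P
  · have h1 : Q ∈ hD.toFinset := hD.mem_toFinset.2 ⟨hQX, hQ, hDQ⟩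
    refine le_trans ?_ (Finset.single_le_sum (f := fun P => ord Q (x P ^ D P))
      (fun P _ => h0 P) h1)
    show (D Q : ℤ) ≤ ord Q (x Q ^ D Q)
    rw [ord_pow hQ (hx0 Q)]
    have h2 := hxQ Q hQ hAQ
    nlinarith [Int.natCast_nonneg (D Q)]

/-- Proof: let `g'` generate `m' K_X` at `A`; `g ^ m' / g' ^ m` has no poles at the `Q ≥ A`, so it
is an element of `A` (`hX.mem_of_ord`), its order along `E` is `≥ 0`; `disc_eq`. -/
theorem kord_ge_of_sec (hX : IsCompleteNormal X) {A E : Subalgebra k K} (hA : A ∈ X)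
    (hE : IsPrimeDiv E) (hAE : Dom A E) (hgen : ∃ m' : ℤ, 0 < m' ∧ ∃ g', IsGen b X m' A g')
    {m : ℤ} (hm : 0 < m) {g : K} (hg0 : g ≠ 0)
    (hg : ∀ Q ∈ X, IsDVR Q → A ≤ Q → 0 ≤ kord b m Q g) :
    (m : ℚ) * disc b X E ≤ kord b m E g := by
  obtain ⟨m', hm', g', hg'⟩ := hgen
  rw [disc_eq b hX hE hA hAE hm' hg']
  obtain ⟨j, rfl⟩ := Int.eq_ofNat_of_zero_le hm.le
  obtain ⟨i, rfl⟩ := Int.eq_ofNat_of_zero_le hm'.le
  have hi0 : (g ^ i : K) ≠ 0 := pow_ne_zero i hg0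
  have hj0 : (g' ^ j : K) ≠ 0 := pow_ne_zero j hg'.1
  have hu0 : g ^ i * (g' ^ j)⁻¹ ≠ 0 := mul_ne_zero hi0 (inv_ne_zero hj0)
  have hord : ∀ Q : Subalgebra k K, IsDVR Q → ord Q (g ^ i * (g' ^ j)⁻¹) =
      (i : ℤ) * kord b (j : ℤ) Q g - (j : ℤ) * kord b (i : ℤ) Q g' := by
    intro Q hQ
    rw [ord_mul hQ hi0 (inv_ne_zero hj0), ord_inv hQ, ord_pow hQ hg0, ord_pow hQ hg'.1]
    unfold kord
    ring
  have hmem : g ^ i * (g' ^ j)⁻¹ ∈ A := by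
    refine hX.mem_of_ord hA hu0 fun Q hQ hd hAQ => ?_
    rw [hord Q hd, hg'.2 Q hQ hd hAQ, mul_zero, sub_zero]
    exact mul_nonneg (Int.natCast_nonneg i) (hg Q hQ hd hAQ)
  have h1 := (mem_iff hE.1 hu0).1 (hAE.1 hmem)
  rw [hord E hE.1] at h1
  have h2 : (j : ℤ) * kord b (i : ℤ) E g' ≤ (i : ℤ) * kord b (j : ℤ) E g := by linarith
  have h3 : (j : ℚ) * (kord b (i : ℤ) E g' : ℚ) ≤ (i : ℚ) * (kord b (j : ℤ) E g : ℚ) := by
    exact_mod_cast h2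
  have hi : (0 : ℚ) < (i : ℚ) := by exact_mod_cast hm'
  rw [Int.cast_natCast, Int.cast_natCast, mul_div_assoc', div_le_iff₀ hi]
  linarith

/-- Proof: apply `kord_ge_of_sec` to `g * e ^ l * e' ^ l'`. -/
theorem kord_ge_of_poles (hX : IsCompleteNormal X) {A E : Subalgebra k K} (hA : A ∈ X)
    (hE : IsPrimeDiv E) (hAE : Dom A E) (hgen : ∃ m' : ℤ, 0 < m' ∧ ∃ g', IsGen b X m' A g')
    {D D' : Subalgebra k K → ℕ} {e e' : K} (he : e ∈ A) (he0 : e ≠ 0)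
    (heD : ∀ Q ∈ X, IsDVR Q → A ≤ Q → (D Q : ℤ) ≤ ord Q e) (he' : e' ∈ A) (he0' : e' ≠ 0)
    (heD' : ∀ Q ∈ X, IsDVR Q → A ≤ Q → (D' Q : ℤ) ≤ ord Q e')
    {m : ℤ} (hm : 0 < m) {g : K} (hg0 : g ≠ 0) {l l' : ℕ}
    (hg : ∀ Q ∈ X, IsDVR Q → A ≤ Q → -((l : ℤ) * D Q + l' * D' Q) ≤ kord b m Q g) :
    (m : ℚ) * disc b X E - (l * ord E e + l' * ord E e') ≤ kord b m E g := by
  have hel : e ^ l ≠ 0 := pow_ne_zero l he0
  have hel' : e' ^ l' ≠ 0 := pow_ne_zero l' he0'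
  have hord : ∀ Q : Subalgebra k K, IsDVR Q → kord b m Q (g * (e ^ l * e' ^ l')) =
      kord b m Q g + (l * ord Q e + l' * ord Q e') := by
    intro Q hQ
    unfold kord
    rw [ord_mul hQ hg0 (mul_ne_zero hel hel'), ord_mul hQ hel hel', ord_pow hQ he0,
      ord_pow hQ he0']
    ring
  have h := kord_ge_of_sec b hX hA hE hAE hgen hm (g := g * (e ^ l * e' ^ l'))
    (mul_ne_zero hg0 (mul_ne_zero hel hel')) (fun Q hQX hQ hAQ => by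
      rw [hord Q hQ]
      have h1 := hg Q hQX hQ hAQ
      have h2 := mul_le_mul_of_nonneg_left (heD Q hQX hQ hAQ) (Int.natCast_nonneg l)
      have h3 := mul_le_mul_of_nonneg_left (heD' Q hQX hQ hAQ) (Int.natCast_nonneg l')
      linarith)
  rw [hord E hE.1] at h
  push_cast at h
  linarith

/-- Proof: replace `m`, `g` by `r m`, `g ^ r` for a suitable `r > 0` (a multiple of the
denominators of `η`, `δ` and `≥ N`). -/
theorem App.integral {V : Subalgebra k K} (hV : IsDVR V) {κ : ℚ} (h : App b X V κ) :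
    ∃ D : Subalgebra k K → ℕ, {Q | Q ∈ X ∧ IsDVR Q ∧ D Q ≠ 0}.Finite ∧
      ∀ η : ℚ, 0 < η → ∃ D' : Subalgebra k K → ℕ, {Q | Q ∈ X ∧ IsDVR Q ∧ D' Q ≠ 0}.Finite ∧
        ∀ δ : ℚ, 0 < δ → ∀ N : ℕ, ∃ (m : ℤ) (l l' : ℕ), 0 < m ∧ (N : ℤ) ≤ m ∧
          (l : ℚ) = η * m ∧ (l' : ℚ) = δ * m ∧ ∃ g : K, g ≠ 0 ∧
            (∀ Q ∈ X, IsDVR Q → -((l : ℤ) * D Q + l' * D' Q) ≤ kord b m Q g) ∧
            (kord b m V g : ℚ) ≤ κ * m := by
  obtain ⟨D, hD, h⟩ := h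
  refine ⟨D, hD, fun η hη => ?_⟩
  obtain ⟨D', hD', h'⟩ := h η hη
  refine ⟨D', hD', fun δ hδ N => ?_⟩
  obtain ⟨m, hm, g, hg0, hg, hgV⟩ := h' δ hδ
  obtain ⟨i, rfl⟩ := Int.eq_ofNat_of_zero_le hm.le
  have hi : 0 < i := by exact_mod_cast hm
  have hηd : 0 < η.den := η.den_pos
  have hδd : 0 < δ.den := δ.den_pos
  obtain ⟨r, hr⟩ : ∃ r : ℕ, r = η.den * δ.den * (N + 1) := ⟨_, rfl⟩
  have hr0 : 0 < r := by
    rw [hr]
    positivity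
  have hrN : N ≤ r := by
    rw [hr]
    nlinarith [Nat.mul_pos hηd hδd]
  have hηn : ((η.num.toNat : ℕ) : ℚ) = η * η.den := by
    rw [Rat.mul_den_eq_num]
    have h1 : ((η.num.toNat : ℕ) : ℤ) = η.num := Int.toNat_of_nonneg (Rat.num_nonneg.2 hη.le)
    exact_mod_cast h1
  have hδn : ((δ.num.toNat : ℕ) : ℚ) = δ * δ.den := by
    rw [Rat.mul_den_eq_num]
    have h1 : ((δ.num.toNat : ℕ) : ℤ) = δ.num := Int.toNat_of_nonneg (Rat.num_nonneg.2 hδ.le)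
    exact_mod_cast h1
  have hl : ((η.num.toNat * δ.den * (N + 1) * i : ℕ) : ℚ) = η * (((r : ℤ) * (i : ℤ) : ℤ) : ℚ) := by
    rw [hr]
    push_cast
    rw [hηn]
    ring
  have hl' : ((δ.num.toNat * η.den * (N + 1) * i : ℕ) : ℚ) = δ * (((r : ℤ) * (i : ℤ) : ℤ) : ℚ) := by
    rw [hr]
    push_cast
    rw [hδn]
    ring
  have hrq : (0 : ℚ) < (r : ℚ) := by exact_mod_cast hr0
  refine ⟨(r : ℤ) * (i : ℤ), η.num.toNat * δ.den * (N + 1) * i, δ.num.toNat * η.den * (N + 1) * i,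
    ?_, ?_, hl, hl', g ^ r, pow_ne_zero r hg0, fun Q hQX hQ => ?_, ?_⟩
  · exact_mod_cast Nat.mul_pos hr0 hi
  · have h1 : N ≤ r * i := hrN.trans (Nat.le_mul_of_pos_right r hi)
    exact_mod_cast h1
  · rw [kord_pow b hQ _ r hg0]
    have h1 := mul_le_mul_of_nonneg_left (hg Q hQX hQ) hrq.le
    have h2 : (((-(((η.num.toNat * δ.den * (N + 1) * i : ℕ) : ℤ) * (D Q : ℤ) +
        ((δ.num.toNat * η.den * (N + 1) * i : ℕ) : ℤ) * (D' Q : ℤ)) : ℤ)) : ℚ) ≤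
        (((r : ℤ) * kord b (i : ℤ) Q g : ℤ) : ℚ) := by
      simp only [Int.cast_neg, Int.cast_add, Int.cast_mul, Int.cast_natCast]
      rw [hl, hl']
      push_cast
      push_cast at h1
      linarith
    exact_mod_cast h2
  · rw [kord_pow b hV _ r hg0]
    have h1 := mul_le_mul_of_nonneg_left hgV hrq.le
    push_cast
    push_cast at h1
    linarith

theorem App.mono {X X' : Set (Subalgebra k K)} {V : Subalgebra k K} {κ : ℚ} (h : App b X V κ)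
    (hXX : ∀ Q ∈ X', IsDVR Q → Q ∈ X) : App b X' V κ := by
  obtain ⟨D, hD, h⟩ := h
  refine ⟨D, hD.subset fun Q hQ => ⟨hXX Q hQ.1 hQ.2.1, hQ.2.1, hQ.2.2⟩, fun η hη => ?_⟩
  obtain ⟨D', hD', h'⟩ := h η hη
  refine ⟨D', hD'.subset fun Q hQ => ⟨hXX Q hQ.1 hQ.2.1, hQ.2.1, hQ.2.2⟩, fun δ hδ => ?_⟩
  obtain ⟨m, hm, g, hg0, hg, hgV⟩ := h' δ hδ
  exact ⟨m, hm, g, hg0, fun Q hQX hQ => hg Q (hXX Q hQX hQ) hQ, hgV⟩

end Flip28
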