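import Pool.Agent.FlipP_h28.PC6
import Pool.Agent.FlipP_h28.PE1

/-! # Finiteness of the culprits -/

open scoped KaehlerDifferential

set_option linter.unusedSectionVars false

universe u

namespace Flip28

variable {k K : Type u} [Field k] [Field K] [Algebra k K] [CharZero k]
  [Algebra.EssFiniteType k K] {n : ℕ} {b : Module.Basis (Fin n) K Ω[K⁄k]}
  {X Y : ℕ → Set (Subalgebra k K)} {c : ℕ}

/-- The prime divisors over flipped points with discrepancy at least `c` after the flip which are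
blow ups of points of codimension one of the prime divisor `P` of `Z`. -/
def Culp (b : Module.Basis (Fin n) K Ω[K⁄k]) (c : ℕ) (X : ℕ → Set (Subalgebra k K))
    (Z : Set (Subalgebra k K)) (P : Subalgebra k K) (i1 : ℕ) : Set (Subalgebra k K) :=
  {E | IsPrimeDiv E ∧ (∃ i, i1 ≤ i ∧ (c : ℚ) ≤ disc b (X i) E) ∧
    ∃ C ∈ Z, C ≤ P ∧ ringKrullDim C = ((2 : ℕ) : WithBot ℕ∞) ∧ Dom C E ∧ disc b Z E < 2}

/-- If there are infinitely many culprits there are also infinitely many whose centres are good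
and have independent residues.  Proof: `E` is determined by `C` (`ND3_sub` or `IsCoord.unique`
with `d = 2`), so the set of the `C` is infinite; remove the finite set of `finite_not_good`;
`exists_indep`. -/
theorem exists_good_culp {Z : Set (Subalgebra k K)} (hZ : IsCompleteNormal Z)
    (hs : ∀ A ∈ Z, Algebra.FormallySmooth k A) {P : Subalgebra k K} (hP : P ∈ Z)
    (hPd : IsDVR P) {F : Type u} [Field F] [Algebra k F] {π : P →ₐ[k] F} (hπ : IsRes π) {d : ℕ}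
    (hF : Algebra.trdeg k F = (d + 1 : ℕ)) {i1 : ℕ} (hinf : (Culp b c X Z P i1).Infinite) :
    ∃ (j t : K) (s : Fin d → F), j ≠ 0 ∧ kord b 1 P j = 0 ∧ t ≠ 0 ∧ ord P t = 1 ∧
      {C | ∃ E w i, GoodC Z P C E t w ∧ kord b 1 E j = 1 ∧ img π C ∈ Gd (k := k) s ∧ i1 ≤ i ∧
        (c : ℚ) ≤ disc b (X i) E}.Infinite := by
  classical
  obtain ⟨j, t, hj0, hjP, ht0, htP, hbad⟩ := finite_not_good b hZ hs hP hPd
  -- the centres
  obtain ⟨𝒞, h𝒞⟩ : ∃ 𝒞 : Set (Subalgebra k K), 𝒞 = {C | C ∈ Z ∧ C ≤ P ∧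
      ringKrullDim C = ((2 : ℕ) : WithBot ℕ∞) ∧ ∃ E, IsPrimeDiv E ∧ Dom C E ∧ disc b Z E < 2 ∧
        ∃ i, i1 ≤ i ∧ (c : ℚ) ≤ disc b (X i) E} := ⟨_, rfl⟩
  have h1 : 𝒞.Infinite := by
    intro hfin
    apply hinf
    refine (hfin.biUnion (t := fun C => {E | C ∈ 𝒞 ∧ IsPrimeDiv E ∧ Dom C E ∧ disc b Z E < 2})
      fun C hC => ?_).subset ?_
    · have hC' := hC
      rw [h𝒞] at hC'
      refine (ND3_sub (b := b) hZ hC'.1 (hs C hC'.1) hC'.2.2.1 (r := 2) (by norm_num)).subset ?_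
      rintro E ⟨-, h1, h2, h3⟩
      exact ⟨h1, h2, h3⟩
    · rintro E ⟨hE, ⟨i, hi, hic⟩, C, hC, hCP, hC2, hCE, hlt⟩
      simp only [Set.mem_iUnion]
      have hC' : C ∈ 𝒞 := by
        rw [h𝒞]
        exact ⟨hC, hCP, hC2, E, hE, hCE, hlt, i, hi, hic⟩
      exact ⟨C, hC', hC', hE, hCE, hlt⟩
  have h2 := h1.sdiff hbad
  have h3 : ∀ C ∈ 𝒞 \ {C | C ∈ Z ∧ C ≤ P ∧ ringKrullDim C = ((2 : ℕ) : WithBot ℕ∞) ∧
        ¬ ∀ E, IsPrimeDiv E → Dom C E → disc b Z E < 2 →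
          (∃ w, GoodC Z P C E t w) ∧ kord b 1 E j = 1},
      C ∈ Z ∧ C ≤ P ∧ ringKrullDim C = ((2 : ℕ) : WithBot ℕ∞) ∧ ∃ E w i, GoodC Z P C E t w ∧
        kord b 1 E j = 1 ∧ i1 ≤ i ∧ (c : ℚ) ≤ disc b (X i) E := by
    rintro C ⟨hC, hC'⟩
    rw [h𝒞] at hC
    obtain ⟨hCZ, hCP, hC2, E, hE, hCE, hlt, i, hi, hic⟩ := hC
    have h4 : ∀ E, IsPrimeDiv E → Dom C E → disc b Z E < 2 →
          (∃ w, GoodC Z P C E t w) ∧ kord b 1 E j = 1 := by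
      by_contra hcon
      exact hC' ⟨hCZ, hCP, hC2, hcon⟩
    obtain ⟨⟨w, hw⟩, hk⟩ := h4 E hE hCE hlt
    exact ⟨hCZ, hCP, hC2, E, w, i, hw, hk, hi, hic⟩
  obtain ⟨s, hsinf⟩ := exists_indep hZ hπ hP hPd hF h2 (fun C hC => by
    obtain ⟨-, -, h5, E, w, i, h6, -⟩ := h3 C hC
    exact ⟨h5, E, t, w, h6⟩)
  refine ⟨j, t, s, hj0, hjP, ht0, htP, hsinf.mono ?_⟩
  rintro C ⟨hC, hCs⟩
  obtain ⟨-, -, -, E, w, i, h6, h7, h8, h9⟩ := h3 C hC
  exact ⟨E, w, i, h6, h7, hCs, h8, h9⟩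

end Flip28
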