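import Pool.Agent.FlipP_h28.PF5
import Pool.Agent.FlipP_h28.PF1

/-! # Flips of varieties with pseudoeffective canonical class -/

open scoped KaehlerDifferential

set_option linter.unusedSectionVars false

universe u

namespace Flip28

variable {k K : Type u} [Field k] [Field K] [Algebra k K] [CharZero k]
  [Algebra.EssFiniteType k K] {n : ℕ} {b : Module.Basis (Fin n) K Ω[K⁄k]}
  {X Y : ℕ → Set (Subalgebra k K)} {c : ℕ}

/-- For every prime divisor `V` with `c - 2 < a(V, X i) < c - 1` for almost all `i` such that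
infinitely many flips touch the closure of its centre: `K` is pseudoeffective and
`a(V, X j) + σ_V(K) < c - 1`. -/
def HypA (b : Module.Basis (Fin n) K Ω[K⁄k]) (c : ℕ) (X : ℕ → Set (Subalgebra k K)) : Prop :=
  ∀ V, IsPrimeDiv V →
    (∃ j, ∀ i, j ≤ i → (c : ℚ) - 2 < disc b (X i) V ∧ disc b (X i) V < (c : ℚ) - 1) →
    (∀ j, ∃ i, j ≤ i ∧ ∃ A ∈ X i, A ∉ X (i + 1) ∧ A ≤ V) →
    ∃ κ : ℚ, κ < (c : ℚ) - 1 ∧ ∃ j, App b (X j) V κ

/-- Only finitely many flips create smooth points of dimension `c + 1`.  Proof: as for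
`SetupN.finite_smooth` (file `NE4`), with `ResSit.finite_or'` instead of `ResSit.finite_or`;
for the finitely many `P ∈ 𝒱` touched infinitely often `Culp b c X Z P i1` is finite
(`SetupN.finite_culp`). -/
theorem SetupN.finite_smoothA (h : SetupN b c X Y) (hS : HypA b c X)
    {i0 : ℕ} (hst : ∀ i, i0 ≤ i → ∀ A : Subalgebra k K, ringKrullDim A ≤ c →
      (A ∈ X i ↔ A ∈ X (i + 1))) :
    {i | i0 ≤ i ∧ ∃ F ∈ X (i + 1), F ∉ X i ∧ ringKrullDim F = ((c + 1 : ℕ) : WithBot ℕ∞) ∧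
      Algebra.FormallySmooth k F}.Finite := by
  classical
  obtain ⟨Z0, hZ0⟩ := h.exists_res i0
  have hbad := hZ0.finite_bad
  set 𝒱 : Set (Subalgebra k K) := {E | IsPrimeDiv E ∧
    (∃ A ∈ X i0, Dom A E ∧ ¬ Algebra.FormallySmooth k A) ∧
      disc b (X i0) E < (c : ℚ) - 1} with h𝒱
  -- the step `i1`
  obtain ⟨i1, hi01, hi1⟩ : ∃ i1, i0 ≤ i1 ∧ ∀ V ∈ 𝒱,
      (∀ i, (c : ℚ) - 1 ≤ disc b (X i) V → (c : ℚ) - 1 ≤ disc b (X i1) V) ∧
      ((∀ j', ∃ i, j' ≤ i ∧ ∃ A ∈ X i, A ∉ X (i + 1) ∧ A ≤ V) ∨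
        ∀ i, i1 ≤ i → ∀ A ∈ X i, A ≤ V → A ∈ X (i + 1)) := by
    refine NE4_common hbad
      (fun V j => (∀ i, (c : ℚ) - 1 ≤ disc b (X i) V → (c : ℚ) - 1 ≤ disc b (X j) V ∨
        ¬ IsPrimeDiv V) ∧
        ((∀ j', ∃ i, j' ≤ i ∧ ∃ A ∈ X i, A ∉ X (i + 1) ∧ A ≤ V) ∨
          ∀ i, j ≤ i → ∀ A ∈ X i, A ≤ V → A ∈ X (i + 1))) ?_ ?_ i0 |>.imp ?_
    · intro V i j hij hp
      refine ⟨fun l hl => ?_, hp.2.imp id fun h1 l hl => h1 l (hij.trans hl)⟩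
      by_cases hV : IsPrimeDiv V
      · exact ((hp.1 l hl).imp (fun h1 => h1.trans (disc_mono_flips b h.cn h.hf hV j hij)) id)
      · exact Or.inr hV
    · intro V hV
      have h1 : ∃ j1, ∀ i, (c : ℚ) - 1 ≤ disc b (X i) V → (c : ℚ) - 1 ≤ disc b (X j1) V := by
        by_cases h2 : ∃ i, (c : ℚ) - 1 ≤ disc b (X i) V
        · obtain ⟨i, hi⟩ := h2
          exact ⟨i, fun _ _ => hi⟩
        · exact ⟨0, fun i hi => absurd ⟨i, hi⟩ h2⟩
      obtain ⟨j1, hj1⟩ := h1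
      by_cases h3 : ∀ j', ∃ i, j' ≤ i ∧ ∃ A ∈ X i, A ∉ X (i + 1) ∧ A ≤ V
      · exact ⟨j1, fun i hi => Or.inl (hj1 i hi), Or.inl h3⟩
      · push Not at h3
        obtain ⟨j2, hj2⟩ := h3
        refine ⟨max j1 j2, fun i hi => Or.inl ((hj1 i hi).trans
          (disc_mono_flips b h.cn h.hf hV.1 _ (le_max_left _ _))), Or.inr fun i hi A hA hAV => ?_⟩
        by_contra hcon
        exact hj2 i (le_trans (le_max_right _ _) hi) A hA hcon hAV
    · rintro i1 ⟨hi1, h1⟩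
      refine ⟨hi1, fun V hV => ⟨fun i hi => ?_, (h1 V hV).2⟩⟩
      rcases (h1 V hV).1 i hi with h2 | h2
      · exact h2
      · exact absurd hV.1 h2
  have hst1 : ∀ i, i1 ≤ i → ∀ A : Subalgebra k K, ringKrullDim A ≤ c →
      (A ∈ X i ↔ A ∈ X (i + 1)) := fun i hi => hst i (hi01.trans hi)
  obtain ⟨Z, hZ⟩ := h.exists_res i1
  have hc' : ∀ P ∈ Z, IsDVR P → P ∉ X i1 → disc b (X i1) P < (c : ℚ) - 1 → P ∈ 𝒱 := by
    intro P hP hPd hPX hlt
    have hPp : IsPrimeDiv P := hZ.cZ.isPrimeDiv hP hPd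
    have hmono := disc_mono_flips b h.cn h.hf hPp (i := i0) i1 hi01
    refine ⟨hPp, ?_, lt_of_le_of_lt hmono hlt⟩
    obtain ⟨A, hA, hAP⟩ := (h.cn i0).exists_centre hPd.isVal
    refine ⟨A, hA, hAP, fun hs => hPX ?_⟩
    obtain ⟨e, he, -⟩ := dim_le_basis b (h.cn i0) hA
    have h1 := disc_ge_of_smooth b (h.cn i0) hA hs hPp hAP he
    have h2 : (e : ℚ) < c := by linarith
    have h3 : e < c := by exact_mod_cast h2
    have h4 : A ∈ X i1 := (stable_persist hst (by rw [he]; exact_mod_cast h3.le) le_rfl hi01).1 hA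
    have h5 : A = P := hZ.cZ.unique (hZ.iso A h4 hs) hP (hZ.cZ.isLocalRing hP) hAP (Dom.refl P)
    exact h5 ▸ h4
  -- the culprits
  set 𝒲 : Set (Subalgebra k K) := {P | P ∈ 𝒱 ∧ P ∈ Z ∧ IsDVR P ∧ P ∉ X i1 ∧
    disc b (X i1) P < (c : ℚ) - 1 ∧
      ∀ j', ∃ i, j' ≤ i ∧ ∃ A ∈ X i, A ∉ X (i + 1) ∧ A ≤ P} with h𝒲
  have h𝒲fin : 𝒲.Finite := hbad.subset fun P hP => hP.1
  have hculp : ∀ P ∈ 𝒲, (Culp b c X Z P i1).Finite := by
    rintro P ⟨hPV, hP, hPd, hPX, hlt, htouch⟩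
    have hPp : IsPrimeDiv P := hPV.1
    have hdis : ∀ i, i1 ≤ i → (c : ℚ) - 2 < disc b (X i) P ∧ disc b (X i) P < (c : ℚ) - 1 := by
      intro i hi
      refine ⟨lt_of_lt_of_le (hZ.disc_exc hP hPd hPX)
        (disc_mono_flips b h.cn h.hf hPp i hi), ?_⟩
      by_contra hcon
      exact absurd ((hi1 P hPV).1 i (not_lt.1 hcon)) (not_le.2 hlt)
    obtain ⟨κ, hκ, j, hA⟩ := hS P hPp ⟨i1, hdis⟩ htouch
    exact h.finite_culp hst1 hZ hP hPd hPX hκ hA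
  obtain ⟨ℰ, hℰ, hor⟩ := hZ.finite_or'
  have hℰ' : (ℰ ∪ ⋃ P ∈ 𝒲, Culp b c X Z P i1).Finite := hℰ.union (h𝒲fin.biUnion hculp)
  -- the steps after `i1`
  have hT : {i | i1 ≤ i ∧ ∃ F ∈ X (i + 1), F ∉ X i ∧
      ringKrullDim F = ((c + 1 : ℕ) : WithBot ℕ∞) ∧ Algebra.FormallySmooth k F}.Finite := by
    refine finite_pass b h.cn h.hf hℰ' (a := (c : ℚ)) ?_
    rintro i ⟨hi, F, hF, hF', hd, hs⟩
    obtain ⟨E, hE, hFE, hE1, hE2⟩ := exists_blow_flip b h.cn h.hf hF hF' hs hd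
    have h7 : (((c + 1 : ℕ) : ℚ)) - 1 = c := by push_cast; ring
    rw [h7] at hE1 hE2
    refine ⟨E, ?_, hE, hE2, hE1.ge⟩
    obtain ⟨A, hA, hAE⟩ := (h.cn i1).exists_centre hE.1.isVal
    have hlt1 : disc b (X i1) E < c :=
      lt_of_le_of_lt (disc_mono_flips b h.cn h.hf hE i hi) hE2
    have hAs : ¬ Algebra.FormallySmooth k A :=
      h.centre_singular (fun i hi => hst i (hi01.trans hi)) hi hF hF' hE hFE hlt1 hA hAE
    rcases hor E hE A hA hAE hAs hlt1 with hE' | ⟨P, hP, hPd, hPX, hPlt, hAP, C, hC, hCP, hCd, hCE, hZE⟩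
    · exact Or.inl hE'
    right
    have hPV := hc' P hP hPd hPX hPlt
    rcases (hi1 P hPV).2 with htouch | hno
    · have hPW : P ∈ 𝒲 := ⟨hPV, hP, hPd, hPX, hPlt, htouch⟩
      simp only [Set.mem_iUnion]
      exact ⟨P, hPW, hE, ⟨i + 1, by omega, hE1.ge⟩, C, hC, hCP, hCd, hCE, hZE⟩
    · exfalso
      have h9 : ∀ j, i1 ≤ j → A ∈ X j := by
        intro j hj
        induction j, hj using Nat.le_induction with
        | base => exact hA
        | succ j hj ih => exact hno j hj A ih hAP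
      have h10 : A = F := (h.cn (i + 1)).unique (h9 (i + 1) (by omega)) hF
        hE.1.isVal.isLocalRing hAE hFE
      exact hF' (h10 ▸ h9 i hi)
  refine ((Set.finite_lt_nat i1).union hT).subset ?_
  rintro i ⟨hi, F, hF⟩
  rcases Nat.lt_or_ge i i1 with h1 | h1
  · exact Or.inl h1
  · exact Or.inr ⟨h1, F, hF⟩

end Flip28
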