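import Pool.Agent.FlipP_h28.PF3
import Pool.Agent.FlipP_h28.PD1
import Pool.Agent.FlipP_h28.PD2
import Pool.Agent.FlipP_h28.PF2

/-! # Finiteness of the culprits -/

open scoped KaehlerDifferential

set_option linter.unusedSectionVars false

universe u

namespace Flip28

variable {k K : Type u} [Field k] [Field K] [Algebra k K] [CharZero k]
  [Algebra.EssFiniteType k K] {n : ℕ} {b : Module.Basis (Fin n) K Ω[K⁄k]}
  {X Y : ℕ → Set (Subalgebra k K)} {c : ℕ}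

/-- the divisor `G` on `Z` bounding the pull back of `D` -/
theorem PF5_G (b : Module.Basis (Fin n) K Ω[K⁄k]) {X1 Z : Set (Subalgebra k K)}
    (hX : IsCompleteNormal X1) (hZ : IsCompleteNormal Z)
    {D : Subalgebra k K → ℕ} (hD : {Q | Q ∈ X1 ∧ IsDVR Q ∧ D Q ≠ 0}.Finite) :
    ∃ G : Subalgebra k K → ℕ, {Q | Q ∈ Z ∧ IsDVR Q ∧ G Q ≠ 0}.Finite ∧
      (∀ Q ∈ Z, IsDVR Q → Q ∈ X1 → D Q ≤ G Q) ∧
      ∀ Q ∈ Z, IsDVR Q → Q ∉ X1 → ∃ x ∈ X1, Dom x Q ∧ ∃ e ∈ x, e ≠ 0 ∧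
        (∀ Q' ∈ X1, IsDVR Q' → x ≤ Q' → (D Q' : ℤ) ≤ ord Q' e) ∧ ord Q e = G Q := by
  classical
  have hex : ∀ Q : Subalgebra k K, ∃ g : ℕ, (Q ∈ Z → IsDVR Q → Q ∈ X1 → g = D Q) ∧
      (Q ∈ Z → IsDVR Q → Q ∉ X1 → ∃ x ∈ X1, Dom x Q ∧ ∃ e ∈ x, e ≠ 0 ∧
        (∀ Q' ∈ X1, IsDVR Q' → x ≤ Q' → (D Q' : ℤ) ≤ ord Q' e) ∧ ord Q e = g) := by
    intro Q
    by_cases hQ : Q ∈ Z ∧ IsDVR Q ∧ Q ∉ X1
    · obtain ⟨hQZ, hQd, hQX⟩ := hQ
      obtain ⟨x, hx, hxQ⟩ := hX.exists_centre hQd.isVal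
      obtain ⟨e, he, he0, heD⟩ := exists_high hX hx hD
      have h1 : 0 ≤ ord Q e := (mem_iff hQd he0).1 (hxQ.1 he)
      obtain ⟨g, hg⟩ := Int.eq_ofNat_of_zero_le h1
      exact ⟨g, fun _ _ h2 => absurd h2 hQX, fun _ _ _ => ⟨x, hx, hxQ, e, he, he0, heD, hg⟩⟩
    · exact ⟨D Q, fun _ _ _ => rfl, fun h1 h2 h3 => absurd ⟨h1, h2, h3⟩ hQ⟩
  choose G hG1 hG2 using hex
  refine ⟨G, ?_, fun Q hQ hQd hQX => (hG1 Q hQ hQd hQX).ge, fun Q hQ hQd hQX =>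
    hG2 Q hQ hQd hQX⟩
  have hfin1 : {Q | Q ∈ Z ∧ Q ∉ X1 ∧ ringKrullDim Q = ((1 : ℕ) : WithBot ℕ∞)}.Finite := by
    refine finite_removed hZ hX (c := 1) ?_
    intro A hA hAX
    obtain ⟨e, he, -⟩ := dim_le_basis b hZ hA
    rw [he]
    rcases Nat.eq_zero_or_pos e with h0 | h0
    · exfalso
      subst h0
      have h1 : A = ⊤ := (hZ.eq_top_iff hA).2 (by simpa using he)
      exact hAX (h1 ▸ hX.top_mem)
    · exact_mod_cast h0
  refine (hfin1.union hD).subset ?_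
  rintro Q ⟨hQ, hQd, hQG⟩
  by_cases hQX : Q ∈ X1
  · right
    refine ⟨hQX, hQd, ?_⟩
    rw [← hG1 Q hQ hQd hQX]
    exact hQG
  · left
    refine ⟨hQ, hQX, ?_⟩
    rw [(hZ.isDVR_iff hQ).1 hQd]
    rfl

/-- the poles on `Z` of a form with bounded poles on `X1` -/
theorem PF5_poles {X1 Z : Set (Subalgebra k K)} (hZ : ResSit b c X1 Z)
    {D D' G G' : Subalgebra k K → ℕ}
    (hG1 : ∀ Q ∈ Z, IsDVR Q → Q ∈ X1 → D Q ≤ G Q)
    (hG2 : ∀ Q ∈ Z, IsDVR Q → Q ∉ X1 → ∃ x ∈ X1, Dom x Q ∧ ∃ e ∈ x, e ≠ 0 ∧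
        (∀ Q' ∈ X1, IsDVR Q' → x ≤ Q' → (D Q' : ℤ) ≤ ord Q' e) ∧ ord Q e = G Q)
    (hG1' : ∀ Q ∈ Z, IsDVR Q → Q ∈ X1 → D' Q ≤ G' Q)
    (hG2' : ∀ Q ∈ Z, IsDVR Q → Q ∉ X1 → ∃ x ∈ X1, Dom x Q ∧ ∃ e ∈ x, e ≠ 0 ∧
        (∀ Q' ∈ X1, IsDVR Q' → x ≤ Q' → (D' Q' : ℤ) ≤ ord Q' e) ∧ ord Q e = G' Q)
    {m : ℤ} (hm : 0 < m) {g : K} (hg0 : g ≠ 0) {l l' : ℕ}
    (hg : ∀ Q ∈ X1, IsDVR Q → -((l : ℤ) * D Q + l' * D' Q) ≤ kord b m Q g)
    {Q : Subalgebra k K} (hQ : Q ∈ Z) (hQd : IsDVR Q) :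
    -((l : ℤ) * G Q + l' * G' Q) ≤ kord b m Q g := by
  by_cases hQX : Q ∈ X1
  · have h1 := hg Q hQX hQd
    have h2 : (l : ℤ) * D Q ≤ l * G Q :=
      mul_le_mul_of_nonneg_left (by exact_mod_cast hG1 Q hQ hQd hQX) (Int.natCast_nonneg l)
    have h3 : (l' : ℤ) * D' Q ≤ l' * G' Q :=
      mul_le_mul_of_nonneg_left (by exact_mod_cast hG1' Q hQ hQd hQX) (Int.natCast_nonneg l')
    linarith
  · obtain ⟨x, hx, hxQ, e, he, he0, heD, heG⟩ := hG2 Q hQ hQd hQX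
    obtain ⟨x', hx', hxQ', e', he', he0', heD', heG'⟩ := hG2' Q hQ hQd hQX
    have hxx : x' = x := hZ.cX.unique hx' hx hQd.isVal.isLocalRing hxQ' hxQ
    subst hxx
    have hQp : IsPrimeDiv Q := hZ.cZ.isPrimeDiv hQ hQd
    have h1 := kord_ge_of_poles b hZ.cX hx hQp hxQ (hZ.gen _ hx) he he0 heD he' he0' heD' hm hg0
      (fun Q' hQ' hQd' _ => hg Q' hQ' hQd')
    have h2 := hZ.disc_exc hQ hQd hQX
    have h3 : (2 : ℚ) ≤ c := by exact_mod_cast hZ.hc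
    have h4 : (0 : ℚ) ≤ (m : ℚ) * disc b X1 Q := by
      refine mul_nonneg (by exact_mod_cast hm.le) ?_
      linarith
    rw [heG, heG'] at h1
    have h5 : ((-((l : ℤ) * G Q + l' * G' Q) : ℤ) : ℚ) ≤ (kord b m Q g : ℚ) := by
      push_cast
      push_cast at h1
      linarith
    exact_mod_cast h5

/-- elementary estimate -/
theorem PF5_small {ε M x : ℚ} (hε : 0 < ε) (hM : 1 ≤ M) (hx : x ≤ M) :
    min 1 (min ε 1 / M) * x ≤ ε ∧ min 1 (min ε 1 / M) * x ≤ 1 := by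
  have h0 : 0 < min ε 1 := lt_min hε one_pos
  have h1 : min 1 (min ε 1 / M) ≤ min ε 1 / M := min_le_right _ _
  have h2 : 0 < min 1 (min ε 1 / M) := lt_min one_pos (div_pos h0 (by linarith))
  have h3 : min 1 (min ε 1 / M) * x ≤ min ε 1 := by
    calc min 1 (min ε 1 / M) * x ≤ min 1 (min ε 1 / M) * M := mul_le_mul_of_nonneg_left hx h2.le
      _ ≤ min ε 1 / M * M := mul_le_mul_of_nonneg_right h1 (by linarith)
      _ = min ε 1 := by field_simp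
  exact ⟨h3.trans (min_le_left _ _), h3.trans (min_le_right _ _)⟩

/-- Proof.  Assume that the set is infinite.  `exists_res`, `n = d + 2` (`n ≥ 2` by
`two_le_of_flip`), `exists_good_culp`, `form_bound` (constants `B`, `B0`).  Let `D` be as in
`App.integral` (for `X i1`, by `App.mono`: the discrete valuation rings of `X i1` and `X j` are
comparable by `hst` and `dvr_up`).  For `Q ∈ Z`, `Q ∉ X i1`, let `A Q` be its centre on `X i1`
and `e Q` as in `exists_high` for `A Q`, `D`, and `G Q = ord Q (e Q)`; for `Q ∈ X i1` let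
`G Q = D Q`; then `G` has finite support on `Z` (`finite_removed`), and
`β = ∑ G Q * B Q`.  Let `ε = (c - 1 - κ) / 4`.  Choose a finite subset `𝒞` of the good culprits
with more than `N0` elements, `N0` a large number depending only on `c`, `κ`, `β`, `B0`, `G P`,
with `E C`, `i C`, the centre `A C ∈ X (i C)` of `E C` and `e C ∈ A C` as in `exists_high` for `D`
on `X (i C)`.  Choose `η ≤ 1` with `η * ord (E C) (e C) ≤ ε` for all `C ∈ 𝒞`.  Let `D'` be as in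
`App.integral`, and `e' Q`, `G'`, `β'`, `e' C` as before.  Choose `δ ≤ 1` with
`δ * ord (E C) (e' C) ≤ ε`, `δ * β' ≤ 1`, `δ * G' P ≤ 1`, and `m, l, l', g` for a large `N`.
`kord_ge_of_poles` on `X (i C)` gives `kord m (E C) g ≥ c m - 2 ε m`, so
`kord m (E C) g - m - kord m P g ≥ 2 ε m`; take `e = ⌊2 ε m⌋ ≥ ε m`.
`kord_ge_of_poles` on `X i1` gives `kord m Q g ≥ - (l G Q + l' G' Q)` for `Q ∈ Z` (note
`disc b (X i1) Q > c - 2 ≥ 0`: `disc_exc`).  `form_bound`: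
`card 𝒞 * ε m ≤ (m + |kord m P g|) B0 + l β + l' β'`
`≤ m ((1 + c + G P + 1) B0 + β + 1)`, a contradiction. -/
theorem SetupN.finite_culp (h : SetupN b c X Y) {i1 : ℕ}
    (hst : ∀ i, i1 ≤ i → ∀ A : Subalgebra k K, ringKrullDim A ≤ c →
      (A ∈ X i ↔ A ∈ X (i + 1))) {Z : Set (Subalgebra k K)} (hZ : ResSit b c (X i1) Z)
    {P : Subalgebra k K} (hP : P ∈ Z) (hPd : IsDVR P) (hPX : P ∉ X i1) {κ : ℚ}
    (hκ : κ < (c : ℚ) - 1) {j : ℕ} (hA : App b (X j) P κ) : (Culp b c X Z P i1).Finite := by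
  classical
  have hc := h.hc
  have hc2 : (2 : ℚ) ≤ c := by exact_mod_cast hc
  -- discrete valuation rings
  have hback : ∀ i i', i ≤ i' → ∀ Q ∈ X i', IsDVR Q → Q ∈ X i := by
    intro i i' hii
    induction i', hii using Nat.le_induction with
    | base => exact fun Q hQ _ => hQ
    | succ i' hii ih =>
      intro Q hQ hQd
      exact ih Q (dvr_up (h.cn i') (h.hf i').mY (h.hf i').down ((h.hf i').small' Q hQ hQd) hQd) hQd
  have hforw : ∀ i, i1 ≤ i → ∀ Q ∈ X i1, IsDVR Q → Q ∈ X i := by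
    intro i hi Q hQ hQd
    refine (stable_persist hst ?_ le_rfl hi).1 hQ
    rw [((h.cn i1).isDVR_iff hQ).1 hQd]
    exact_mod_cast (by omega : 1 ≤ c)
  have hA' : App b (X i1) P κ := by
    refine hA.mono b fun Q hQ hQd => ?_
    rcases Nat.le_total j i1 with hj | hj
    · exact hback j i1 hj Q hQ hQd
    · exact hforw j hj Q hQ hQd
  by_contra hinf
  have hn2 := two_le_of_flip b h.hX (h.hf 0)
  obtain ⟨F, _, _, π, hπ, hEss, e, hne, htr⟩ := _root_.Flip28.exists_res b hZ.cZ hP hPd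
  obtain ⟨d, hd⟩ : ∃ d, e = d + 1 := ⟨e - 1, by omega⟩
  subst hd
  obtain ⟨jj, t, s, hj0, hj, ht0, ht, hinf'⟩ :=
    exists_good_culp (b := b) (c := c) (X := X) hZ.cZ hZ.sm hP hPd hπ htr (i1 := i1) hinf
  obtain ⟨B, B0, hB⟩ := form_bound b hZ.cZ hπ hP hPd htr s hj0 hj ht0 ht
    (finite_kord_ne b hZ.cZ hj0)
  obtain ⟨D, hD, hApp⟩ := hA'.integral b hPd
  obtain ⟨G, hGfin, hG1, hG2⟩ := PF5_G b hZ.cX hZ.cZ hD
  set β : ℕ := ∑ Q ∈ hGfin.toFinset, G Q * B Q with hβ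
  obtain ⟨ε, hε⟩ : ∃ ε : ℚ, ε = ((c : ℚ) - 1 - κ) / 4 := ⟨_, rfl⟩
  have hε0 : 0 < ε := by
    rw [hε]
    linarith
  -- the number of culprits
  obtain ⟨T, hT⟩ : ∃ T : ℚ, T = (2 + c + G P) * B0 + β + 1 := ⟨_, rfl⟩
  obtain ⟨N0, hN0⟩ := exists_nat_gt (T / ε)
  obtain ⟨𝒞, h𝒞, hcard⟩ := hinf'.exists_subset_card_eq N0
  have hch : ∀ C : Subalgebra k K, ∃ (E w : _) (i : ℕ) (A : Subalgebra k K) (e : K), C ∈ 𝒞 →
      GoodC Z P C E t w ∧ kord b 1 E jj = 1 ∧ img π C ∈ Gd (k := k) s ∧ i1 ≤ i ∧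
        (c : ℚ) ≤ disc b (X i) E ∧ A ∈ X i ∧ Dom A E ∧ e ∈ A ∧ e ≠ 0 ∧
        ∀ Q ∈ X i, IsDVR Q → A ≤ Q → (D Q : ℤ) ≤ ord Q e := by
    intro C
    by_cases hC : C ∈ 𝒞
    · obtain ⟨E, w, i, h1, h2, h3, h4, h5⟩ := h𝒞 hC
      obtain ⟨A, hA, hAE⟩ := (h.cn i).exists_centre h1.hE.1.isVal
      obtain ⟨e, he, he0, heD⟩ := exists_high (h.cn i) hA (D := D)
        (hD.subset fun Q hQ => ⟨hback i1 i h4 Q hQ.1 hQ.2.1, hQ.2⟩)
      exact ⟨E, w, i, A, e, fun _ => ⟨h1, h2, h3, h4, h5, hA, hAE, he, he0, heD⟩⟩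
    · exact ⟨⊤, 0, 0, ⊤, 0, fun h => absurd h hC⟩
  choose E w ii A ee hch using hch
  -- the choice of `η`
  obtain ⟨M1, hM1⟩ : ∃ M1 : ℚ, M1 = ∑ C ∈ 𝒞, |(ord (E C) (ee C) : ℚ)| + 1 := ⟨_, rfl⟩
  have hM1a : 1 ≤ M1 := by
    rw [hM1]
    have := Finset.sum_nonneg fun C (_ : C ∈ 𝒞) => abs_nonneg (ord (E C) (ee C) : ℚ)
    linarith
  have hM1b : ∀ C ∈ 𝒞, (ord (E C) (ee C) : ℚ) ≤ M1 := by
    intro C hC
    rw [hM1]
    have h1 := Finset.single_le_sum (f := fun C => |(ord (E C) (ee C) : ℚ)|)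
      (fun C _ => abs_nonneg _) hC
    have h2 := le_abs_self (ord (E C) (ee C) : ℚ)
    linarith
  obtain ⟨η, hη⟩ : ∃ η : ℚ, η = min 1 (min ε 1 / M1) := ⟨_, rfl⟩
  have hη0 : 0 < η := by
    rw [hη]
    exact lt_min one_pos (div_pos (lt_min hε0 one_pos) (by linarith))
  have hη1 : η ≤ 1 := by
    rw [hη]
    exact min_le_left _ _
  obtain ⟨D', hD', hApp'⟩ := hApp η hη0
  obtain ⟨G', hGfin', hG1', hG2'⟩ := PF5_G b hZ.cX hZ.cZ hD'
  set β' : ℕ := ∑ Q ∈ hGfin'.toFinset, G' Q * B Q with hβ'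
  have hch' : ∀ C : Subalgebra k K, ∃ e' : K, C ∈ 𝒞 → e' ∈ A C ∧ e' ≠ 0 ∧
      ∀ Q ∈ X (ii C), IsDVR Q → A C ≤ Q → (D' Q : ℤ) ≤ ord Q e' := by
    intro C
    by_cases hC : C ∈ 𝒞
    · obtain ⟨h1, -, -, h4, -, hA, -⟩ := hch C hC
      obtain ⟨e, he, he0, heD⟩ := exists_high (h.cn (ii C)) hA (D := D')
        (hD'.subset fun Q hQ => ⟨hback i1 (ii C) h4 Q hQ.1 hQ.2.1, hQ.2⟩)
      exact ⟨e, fun _ => ⟨he, he0, heD⟩⟩
    · exact ⟨0, fun h => absurd h hC⟩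
  choose ee' hch' using hch'
  -- the choice of `δ`
  obtain ⟨M2, hM2⟩ : ∃ M2 : ℚ, M2 = ∑ C ∈ 𝒞, |(ord (E C) (ee' C) : ℚ)| + β' + G' P + 1 :=
    ⟨_, rfl⟩
  have hs0 := Finset.sum_nonneg fun C (_ : C ∈ 𝒞) => abs_nonneg (ord (E C) (ee' C) : ℚ)
  have hβ'0 : (0 : ℚ) ≤ β' := Nat.cast_nonneg _
  have hG'0 : (0 : ℚ) ≤ G' P := Nat.cast_nonneg _
  have hM2a : 1 ≤ M2 := by
    rw [hM2]
    linarith
  have hM2b : ∀ C ∈ 𝒞, (ord (E C) (ee' C) : ℚ) ≤ M2 := by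
    intro C hC
    rw [hM2]
    have h1 := Finset.single_le_sum (f := fun C => |(ord (E C) (ee' C) : ℚ)|)
      (fun C _ => abs_nonneg _) hC
    have h2 := le_abs_self (ord (E C) (ee' C) : ℚ)
    linarith
  have hM2c : (β' : ℚ) ≤ M2 := by
    rw [hM2]
    linarith
  have hM2d : (G' P : ℚ) ≤ M2 := by
    rw [hM2]
    linarith
  obtain ⟨δ, hδ⟩ : ∃ δ : ℚ, δ = min 1 (min ε 1 / M2) := ⟨_, rfl⟩
  have hδ0 : 0 < δ := by
    rw [hδ]
    exact lt_min one_pos (div_pos (lt_min hε0 one_pos) (by linarith))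
  obtain ⟨N, hN⟩ := exists_nat_gt (1 / ε)
  obtain ⟨m, l, l', hm, hNm, hl, hl', g, hg0, hg, hgκ⟩ := hApp' δ hδ0 N
  have hm' : (0 : ℚ) < m := by exact_mod_cast hm
  have hmN : (1 : ℚ) ≤ ε * m := by
    have h1 : (N : ℚ) ≤ m := by exact_mod_cast hNm
    have h2 : 1 / ε ≤ m := hN.le.trans h1
    rw [div_le_iff₀ hε0] at h2
    linarith
  -- the order along `P`
  have hpoles : ∀ Q ∈ Z, IsDVR Q → -((l : ℤ) * G Q + l' * G' Q) ≤ kord b m Q g :=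
    fun Q hQ hQd => PF5_poles hZ hG1 hG2 hG1' hG2' hm hg0 hg hQ hQd
  have hPlow : -(m * (G P + 1) : ℚ) ≤ (kord b m P g : ℚ) := by
    have h1 : ((-((l : ℤ) * G P + l' * G' P) : ℤ) : ℚ) ≤ (kord b m P g : ℚ) := by
      exact_mod_cast hpoles P hP hPd
    push_cast at h1
    rw [hl, hl'] at h1
    have h2 : δ * (G' P : ℚ) ≤ 1 := by
      rw [hδ]
      exact (PF5_small hε0 hM2a hM2d).2
    have h3 : δ * m * (G' P : ℚ) ≤ m := by
      calc δ * m * (G' P : ℚ) = m * (δ * G' P) := by ring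
        _ ≤ m * 1 := mul_le_mul_of_nonneg_left h2 hm'.le
        _ = m := mul_one _
    have h4 : η * m * (G P : ℚ) ≤ m * G P := by
      calc η * m * (G P : ℚ) = η * (m * G P) := by ring
        _ ≤ 1 * (m * G P) := mul_le_mul_of_nonneg_right hη1
            (mul_nonneg hm'.le (Nat.cast_nonneg _))
        _ = m * G P := one_mul _
    linarith
  have hPabs : ((|kord b m P g| : ℤ) : ℚ) ≤ m * (1 + c + G P) := by
    rw [Int.cast_abs, abs_le]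
    have h1 : κ * m ≤ c * m := mul_le_mul_of_nonneg_right (by linarith) hm'.le
    have h2 : (0 : ℚ) ≤ m * G P := mul_nonneg hm'.le (Nat.cast_nonneg _)
    have h3 : (0 : ℚ) ≤ m * c := mul_nonneg hm'.le (by linarith)
    constructor
    · linarith
    · linarith
  -- the orders along the culprits
  obtain ⟨q, hq⟩ : ∃ q : ℤ, q = ⌊2 * ε * m⌋ := ⟨_, rfl⟩
  have hq1 : (q : ℚ) ≤ 2 * ε * m := by
    rw [hq]
    exact Int.floor_le _
  have hq2 : ε * m ≤ q := by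
    have h1 : 2 * ε * m < (q : ℚ) + 1 := by
      rw [hq]
      exact Int.lt_floor_add_one _
    linarith
  have hq0 : 0 ≤ q := by
    have h1 : (0 : ℚ) ≤ q := le_trans (mul_nonneg hε0.le hm'.le) hq2
    exact_mod_cast h1
  have hE : ∀ C ∈ 𝒞, q + m + kord b m P g ≤ kord b m (E C) g := by
    intro C hC
    obtain ⟨h1, h2, h3, h4, h5, h6, h7, h8, h9, h10⟩ := hch C hC
    obtain ⟨g1, g2, g3⟩ := hch' C hC
    have hgen : ∃ m' : ℤ, 0 < m' ∧ ∃ g', IsGen b (X (ii C)) m' (A C) g' := by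
      obtain ⟨Z', hZ'⟩ := h.exists_res (ii C)
      exact hZ'.gen _ h6
    have h11 := kord_ge_of_poles b (h.cn (ii C)) h6 h1.hE h7 hgen h8 h9 h10 g1 g2 g3 hm hg0
      (l := l) (l' := l') (fun Q hQ hQd _ => hg Q (hback i1 (ii C) h4 Q hQ hQd) hQd)
    rw [hl, hl'] at h11
    have h12 : η * (ord (E C) (ee C) : ℚ) ≤ ε := by
      rw [hη]
      exact (PF5_small hε0 hM1a (hM1b C hC)).1
    have h13 : δ * (ord (E C) (ee' C) : ℚ) ≤ ε := by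
      rw [hδ]
      exact (PF5_small hε0 hM2a (hM2b C hC)).1
    have h14 : η * m * (ord (E C) (ee C) : ℚ) ≤ ε * m := by
      calc η * m * (ord (E C) (ee C) : ℚ) = η * (ord (E C) (ee C) : ℚ) * m := by ring
        _ ≤ ε * m := mul_le_mul_of_nonneg_right h12 hm'.le
    have h15 : δ * m * (ord (E C) (ee' C) : ℚ) ≤ ε * m := by
      calc δ * m * (ord (E C) (ee' C) : ℚ) = δ * (ord (E C) (ee' C) : ℚ) * m := by ring
        _ ≤ ε * m := mul_le_mul_of_nonneg_right h13 hm'.le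
    have h16 : (m : ℚ) * c ≤ m * disc b (X (ii C)) (E C) := mul_le_mul_of_nonneg_left h5 hm'.le
    have h17 : ((q + m + kord b m P g : ℤ) : ℚ) ≤ (kord b m (E C) g : ℚ) := by
      push_cast
      have h18 : κ = c - 1 - 4 * ε := by
        rw [hε]
        ring
      rw [h18] at hgκ
      linarith
    exact_mod_cast h17
  -- the poles
  set 𝒬 : Finset (Subalgebra k K) := (hGfin.toFinset ∪ hGfin'.toFinset).erase P with h𝒬
  have hmain := hB m hm g hg0 𝒬 (fun Q => l * G Q + l' * G' Q) (by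
    intro Q hQ
    rw [h𝒬, Finset.mem_erase, Finset.mem_union, Set.Finite.mem_toFinset,
      Set.Finite.mem_toFinset] at hQ
    rcases hQ.2 with h1 | h1
    · exact ⟨h1.1, h1.2.1, hQ.1⟩
    · exact ⟨h1.1, h1.2.1, hQ.1⟩) (by
    intro Q hQ hQd hQP hneg
    have h1 := hpoles Q hQ hQd
    refine ⟨?_, ?_⟩
    · rw [h𝒬, Finset.mem_erase, Finset.mem_union, Set.Finite.mem_toFinset,
        Set.Finite.mem_toFinset]
      refine ⟨hQP, ?_⟩
      by_contra hcon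
      rw [not_or] at hcon
      have h2 : G Q = 0 := by
        by_contra h3
        exact hcon.1 ⟨hQ, hQd, h3⟩
      have h3 : G' Q = 0 := by
        by_contra h3
        exact hcon.2 ⟨hQ, hQd, h3⟩
      rw [h2, h3] at h1
      simp only [Nat.cast_zero, mul_zero, add_zero, neg_zero] at h1
      omega
    · push_cast
      linarith) 𝒞 q hq0 (by
    intro C hC
    obtain ⟨h1, h2, h3, -⟩ := hch C hC
    exact ⟨E C, w C, h1, h2, h3, hE C hC⟩)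
  have hsum : ((∑ Q ∈ 𝒬, (((l * G Q + l' * G' Q : ℕ) : ℤ) * B Q) : ℤ) : ℚ) ≤ m * (β + 1) := by
    have h1 : ∑ Q ∈ 𝒬, G Q * B Q ≤ β := by
      rw [hβ]
      refine Finset.sum_le_sum_of_ne_zero fun Q hQ hne => ?_
      rw [h𝒬, Finset.mem_erase, Finset.mem_union] at hQ
      rcases hQ.2 with h1 | h1
      · exact h1
      · rw [Set.Finite.mem_toFinset] at h1 ⊢
        exact ⟨h1.1, h1.2.1, left_ne_zero_of_mul hne⟩
    have h2 : ∑ Q ∈ 𝒬, G' Q * B Q ≤ β' := by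
      rw [hβ']
      refine Finset.sum_le_sum_of_ne_zero fun Q hQ hne => ?_
      rw [h𝒬, Finset.mem_erase, Finset.mem_union] at hQ
      rcases hQ.2 with h1 | h1
      · rw [Set.Finite.mem_toFinset] at h1 ⊢
        exact ⟨h1.1, h1.2.1, left_ne_zero_of_mul hne⟩
      · exact h1
    have h3 : ((∑ Q ∈ 𝒬, (((l * G Q + l' * G' Q : ℕ) : ℤ) * B Q) : ℤ) : ℚ) =
        l * ((∑ Q ∈ 𝒬, G Q * B Q : ℕ) : ℚ) + l' * ((∑ Q ∈ 𝒬, G' Q * B Q : ℕ) : ℚ) := by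
      push_cast
      rw [Finset.mul_sum, Finset.mul_sum, ← Finset.sum_add_distrib]
      refine Finset.sum_congr rfl fun Q _ => ?_
      ring
    have h4 : ((∑ Q ∈ 𝒬, G Q * B Q : ℕ) : ℚ) ≤ β := by exact_mod_cast h1
    have h5 : ((∑ Q ∈ 𝒬, G' Q * B Q : ℕ) : ℚ) ≤ β' := by exact_mod_cast h2
    have hβ0 : (0 : ℚ) ≤ β := Nat.cast_nonneg _
    have h6 : (l : ℚ) * ((∑ Q ∈ 𝒬, G Q * B Q : ℕ) : ℚ) ≤ m * β := by
      calc (l : ℚ) * ((∑ Q ∈ 𝒬, G Q * B Q : ℕ) : ℚ) ≤ l * β :=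
            mul_le_mul_of_nonneg_left h4 (Nat.cast_nonneg _)
        _ = η * (m * β) := by rw [hl]; ring
        _ ≤ 1 * (m * β) := mul_le_mul_of_nonneg_right hη1 (mul_nonneg hm'.le hβ0)
        _ = m * β := one_mul _
    have h7 : δ * (β' : ℚ) ≤ 1 := by
      rw [hδ]
      exact (PF5_small hε0 hM2a hM2c).2
    have h8 : (l' : ℚ) * ((∑ Q ∈ 𝒬, G' Q * B Q : ℕ) : ℚ) ≤ m := by
      calc (l' : ℚ) * ((∑ Q ∈ 𝒬, G' Q * B Q : ℕ) : ℚ) ≤ l' * β' :=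
            mul_le_mul_of_nonneg_left h5 (Nat.cast_nonneg _)
        _ = m * (δ * β') := by rw [hl']; ring
        _ ≤ m * 1 := mul_le_mul_of_nonneg_left h7 hm'.le
        _ = m := mul_one _
    rw [h3]
    linarith
  have hmainQ : ((𝒞.card : ℤ) * q : ℚ) ≤ (m + ((|kord b m P g| : ℤ) : ℚ)) * B0 +
      ((∑ Q ∈ 𝒬, (((l * G Q + l' * G' Q : ℕ) : ℤ) * B Q) : ℤ) : ℚ) := by
    exact_mod_cast hmain
  have hB00 : (0 : ℚ) ≤ B0 := Nat.cast_nonneg _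
  have h1 : (m + ((|kord b m P g| : ℤ) : ℚ)) * B0 ≤ m * (2 + c + G P) * B0 := by
    refine mul_le_mul_of_nonneg_right ?_ hB00
    linarith
  have h2 : (N0 : ℚ) * (ε * m) ≤ (𝒞.card : ℤ) * q := by
    rw [hcard]
    push_cast
    exact mul_le_mul_of_nonneg_left hq2 (Nat.cast_nonneg _)
  have h3 : (N0 : ℚ) * (ε * m) ≤ T * m := by
    rw [hT]
    linarith
  have h4 : T < N0 * ε := by
    rwa [div_lt_iff₀ hε0] at hN0
  have h5 : T * m < N0 * ε * m := mul_lt_mul_of_pos_right h4 hm'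
  linarith

end Flip28
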