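import Pool.Agent.FlipP_h28.PF4

/-! # Flips of varieties with pseudoeffective canonical class -/

open scoped KaehlerDifferential

set_option linter.unusedSectionVars false

universe u

namespace Flip28

variable {k K : Type u} [Field k] [Field K] [Algebra k K] [CharZero k]
  [Algebra.EssFiniteType k K] {n : ℕ} {b : Module.Basis (Fin n) K Ω[K⁄k]}
  {X Y : ℕ → Set (Subalgebra k K)} {c : ℕ}

/-- Proof: as for `SetupN.main` (file `NE5`). -/
theorem SetupN.mainA (h : SetupN b c X Y) {Δ : Set ℚ} (hΔ : ∀ a ∈ Δ, a ≤ (c : ℚ) - 1)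
    (hacc : ∀ f : ℕ → ℚ, StrictMono f → ∃ i, f i ∉ Δ)
    (hM : ∀ i, ∀ F ∈ X (i + 1), F ∉ X i → ringKrullDim F = ((c + 1 : ℕ) : WithBot ℕ∞) →
      ¬ Algebra.FormallySmooth k F → ∃ E, IsPrimeDiv E ∧ Dom F E ∧ disc b (X (i + 1)) E ∈ Δ)
    (hS : HypA b c X) :
    2 * c + 3 ≤ n ∧ ∃ i1, ∀ i, i1 ≤ i → ∀ A : Subalgebra k K,
      ringKrullDim A ≤ ((c + 1 : ℕ) : WithBot ℕ∞) → (A ∈ X i ↔ A ∈ X (i + 1)) := by
  have h2c := h.hc
  obtain ⟨-, i0, hi0⟩ := h.stable_c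
  obtain ⟨M, hM2⟩ := ((h.finite_sing hΔ hacc hM hi0).union (h.finite_smoothA hS hi0)).bddAbove
  obtain ⟨i1, hi01, hi1M⟩ : ∃ i1, i0 ≤ i1 ∧ M + 1 ≤ i1 :=
    ⟨max i0 (M + 1), le_max_left _ _, le_max_right _ _⟩
  have hi1 : ∀ i, i1 ≤ i → ∀ A : Subalgebra k K, ringKrullDim A ≤ c →
      (A ∈ X i ↔ A ∈ X (i + 1)) := fun i hi A hd => hi0 i (hi01.trans hi) A hd
  have hi2 : ∀ i, i1 ≤ i → ∀ A ∈ X (i + 1),
      ringKrullDim A ≤ ((c + 1 : ℕ) : WithBot ℕ∞) → A ∈ X i := by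
    intro i hi A hA hd
    by_contra hcon
    obtain ⟨e, he, -⟩ := dim_le_basis b (h.cn (i + 1)) hA
    by_cases hec : e ≤ c
    · refine hcon ((hi1 i hi A ?_).2 hA)
      rw [he]
      exact_mod_cast hec
    · have h2 : e = c + 1 := by
        rw [he] at hd
        have h3 : e ≤ c + 1 := by exact_mod_cast hd
        omega
      have h3 : i ≤ M := by
        apply hM2
        by_cases hs : Algebra.FormallySmooth k A
        · exact Or.inr ⟨hi01.trans hi, A, hA, hcon, by rw [he, h2], hs⟩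
        · exact Or.inl ⟨hi01.trans hi, A, hA, hcon, by rw [he, h2], hs⟩
      omega
  have hn := n_ge_of_stable b h.cn h.hf (d := c) (d' := c + 1) (by omega) hi1 hi2
  obtain ⟨Z, hZ, hZp, hZs, hZX, hXZ⟩ := h.hR i1
  have hfin : {i | i1 ≤ i ∧ ∃ P ∈ X i, P ∉ X (i + 1) ∧
      ringKrullDim P = ((c + 1 : ℕ) : WithBot ℕ∞)}.Finite := by
    refine finite_removal_res b i1 (fun i _ => h.cn i) (fun i _ => h.hP i) hZ hZp hZX hZs hXZ
      (p := n - (c + 1)) (d := c + 1) (by omega) (by omega) hi2 ?_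
    intro A hA hs
    obtain ⟨e, he, -⟩ := dim_le_basis b (h.cn i1) hA
    by_contra hcon
    refine hs ((h.hT i1).smooth A hA ?_)
    rw [he] at hcon ⊢
    have h6 : e < c + 1 := by exact_mod_cast not_le.1 hcon
    exact_mod_cast (by omega : e ≤ c)
  obtain ⟨i2, -, hi3⟩ := stage_gen b h.cn hi1 hi2 hfin
  refine ⟨?_, i2, hi3⟩
  have := n_ge_of_stable b h.cn h.hf (d := c + 1) (d' := c + 1) (by omega) hi3
    (fun i hi A hA hd => (hi3 i hi A hd).2 hA)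
  omega

end Flip28
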