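import Pool.Agent.FlipP_h28.PF6
import Pool.Agent.FlipP_h28.PC5

/-! # The minimal model program with scaling -/

open scoped KaehlerDifferential

set_option linter.unusedSectionVars false

universe u

namespace Flip28

variable {k K : Type u} [Field k] [Field K] [Algebra k K] {n : ℕ}
  (b : Module.Basis (Fin n) K Ω[K⁄k])

/-- `K_X + D` is semiample: for some `m > 0` the divisor `m (K_X + D)` is integral and generated
by global sections. -/
def SemiAmple (X : Set (Subalgebra k K)) (D : Subalgebra k K → ℚ) : Prop :=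
  ∃ m : ℤ, 0 < m ∧ ∀ x ∈ X, ∃ g : K, g ≠ 0 ∧
    (∀ Q ∈ X, IsDVR Q → -(m * D Q) ≤ (kord b m Q g : ℚ)) ∧
    ∀ Q ∈ X, IsDVR Q → x ≤ Q → (kord b m Q g : ℚ) = -(m * D Q)

/-- `A` is the divisor of a hyperplane section of the projective variety `X`. -/
def IsHyperplane (X : Set (Subalgebra k K)) (A : Subalgebra k K → ℕ) : Prop :=
  ∃ V : Submodule k K, Defines X V ∧ ∃ u ∈ V, u ≠ 0 ∧
    ∀ Q ∈ X, IsDVR Q → ∀ w, GenAt V Q w → (A Q : ℤ) = ord Q u - ord Q w

/-- `K_X + D` is nef: `K_X + D + δ A` is semiample for all rational `δ > 0`, `A` a hyperplane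
section. -/
def NefK (X : Set (Subalgebra k K)) (D : Subalgebra k K → ℚ) : Prop :=
  ∃ A : Subalgebra k K → ℕ, IsHyperplane X A ∧
    ∀ δ : ℚ, 0 < δ → SemiAmple b X (fun Q => D Q + δ * A Q)

/-- There is an effective divisor `H` such that for every `ε > 0` infinitely many of the divisors
`K_{X i} + t H_i` with `0 ≤ t ≤ ε` are nef (`H_i` is the strict transform of `H`); this is the case
for the minimal model program with scaling by `H` if the nef thresholds tend to zero. -/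
def Scaled (X : ℕ → Set (Subalgebra k K)) : Prop :=
  ∃ H : Subalgebra k K → ℕ, {Q | Q ∈ X 0 ∧ IsDVR Q ∧ H Q ≠ 0}.Finite ∧
    ∀ ε : ℚ, 0 < ε → ∀ j, ∃ i, j ≤ i ∧ ∃ t : ℚ, 0 ≤ t ∧ t ≤ ε ∧
      NefK b (X i) (fun Q => t * H Q)

theorem PG1_one {x : WithBot ℕ∞} (h : (0 : WithBot ℕ∞) < x) : ((1 : ℕ) : WithBot ℕ∞) ≤ x := by
  induction x using WithBot.recBotCoe with
  | bot => exact absurd h (not_lt_bot)
  | coe y =>
    have h1 : (0 : ℕ∞) < y := by exact_mod_cast h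
    have h2 : ((1 : ℕ) : ℕ∞) ≤ y := by
      rw [Nat.cast_one]
      exact Order.one_le_iff_pos.2 h1
    exact WithBot.coe_le_coe.2 h2

/-- a function `f` has only finitely many poles -/
theorem PG1_poles {X : Set (Subalgebra k K)} (hX : IsCompleteNormal X) (f : K) :
    {Q | Q ∈ X ∧ IsDVR Q ∧ f ∉ Q}.Finite := by
  have hU : Opn X {A | f ∈ A} := by
    intro R hR hK hRX A hA hfA
    obtain ⟨r, hr, s, hs, hsA, e⟩ := hA.2.2 f hfA
    by_cases hs0 : s = 0
    · refine ⟨1, R.one_mem, one_ne_zero, by rw [inv_one]; exact A.one_mem, fun B hB _ => ?_⟩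
      show f ∈ B
      rw [e, hs0, inv_zero, mul_zero]
      exact B.zero_mem
    · refine ⟨s, hs, hs0, hsA, fun B hB hsB => ?_⟩
      show f ∈ B
      rw [e]
      exact B.mul_mem (hB.1 hr) hsB
  refine (finite_of_opn hX hU (e := 1) fun A hA hAU => ?_).subset ?_
  · have h3 : A ≠ ⊤ := by
      rintro rfl
      exact hAU (show f ∈ (⊤ : Subalgebra k K) from Algebra.mem_top)
    have h4 := dim_lt_of_le_ne hX hA hX.top_mem le_top h3
    rw [(hX.eq_top_iff hX.top_mem).1 rfl] at h4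
    exact PG1_one h4
  · rintro C ⟨h1, h2, h3⟩
    exact ⟨h1, h3, by rw [(hX.isDVR_iff h1).1 h2]; rfl⟩

theorem PG1_finite {X : Set (Subalgebra k K)} (hX : IsCompleteNormal X) {f : K} (hf : f ≠ 0) :
    {Q | Q ∈ X ∧ IsDVR Q ∧ ord Q f ≠ 0}.Finite := by
  refine ((PG1_poles hX f).union (PG1_poles hX f⁻¹)).subset ?_
  rintro Q ⟨h1, h2, h3⟩
  by_cases h4 : f ∈ Q
  · exact Or.inr ⟨h1, h2, fun h5 => h3 ((ord_eq_zero_iff h2 hf).2 ⟨h4, h5⟩)⟩
  · exact Or.inl ⟨h1, h2, h4⟩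

/-- A hyperplane section has only finitely many components.  Proof: let `v₁, ..., v_r` generate
`V`; outside the finitely many `Q` with `ord Q (v i) ≠ 0` for some nonzero `v i` or
`ord Q u ≠ 0` (`finite_ord_ne`) one has `ord Q w = 0` for `GenAt V Q w`. -/
theorem IsHyperplane.finite {X : Set (Subalgebra k K)} (hX : IsCompleteNormal X)
    {A : Subalgebra k K → ℕ} (hA : IsHyperplane X A) :
    {Q | Q ∈ X ∧ IsDVR Q ∧ A Q ≠ 0}.Finite := by
  obtain ⟨V, hV, u, huV, hu0, hA'⟩ := hA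
  obtain ⟨S, hS⟩ := hV.1
  have hfin : (⋃ v ∈ (S : Set K), {Q : Subalgebra k K | Q ∈ X ∧ IsDVR Q ∧ v ≠ 0 ∧ ord Q v ≠ 0}).Finite := by
    refine S.finite_toSet.biUnion fun v _ => ?_
    by_cases hv : v = 0
    · refine Set.Finite.subset Set.finite_empty ?_
      rintro Q ⟨-, -, h, -⟩
      exact h hv
    · refine (PG1_finite hX hv).subset ?_
      rintro Q ⟨h1, h2, -, h3⟩
      exact ⟨h1, h2, h3⟩
  refine (hfin.union (PG1_finite hX hu0)).subset ?_
  rintro Q ⟨hQ, hQd, hAQ⟩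
  by_contra hcon
  have h1 : ∀ v ∈ S, v ≠ 0 → ord Q v = 0 := by
    intro v hv hv0
    by_contra h
    exact hcon (Or.inl (Set.mem_biUnion (show v ∈ (S : Set K) from hv) ⟨hQ, hQd, hv0, h⟩))
  have h2 : ord Q u = 0 := by
    by_contra h
    exact hcon (Or.inr ⟨hQ, hQd, h⟩)
  obtain ⟨w, hw⟩ := hV.exists_genAt hQ
  have h3 : V ≤ Subalgebra.toSubmodule Q := by
    rw [← hS, Submodule.span_le]
    intro v hv
    by_cases hv0 : v = 0
    · rw [hv0]
      exact Q.zero_mem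
    · exact (mem_iff hQd hv0).2 (h1 v hv hv0).ge
  have h4 : 0 ≤ ord Q w := (mem_iff hQd hw.2.1).1 (h3 hw.1)
  have h5 : 0 ≤ ord Q (u * w⁻¹) :=
    (mem_iff hQd (mul_ne_zero hu0 (inv_ne_zero hw.2.1))).1 (hw.2.2 u huV)
  rw [ord_mul hQd hu0 (inv_ne_zero hw.2.1), ord_inv hQd] at h5
  have h6 := hA' Q hQ hQd w hw
  have h7 : (A Q : ℤ) = 0 := by omega
  exact hAQ (by exact_mod_cast h7)

/-- Let `g` generate `m (K_X + D)` at `x`, `D ≥ 0`.  Then the order along `E` over `x` is at most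
`m a(E, X)`.  Proof: let `g'` generate `m' K_X` at `x`; `g' ^ m / g ^ m'` has orders
`m m' D Q ≥ 0` at the `Q ≥ x`, so it is in `x ≤ E`, and its order along `E` is `≥ 0`. -/
theorem kord_le_of_gen {X : Set (Subalgebra k K)} (hX : IsCompleteNormal X)
    {x E : Subalgebra k K} (hx : x ∈ X) (hE : IsPrimeDiv E) (hxE : Dom x E)
    (hgen : ∃ m' : ℤ, 0 < m' ∧ ∃ g', IsGen b X m' x g') {m : ℤ} (hm : 0 < m) {g : K}
    (hg0 : g ≠ 0) (hg : ∀ Q ∈ X, IsDVR Q → x ≤ Q → kord b m Q g ≤ 0) :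
    (kord b m E g : ℚ) ≤ m * disc b X E := by
  obtain ⟨m', hm', g', hg'⟩ := hgen
  have hg'0 : g' ≠ 0 := hg'.1
  have h0 : g' ^ m * (g ^ m')⁻¹ ≠ 0 :=
    mul_ne_zero (zpow_ne_zero m hg'0) (inv_ne_zero (zpow_ne_zero m' hg0))
  have hord : ∀ P : Subalgebra k K, IsDVR P →
      ord P (g' ^ m * (g ^ m')⁻¹) = m * kord b m' P g' - m' * kord b m P g := by
    intro P hP
    rw [ord_mul hP (zpow_ne_zero m hg'0) (inv_ne_zero (zpow_ne_zero m' hg0)), ord_inv hP,
      ord_zpow hP hg'0, ord_zpow hP hg0]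
    unfold kord
    ring
  have hmem : g' ^ m * (g ^ m')⁻¹ ∈ x := by
    refine hX.mem_of_ord hx h0 fun P hP hd hxP => ?_
    rw [hord P hd, hg'.2 P hP hd hxP, mul_zero, zero_sub, Left.nonneg_neg_iff]
    exact mul_nonpos_of_nonneg_of_nonpos hm'.le (hg P hP hd hxP)
  have h1 : 0 ≤ ord E (g' ^ m * (g ^ m')⁻¹) := (mem_iff hE.1 h0).1 (hxE.1 hmem)
  rw [hord E hE.1] at h1
  rw [disc_eq b hX hE hx hxE hm' hg', mul_div_assoc', le_div_iff₀ (by exact_mod_cast hm')]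
  have h2 : kord b m E g * m' ≤ m * kord b m' E g' := by
    rw [mul_comm]
    omega
  exact_mod_cast h2

end Flip28
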