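import Pool.Agent.FlipP_h28.PG1

/-! # The minimal model program with scaling, II -/

open scoped KaehlerDifferential

set_option linter.unusedSectionVars false

universe u

namespace Flip28

variable {k K : Type u} [Field k] [Field K] [Algebra k K] [CharZero k]
  [Algebra.EssFiniteType k K] {n : ℕ} {b : Module.Basis (Fin n) K Ω[K⁄k]}
  {X Y : ℕ → Set (Subalgebra k K)} {c : ℕ}

/-- The prime divisors on `X j` are prime divisors on `X i`, `i ≤ j`. -/
theorem PG2_back (h : SetupN b c X Y) (i m : ℕ) {Q : Subalgebra k K} (hQ : Q ∈ X (i + m))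
    (hd : IsDVR Q) : Q ∈ X i := by
  induction m with
  | zero => exact hQ
  | succ m ih =>
    refine ih ?_
    exact dvr_up (h.cn (i + m)) (h.hf (i + m)).mY (h.hf (i + m)).down
      ((h.hf (i + m)).small' Q hQ hd) hd

/-- The prime divisors are stable. -/
theorem PG2_stable (h : SetupN b c X Y) {j : ℕ}
    (hj : ∀ i, j ≤ i → ∀ A : Subalgebra k K,
      ringKrullDim A ≤ ((1 : ℕ) : WithBot ℕ∞) → (A ∈ X i ↔ A ∈ X (i + 1)))
    {i : ℕ} (hi : j ≤ i) {Q : Subalgebra k K} (hd : IsDVR Q) : Q ∈ X j ↔ Q ∈ X i := by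
  constructor
  · intro hQ
    have hdim : ringKrullDim Q ≤ ((1 : ℕ) : WithBot ℕ∞) := by
      rw [((h.cn j).isDVR_iff hQ).1 hd]
      norm_num
    induction i, hi using Nat.le_induction with
    | base => exact hQ
    | succ i hi ih => exact (hj i hi Q hdim).1 ih
  · intro hQ
    obtain ⟨m, rfl⟩ := Nat.exists_eq_add_of_le hi
    exact PG2_back h j m hQ hd

/-- Proof: let the prime divisors be stable from `j` on (`h.stable_one`).  `D = H`; given `η` choose
`i ≥ j` and `t ≤ η` such that `K + t H` is nef on `X i`, `D' = A`, `δ` arbitrary.  Let `x` be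
the centre of `V` on `X i` and `g` as in `SemiAmple`; `kord_le_of_gen` gives
`kord m V g ≤ m a(V, X i) ≤ κ m`.  The discrete valuation rings of `X j` are points of `X i`. -/
theorem SetupN.app_of_scaled (h : SetupN b c X Y) (hSc : Scaled b X) {V : Subalgebra k K}
    (hV : IsPrimeDiv V) {κ : ℚ} (hκ : ∀ i, disc b (X i) V ≤ κ) : ∃ j, App b (X j) V κ := by
  obtain ⟨j, hj⟩ := h.stable_one
  obtain ⟨D, hDfin, hD⟩ := hSc
  refine ⟨j, D, hDfin.subset ?_, fun η hη => ?_⟩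
  · rintro Q ⟨hQ, hd, h0⟩
    refine ⟨?_, hd, h0⟩
    have h1 : Q ∈ X (0 + j) := by rwa [zero_add]
    exact PG2_back h 0 j h1 hd
  · obtain ⟨i, hi, t, ht0, htη, A, hA, hnef⟩ := hD η hη j
    refine ⟨A, (hA.finite (h.cn i)).subset ?_, fun δ hδ => ?_⟩
    · rintro Q ⟨hQ, hd, h0⟩
      exact ⟨(PG2_stable h hj hi hd).1 hQ, hd, h0⟩
    · obtain ⟨m, hm, hsec⟩ := hnef δ hδ
      obtain ⟨x, hx, hxV⟩ := (h.cn i).exists_centre hV.1.isVal
      obtain ⟨g, hg0, hg1, hg2⟩ := hsec x hx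
      have hmq : (0 : ℚ) < m := by exact_mod_cast hm
      refine ⟨m, hm, g, hg0, fun Q hQ hd => ?_, ?_⟩
      · refine le_trans ?_ (hg1 Q ((PG2_stable h hj hi hd).1 hQ) hd)
        have h1 : (0 : ℚ) ≤ (η - t) * (m * D Q) :=
          mul_nonneg (sub_nonneg.2 htη) (mul_nonneg hmq.le (Nat.cast_nonneg _))
        nlinarith
      · have h2 : (kord b m V g : ℚ) ≤ m * disc b (X i) V := by
          refine kord_le_of_gen b (h.cn i) hx hV hxV ?_ hm hg0 fun Q hQ hd hxQ => ?_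
          · obtain ⟨m', hm', hva⟩ := (h.hf i).neg
            obtain ⟨y, hy, hyx⟩ := (h.hf i).down x hx
            obtain ⟨g', -, hg', -⟩ := hva x hx y hy hyx
            refine ⟨m', hm', g'⁻¹, ?_⟩
            have h1 := hg'.inv b
            rwa [neg_neg] at h1
          · have h3 := hg2 Q hQ hd hxQ
            have h4 : (kord b m Q g : ℚ) ≤ 0 := by
              rw [h3]
              have h5 : (0 : ℚ) ≤ m * (t * D Q + δ * A Q) :=
                mul_nonneg hmq.le (add_nonneg (mul_nonneg ht0 (Nat.cast_nonneg _))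
                  (mul_nonneg hδ.le (Nat.cast_nonneg _)))
              linarith
            exact_mod_cast h4
        refine h2.trans ?_
        rw [mul_comm]
        exact mul_le_mul_of_nonneg_right (hκ i) hmq.le

/-- The minimal model program with scaling.  Proof: if there is no such `V`, then for every `V` as in
`HypA` there is `ε > 0` with `disc b (X i) V ≤ c - 1 - ε` for all `i` (monotonicity
`disc_mono_flips`), so `HypA` holds by `app_of_scaled`; `SetupN.mainA`. -/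
theorem SetupN.mainS (h : SetupN b c X Y) {Δ : Set ℚ} (hΔ : ∀ a ∈ Δ, a ≤ (c : ℚ) - 1)
    (hacc : ∀ f : ℕ → ℚ, StrictMono f → ∃ i, f i ∉ Δ)
    (hM : ∀ i, ∀ F ∈ X (i + 1), F ∉ X i → ringKrullDim F = ((c + 1 : ℕ) : WithBot ℕ∞) →
      ¬ Algebra.FormallySmooth k F → ∃ E, IsPrimeDiv E ∧ Dom F E ∧ disc b (X (i + 1)) E ∈ Δ)
    (hSc : Scaled b X)
    (hV : ∀ V, IsPrimeDiv V →
      (∃ j, ∀ i, j ≤ i → (c : ℚ) - 2 < disc b (X i) V ∧ disc b (X i) V < (c : ℚ) - 1) →
      (∀ j, ∃ i, j ≤ i ∧ ∃ A ∈ X i, A ∉ X (i + 1) ∧ A ≤ V) →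
      ∃ κ : ℚ, κ < (c : ℚ) - 1 ∧ ∀ i, disc b (X i) V ≤ κ) :
    2 * c + 3 ≤ n ∧ ∃ i1, ∀ i, i1 ≤ i → ∀ A : Subalgebra k K,
      ringKrullDim A ≤ ((c + 1 : ℕ) : WithBot ℕ∞) → (A ∈ X i ↔ A ∈ X (i + 1)) := by
  refine h.mainA hΔ hacc hM fun V hVp h1 h2 => ?_
  obtain ⟨κ, hκ, hκ'⟩ := hV V hVp h1 h2
  exact ⟨κ, hκ, h.app_of_scaled hSc hVp hκ'⟩

end Flip28
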