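import Pool.Agent.FlipP_h28.PF6

/-! # Terminal flips, the general form -/

open scoped KaehlerDifferential

set_option linter.unusedSectionVars false

universe u

namespace Flip28

section

variable {k K : Type u} [Field k] [Field K] [Algebra k K] [CharZero k]
  [Algebra.EssFiniteType k K] {n : ℕ} {b : Module.Basis (Fin n) K Ω[K⁄k]}
  {X Z : Set (Subalgebra k K)} {c : ℕ}

/-- The prime divisors with singular centre and discrepancy `< c`, up to finitely many, are the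
blow ups of points `C` of codimension one of prime divisors `P` of `Z` with `a(P, X) < c - 1`, and
the forms `g ω^m` of a given finite set `S P` have order `m + ord_P` along them.

Proof: the finite set `ℰ` is the union of: the prime divisors of `Z` not in `X`
(`finite_removed`); for the finitely many such `P` and the finitely many `C` of
`finite_nongeneric` for the elements of `S P` the prime divisors `E` over `C` with `a(E, Z) < 2`
(at most one: `IsCoord.unique`, `d = 2`); for the points `C` of the finite set of generic points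
of `Z \ X` (`Opn.exists_generic`, `opn_model`) with `dim C ≥ c` the `E` over `C` with
`a(E, Z) < c` (at most one by `IsCoord.unique`).  In the third case of `ResSit.cases`, `C ≤ B` with
`B ∉ X` in this set, no exceptional `P ≥ B`, so `dim B ≥ c` (`dim_ge`), and `dim C > dim B` if
`C ≠ B` (`dim_lt_of_le_ne`), whence `a(E, Z) ≥ dim C - 1 ≥ c`, a contradiction; so `C = B`. -/
theorem ResSit.finite_or2 (h : ResSit b c X Z) (S : Subalgebra k K → Finset (ℤ × K))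
    (hS : ∀ P, ∀ q ∈ S P, q.2 ≠ 0) :
    ∃ ℰ : Set (Subalgebra k K), ℰ.Finite ∧ ∀ E, IsPrimeDiv E → ∀ A ∈ X, Dom A E →
      ¬ Algebra.FormallySmooth k A → disc b X E < c → E ∈ ℰ ∨
      ∃ P ∈ Z, IsDVR P ∧ P ∉ X ∧ disc b X P < (c : ℚ) - 1 ∧ A ≤ P ∧
        (∃ C ∈ Z, C ≤ P ∧ ringKrullDim C = ((2 : ℕ) : WithBot ℕ∞) ∧ Dom C E ∧
          disc b Z E < 2) ∧
        ∀ q ∈ S P, kord b q.1 E q.2 = kord b q.1 P q.2 + q.1 := by
  classical
  have hone : ∀ P ∈ Z, IsDVR P → ringKrullDim P = ((1 : ℕ) : WithBot ℕ∞) := by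
    intro P hP hPd
    rw [(h.cZ.isDVR_iff hP).1 hPd]
    rfl
  -- the exceptional prime divisors
  have hfin1 : {P | P ∈ Z ∧ P ∉ X ∧ ringKrullDim P = ((1 : ℕ) : WithBot ℕ∞)}.Finite := by
    refine finite_removed h.cZ h.cX (c := 1) ?_
    intro A hA hAX
    obtain ⟨e, he, -⟩ := dim_le_basis b h.cZ hA
    rw [he]
    rcases Nat.eq_zero_or_pos e with h0 | h0
    · exfalso
      subst h0
      have h1 : A = ⊤ := (h.cZ.eq_top_iff hA).2 (by simpa using he)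
      exact hAX (h1 ▸ h.cX.top_mem)
    · exact_mod_cast h0
  -- the special points of codimension one of the exceptional prime divisors
  have hfin2 : (⋃ P ∈ {P | P ∈ Z ∧ P ∉ X ∧ ringKrullDim P = ((1 : ℕ) : WithBot ℕ∞)},
      ⋃ q ∈ S P, ⋃ C ∈ {C | C ∈ Z ∧ C ≤ P ∧ ringKrullDim C = ((2 : ℕ) : WithBot ℕ∞) ∧
        ¬ ∀ E, IsPrimeDiv E → Dom C E → disc b Z E < 2 →
          kord b q.1 E q.2 = kord b q.1 P q.2 + q.1},
      {E | IsPrimeDiv E ∧ Dom C E ∧ disc b Z E < 2}).Finite := by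
    refine hfin1.biUnion fun P hP => ?_
    refine (S P).finite_toSet.biUnion fun q hq => ?_
    have hPd : IsDVR P := by
      rw [h.cZ.isDVR_iff hP.1, hP.2.2]
      rfl
    refine (finite_nongeneric b h.cZ h.sm hP.1 hPd q.1 (hS P q hq)).biUnion fun C hC => ?_
    exact ND3_sub (b := b) h.cZ hC.1 (h.sm C hC.1) hC.2.2.1 (by norm_num)
  -- the generic points of the exceptional locus
  obtain ⟨T, hT, hTZ, hTU, hgen⟩ := (opn_model (X := Z) h.cX).exists_generic h.cZ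
  have hfin3 : (⋃ C ∈ T, {E | ∃ e : ℕ, ringKrullDim C = e ∧ c ≤ e ∧
      IsPrimeDiv E ∧ Dom C E ∧ disc b Z E < c}).Finite := by
    refine hT.biUnion fun C hC => ?_
    obtain ⟨e, he, -⟩ := dim_le_basis b h.cZ (hTZ hC)
    by_cases hce : c ≤ e
    · refine (ND3_sub (b := b) h.cZ (hTZ hC) (h.sm C (hTZ hC)) he
        (r := (c : ℚ)) (by exact_mod_cast hce)).subset ?_
      rintro E ⟨-, -, -, hE⟩
      exact hE
    · convert Set.finite_empty
      rw [Set.eq_empty_iff_forall_notMem]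
      rintro E ⟨e', he', hce', -⟩
      rw [he] at he'
      have h1 : e = e' := by exact_mod_cast he'
      omega
  refine ⟨_, (hfin1.union hfin2).union hfin3, fun E hE A hA hAE hAs hlt => ?_⟩
  obtain ⟨C, hC, hCE⟩ := h.cZ.exists_centre hE.1.isVal
  rcases h.cases hE hA hAE hAs hC hCE hlt with hc | ⟨P, hP, hPd, hPX, hPlt, hCP, hC2, hE2, -⟩ |
    ⟨hCX, hno, hElt⟩
  · exact Or.inl (Or.inl (Or.inl hc))
  · by_cases hq : ∀ q ∈ S P, ∀ E, IsPrimeDiv E → Dom C E → disc b Z E < 2 →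
          kord b q.1 E q.2 = kord b q.1 P q.2 + q.1
    · refine Or.inr ⟨P, hP, hPd, hPX, hPlt, ?_, ⟨C, hC, hCP, hC2, hCE, hE2⟩,
        fun q hqS => hq q hqS E hE hCE hE2⟩
      obtain ⟨x, hx, hxC⟩ := h.down C hC
      have h1 : x = A := h.cX.unique hx hA hE.1.isVal.isLocalRing (hxC.trans hCE) hAE
      exact h1 ▸ hxC.1.trans hCP
    · push Not at hq
      obtain ⟨q, hqS, hq⟩ := hq
      refine Or.inl (Or.inl (Or.inr ?_))
      refine Set.mem_biUnion (show P ∈ {P | P ∈ Z ∧ P ∉ X ∧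
        ringKrullDim P = ((1 : ℕ) : WithBot ℕ∞)} from ⟨hP, hPX, hone P hP hPd⟩) ?_
      refine Set.mem_biUnion hqS ?_
      refine Set.mem_biUnion (x := C) ?_ ?_
      · refine ⟨hC, hCP, hC2, fun hall => ?_⟩
        obtain ⟨E', hE', hCE', hlt', hne⟩ := hq
        exact hne (hall E' hE' hCE' hlt')
      · exact ⟨hE, hCE, hE2⟩
  · obtain ⟨B, hB, hCB⟩ := hgen C hC hCX
    obtain ⟨e, he, -⟩ := dim_le_basis b h.cZ (hTZ hB)
    have hce : c ≤ e := h.dim_ge (hTZ hB) (hTU B hB)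
      (fun P hP hPd hBP => hno P hP hPd (hCB.trans hBP)) he
    refine Or.inl (Or.inr ?_)
    by_cases hne : C = B
    · subst hne
      exact Set.mem_biUnion hB ⟨e, he, hce, hE, hCE, hElt⟩
    · exfalso
      have h1 := dim_lt_of_le_ne h.cZ hC (hTZ hB) hCB hne
      obtain ⟨e', he', -⟩ := dim_le_basis b h.cZ hC
      rw [he, he'] at h1
      have h2 : e < e' := by exact_mod_cast h1
      have h3 := disc_ge_of_smooth b h.cZ hC (h.sm C hC) hE hCE he'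
      have h4 : (c : ℚ) + 1 ≤ e' := by exact_mod_cast (by omega : c + 1 ≤ e')
      linarith

end

section

variable {k K : Type u} [Field k] [Field K] [Algebra k K] [CharZero k]
  [Algebra.EssFiniteType k K] {n : ℕ} {b : Module.Basis (Fin n) K Ω[K⁄k]}
  {X Y : ℕ → Set (Subalgebra k K)} {c : ℕ}

/-- `V` is bad: `c - 2 < a(V, X i) < c - 1` for almost all `i`, and infinitely many flips touch the
closure of the centre of `V`. -/
def BadDiv (b : Module.Basis (Fin n) K Ω[K⁄k]) (c : ℕ) (X : ℕ → Set (Subalgebra k K))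
    (V : Subalgebra k K) : Prop :=
  IsPrimeDiv V ∧
    (∃ j, ∀ i, j ≤ i → (c : ℚ) - 2 < disc b (X i) V ∧ disc b (X i) V < (c : ℚ) - 1) ∧
    ∀ j, ∃ i, j ≤ i ∧ ∃ A ∈ X i, A ∉ X (i + 1) ∧ A ≤ V

/-- `K` is pseudoeffective and `a(V, X j) + σ_V(K) < c - 1`. -/
def AppDiv (b : Module.Basis (Fin n) K Ω[K⁄k]) (c : ℕ) (X : ℕ → Set (Subalgebra k K))
    (V : Subalgebra k K) : Prop :=
  ∃ κ : ℚ, κ < (c : ℚ) - 1 ∧ ∃ j, App b (X j) V κ

/-- For almost all flips which create a smooth point `F` of dimension `c + 1` there is a bad `V`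
which does not satisfy `AppDiv` such that the forms in a given finite set `S V` have order
`m + ord_V` along the blow up of `F`. -/
theorem SetupN.finite_smoothM (h : SetupN b c X Y) (S : Subalgebra k K → Finset (ℤ × K))
    (J : Subalgebra k K → ℕ) (hS0 : ∀ P, ∀ q ∈ S P, q.2 ≠ 0)
    {i0 : ℕ} (hst : ∀ i, i0 ≤ i → ∀ A : Subalgebra k K, ringKrullDim A ≤ c →
      (A ∈ X i ↔ A ∈ X (i + 1))) :
    {i | i0 ≤ i ∧ ∃ F ∈ X (i + 1), F ∉ X i ∧ ringKrullDim F = ((c + 1 : ℕ) : WithBot ℕ∞) ∧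
      Algebra.FormallySmooth k F ∧ ∀ E, IsPrimeDiv E → Dom F E → disc b (X (i + 1)) E = c →
        ∀ V, BadDiv b c X V → ¬ AppDiv b c X V → J V ≤ i →
          ¬ ∀ q ∈ S V, kord b q.1 E q.2 = kord b q.1 V q.2 + q.1}.Finite := by
  classical
  obtain ⟨Z0, hZ0⟩ := h.exists_res i0
  have hbad := hZ0.finite_bad
  set 𝒱 : Set (Subalgebra k K) := {E | IsPrimeDiv E ∧
    (∃ A ∈ X i0, Dom A E ∧ ¬ Algebra.FormallySmooth k A) ∧
      disc b (X i0) E < (c : ℚ) - 1} with h𝒱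
  -- the step `i1`
  obtain ⟨i1, hi01, hi1⟩ : ∃ i1, i0 ≤ i1 ∧ ∀ V ∈ 𝒱,
      (∀ i, (c : ℚ) - 1 ≤ disc b (X i) V → (c : ℚ) - 1 ≤ disc b (X i1) V) ∧
      ((∀ j', ∃ i, j' ≤ i ∧ ∃ A ∈ X i, A ∉ X (i + 1) ∧ A ≤ V) ∨
        ∀ i, i1 ≤ i → ∀ A ∈ X i, A ≤ V → A ∈ X (i + 1)) := by
    refine NE4_common hbad
      (fun V j => (∀ i, (c : ℚ) - 1 ≤ disc b (X i) V → (c : ℚ) - 1 ≤ disc b (X j) V ∨
        ¬ IsPrimeDiv V) ∧
        ((∀ j', ∃ i, j' ≤ i ∧ ∃ A ∈ X i, A ∉ X (i + 1) ∧ A ≤ V) ∨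
          ∀ i, j ≤ i → ∀ A ∈ X i, A ≤ V → A ∈ X (i + 1))) ?_ ?_ i0 |>.imp ?_
    · intro V i j hij hp
      refine ⟨fun l hl => ?_, hp.2.imp id fun h1 l hl => h1 l (hij.trans hl)⟩
      by_cases hV : IsPrimeDiv V
      · exact ((hp.1 l hl).imp (fun h1 => h1.trans (disc_mono_flips b h.cn h.hf hV j hij)) id)
      · exact Or.inr hV
    · intro V hV
      have h1 : ∃ j1, ∀ i, (c : ℚ) - 1 ≤ disc b (X i) V → (c : ℚ) - 1 ≤ disc b (X j1) V := by
        by_cases h2 : ∃ i, (c : ℚ) - 1 ≤ disc b (X i) V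
        · obtain ⟨i, hi⟩ := h2
          exact ⟨i, fun _ _ => hi⟩
        · exact ⟨0, fun i hi => absurd ⟨i, hi⟩ h2⟩
      obtain ⟨j1, hj1⟩ := h1
      by_cases h3 : ∀ j', ∃ i, j' ≤ i ∧ ∃ A ∈ X i, A ∉ X (i + 1) ∧ A ≤ V
      · exact ⟨j1, fun i hi => Or.inl (hj1 i hi), Or.inl h3⟩
      · push Not at h3
        obtain ⟨j2, hj2⟩ := h3
        refine ⟨max j1 j2, fun i hi => Or.inl ((hj1 i hi).trans
          (disc_mono_flips b h.cn h.hf hV.1 _ (le_max_left _ _))), Or.inr fun i hi A hA hAV => ?_⟩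
        by_contra hcon
        exact hj2 i (le_trans (le_max_right _ _) hi) A hA hcon hAV
    · rintro i1 ⟨hi1, h1⟩
      refine ⟨hi1, fun V hV => ⟨fun i hi => ?_, (h1 V hV).2⟩⟩
      rcases (h1 V hV).1 i hi with h2 | h2
      · exact h2
      · exact absurd hV.1 h2
  have hst1 : ∀ i, i1 ≤ i → ∀ A : Subalgebra k K, ringKrullDim A ≤ c →
      (A ∈ X i ↔ A ∈ X (i + 1)) := fun i hi => hst i (hi01.trans hi)
  obtain ⟨Z, hZ⟩ := h.exists_res i1
  have hc' : ∀ P ∈ Z, IsDVR P → P ∉ X i1 → disc b (X i1) P < (c : ℚ) - 1 → P ∈ 𝒱 := by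
    intro P hP hPd hPX hlt
    have hPp : IsPrimeDiv P := hZ.cZ.isPrimeDiv hP hPd
    have hmono := disc_mono_flips b h.cn h.hf hPp (i := i0) i1 hi01
    refine ⟨hPp, ?_, lt_of_le_of_lt hmono hlt⟩
    obtain ⟨A, hA, hAP⟩ := (h.cn i0).exists_centre hPd.isVal
    refine ⟨A, hA, hAP, fun hs => hPX ?_⟩
    obtain ⟨e, he, -⟩ := dim_le_basis b (h.cn i0) hA
    have h1 := disc_ge_of_smooth b (h.cn i0) hA hs hPp hAP he
    have h2 : (e : ℚ) < c := by linarith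
    have h3 : e < c := by exact_mod_cast h2
    have h4 : A ∈ X i1 := (stable_persist hst (by rw [he]; exact_mod_cast h3.le) le_rfl hi01).1 hA
    have h5 : A = P := hZ.cZ.unique (hZ.iso A h4 hs) hP (hZ.cZ.isLocalRing hP) hAP (Dom.refl P)
    exact h5 ▸ h4
  have hdis : ∀ P ∈ Z, IsDVR P → P ∉ X i1 → disc b (X i1) P < (c : ℚ) - 1 →
      ∀ i, i1 ≤ i → (c : ℚ) - 2 < disc b (X i) P ∧ disc b (X i) P < (c : ℚ) - 1 := by
    intro P hP hPd hPX hlt i hi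
    have hPV := hc' P hP hPd hPX hlt
    refine ⟨lt_of_lt_of_le (hZ.disc_exc hP hPd hPX)
      (disc_mono_flips b h.cn h.hf hPV.1 i hi), ?_⟩
    by_contra hcon
    exact absurd ((hi1 P hPV).1 i (not_lt.1 hcon)) (not_le.2 hlt)
  -- the culprits
  set 𝒲 : Set (Subalgebra k K) := {P | P ∈ 𝒱 ∧ P ∈ Z ∧ IsDVR P ∧ P ∉ X i1 ∧
    disc b (X i1) P < (c : ℚ) - 1 ∧ AppDiv b c X P} with h𝒲
  have h𝒲fin : 𝒲.Finite := hbad.subset fun P hP => hP.1
  have hculp : ∀ P ∈ 𝒲, (Culp b c X Z P i1).Finite := by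
    rintro P ⟨hPV, hP, hPd, hPX, hlt, κ, hκ, j, hA⟩
    exact h.finite_culp hst1 hZ hP hPd hPX hκ hA
  obtain ⟨ℰ, hℰ, hor⟩ := hZ.finite_or2 S hS0
  have hℰ' : (ℰ ∪ ⋃ P ∈ 𝒲, Culp b c X Z P i1).Finite := hℰ.union (h𝒲fin.biUnion hculp)
  obtain ⟨i2, hi12, hi2⟩ := NE4_common hbad (fun V j => J V ≤ j)
    (fun V i j hij hp => le_trans hp hij) (fun V _ => ⟨J V, le_rfl⟩) i1
  -- the steps after `i2`
  have hT : {i | i2 ≤ i ∧ ∃ F ∈ X (i + 1), F ∉ X i ∧
      ringKrullDim F = ((c + 1 : ℕ) : WithBot ℕ∞) ∧ Algebra.FormallySmooth k F ∧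
      ∀ E, IsPrimeDiv E → Dom F E → disc b (X (i + 1)) E = c →
        ∀ V, BadDiv b c X V → ¬ AppDiv b c X V → J V ≤ i →
          ¬ ∀ q ∈ S V, kord b q.1 E q.2 = kord b q.1 V q.2 + q.1}.Finite := by
    refine finite_pass b h.cn h.hf hℰ' (a := (c : ℚ)) ?_
    rintro i ⟨hi', F, hF, hF', hd, hs, hno'⟩
    have hi : i1 ≤ i := hi12.trans hi'
    obtain ⟨E, hE, hFE, hE1, hE2⟩ := exists_blow_flip b h.cn h.hf hF hF' hs hd
    have h7 : (((c + 1 : ℕ) : ℚ)) - 1 = c := by push_cast; ring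
    rw [h7] at hE1 hE2
    refine ⟨E, ?_, hE, hE2, hE1.ge⟩
    obtain ⟨A, hA, hAE⟩ := (h.cn i1).exists_centre hE.1.isVal
    have hlt1 : disc b (X i1) E < c :=
      lt_of_le_of_lt (disc_mono_flips b h.cn h.hf hE i hi) hE2
    have hAs : ¬ Algebra.FormallySmooth k A :=
      h.centre_singular (fun i hi => hst i (hi01.trans hi)) hi hF hF' hE hFE hlt1 hA hAE
    rcases hor E hE A hA hAE hAs hlt1 with
      hE' | ⟨P, hP, hPd, hPX, hPlt, hAP, ⟨C, hC, hCP, hCd, hCE, hZE⟩, hq⟩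
    · exact Or.inl hE'
    right
    have hPV := hc' P hP hPd hPX hPlt
    by_cases happ : AppDiv b c X P
    · have hPW : P ∈ 𝒲 := ⟨hPV, hP, hPd, hPX, hPlt, happ⟩
      simp only [Set.mem_iUnion]
      exact ⟨P, hPW, hE, ⟨i + 1, by omega, hE1.ge⟩, C, hC, hCP, hCd, hCE, hZE⟩
    rcases (hi1 P hPV).2 with htouch | hno
    · exact absurd hq (hno' E hE hFE hE1 P ⟨hPV.1, ⟨i1, hdis P hP hPd hPX hPlt⟩, htouch⟩ happ
        ((hi2 P hPV).trans hi'))
    · exfalso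
      have h9 : ∀ j, i1 ≤ j → A ∈ X j := by
        intro j hj
        induction j, hj using Nat.le_induction with
        | base => exact hA
        | succ j hj ih => exact hno j hj A ih hAP
      have h10 : A = F := (h.cn (i + 1)).unique (h9 (i + 1) (by omega)) hF
        hE.1.isVal.isLocalRing hAE hFE
      exact hF' (h10 ▸ h9 i hi)
  refine ((Set.finite_lt_nat i2).union hT).subset ?_
  rintro i ⟨hi, F, hF⟩
  rcases Nat.lt_or_ge i i2 with h1 | h1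
  · exact Or.inl h1
  · exact Or.inr ⟨h1, F, hF⟩

/-- For every bad `V` either `K` is pseudoeffective and `a(V, X j) + σ_V(K) < c - 1`, or there are
finitely many forms of small order along `V` such that at every smooth flipped point of dimension
`c + 1` one of them is regular. -/
def HypU (b : Module.Basis (Fin n) K Ω[K⁄k]) (c : ℕ) (X : ℕ → Set (Subalgebra k K)) : Prop :=
  ∀ V, BadDiv b c X V → AppDiv b c X V ∨
    ∃ (S : Finset (ℤ × K)) (j : ℕ),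
      (∀ q ∈ S, 0 < q.1 ∧ q.2 ≠ 0 ∧ (kord b q.1 V q.2 : ℚ) < ((c : ℚ) - 1) * q.1) ∧
      ∀ i, j ≤ i → ∀ F ∈ X (i + 1), F ∉ X i → ringKrullDim F = ((c + 1 : ℕ) : WithBot ℕ∞) →
        Algebra.FormallySmooth k F → ∃ q ∈ S, q.2 ∈ Sec b (X (i + 1)) q.1 F

/-- Only finitely many flips create smooth points of dimension `c + 1`. -/
theorem SetupN.finite_smoothU (h : SetupN b c X Y) (hU : HypU b c X)
    {i0 : ℕ} (hst : ∀ i, i0 ≤ i → ∀ A : Subalgebra k K, ringKrullDim A ≤ c →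
      (A ∈ X i ↔ A ∈ X (i + 1))) :
    {i | i0 ≤ i ∧ ∃ F ∈ X (i + 1), F ∉ X i ∧ ringKrullDim F = ((c + 1 : ℕ) : WithBot ℕ∞) ∧
      Algebra.FormallySmooth k F}.Finite := by
  classical
  have hSj : ∀ V : Subalgebra k K, ∃ (S : Finset (ℤ × K)) (j : ℕ),
      (∀ q ∈ S, 0 < q.1 ∧ q.2 ≠ 0 ∧ (kord b q.1 V q.2 : ℚ) < ((c : ℚ) - 1) * q.1) ∧
      (BadDiv b c X V → ¬ AppDiv b c X V →
      ∀ i, j ≤ i → ∀ F ∈ X (i + 1), F ∉ X i → ringKrullDim F = ((c + 1 : ℕ) : WithBot ℕ∞) →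
        Algebra.FormallySmooth k F → ∃ q ∈ S, q.2 ∈ Sec b (X (i + 1)) q.1 F) := by
    intro V
    by_cases hV : BadDiv b c X V ∧ ¬ AppDiv b c X V
    · obtain ⟨S, j, h1, h2⟩ := (hU V hV.1).resolve_left hV.2
      exact ⟨S, j, h1, fun _ _ => h2⟩
    · exact ⟨∅, 0, fun q hq => absurd hq (Finset.notMem_empty q), fun h1 h2 => absurd ⟨h1, h2⟩ hV⟩
  choose S J hS1 hS2 using hSj
  refine (h.finite_smoothM S J (fun P q hq => (hS1 P q hq).2.1) hst).subset ?_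
  rintro i ⟨hi, F, hF, hF', hd, hs⟩
  refine ⟨hi, F, hF, hF', hd, hs, fun E hE hFE hE1 V hV hV' hJ hall => ?_⟩
  obtain ⟨q, hqS, hqF⟩ := hS2 V hV hV' i hJ F hF hF' hd hs
  obtain ⟨hq0, hq1, hq2⟩ := hS1 V q hqS
  have h8 := kord_ge b (h.cn (i + 1)) hF hs hE hFE hq1
    (fun Q hQ hQd hFQ => hqF hq1 Q hQ hQd hFQ)
  rw [hE1, hall q hqS] at h8
  push_cast at h8
  linarith

/-- Proof: as for `SetupN.mainA`. -/
theorem SetupN.mainU (h : SetupN b c X Y) {Δ : Set ℚ} (hΔ : ∀ a ∈ Δ, a ≤ (c : ℚ) - 1)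
    (hacc : ∀ f : ℕ → ℚ, StrictMono f → ∃ i, f i ∉ Δ)
    (hM : ∀ i, ∀ F ∈ X (i + 1), F ∉ X i → ringKrullDim F = ((c + 1 : ℕ) : WithBot ℕ∞) →
      ¬ Algebra.FormallySmooth k F → ∃ E, IsPrimeDiv E ∧ Dom F E ∧ disc b (X (i + 1)) E ∈ Δ)
    (hU : HypU b c X) :
    2 * c + 3 ≤ n ∧ ∃ i1, ∀ i, i1 ≤ i → ∀ A : Subalgebra k K,
      ringKrullDim A ≤ ((c + 1 : ℕ) : WithBot ℕ∞) → (A ∈ X i ↔ A ∈ X (i + 1)) := by
  have h2c := h.hc
  obtain ⟨-, i0, hi0⟩ := h.stable_c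
  obtain ⟨M, hM2⟩ := ((h.finite_sing hΔ hacc hM hi0).union (h.finite_smoothU hU hi0)).bddAbove
  obtain ⟨i1, hi01, hi1M⟩ : ∃ i1, i0 ≤ i1 ∧ M + 1 ≤ i1 :=
    ⟨max i0 (M + 1), le_max_left _ _, le_max_right _ _⟩
  have hi1 : ∀ i, i1 ≤ i → ∀ A : Subalgebra k K, ringKrullDim A ≤ c →
      (A ∈ X i ↔ A ∈ X (i + 1)) := fun i hi A hd => hi0 i (hi01.trans hi) A hd
  have hi2 : ∀ i, i1 ≤ i → ∀ A ∈ X (i + 1),
      ringKrullDim A ≤ ((c + 1 : ℕ) : WithBot ℕ∞) → A ∈ X i := by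
    intro i hi A hA hd
    by_contra hcon
    obtain ⟨e, he, -⟩ := dim_le_basis b (h.cn (i + 1)) hA
    by_cases hec : e ≤ c
    · refine hcon ((hi1 i hi A ?_).2 hA)
      rw [he]
      exact_mod_cast hec
    · have h2 : e = c + 1 := by
        rw [he] at hd
        have h3 : e ≤ c + 1 := by exact_mod_cast hd
        omega
      have h3 : i ≤ M := by
        apply hM2
        by_cases hs : Algebra.FormallySmooth k A
        · exact Or.inr ⟨hi01.trans hi, A, hA, hcon, by rw [he, h2], hs⟩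
        · exact Or.inl ⟨hi01.trans hi, A, hA, hcon, by rw [he, h2], hs⟩
      omega
  have hn := n_ge_of_stable b h.cn h.hf (d := c) (d' := c + 1) (by omega) hi1 hi2
  obtain ⟨Z, hZ, hZp, hZs, hZX, hXZ⟩ := h.hR i1
  have hfin : {i | i1 ≤ i ∧ ∃ P ∈ X i, P ∉ X (i + 1) ∧
      ringKrullDim P = ((c + 1 : ℕ) : WithBot ℕ∞)}.Finite := by
    refine finite_removal_res b i1 (fun i _ => h.cn i) (fun i _ => h.hP i) hZ hZp hZX hZs hXZ
      (p := n - (c + 1)) (d := c + 1) (by omega) (by omega) hi2 ?_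
    intro A hA hs
    obtain ⟨e, he, -⟩ := dim_le_basis b (h.cn i1) hA
    by_contra hcon
    refine hs ((h.hT i1).smooth A hA ?_)
    rw [he] at hcon ⊢
    have h6 : e < c + 1 := by exact_mod_cast not_le.1 hcon
    exact_mod_cast (by omega : e ≤ c)
  obtain ⟨i2, -, hi3⟩ := stage_gen b h.cn hi1 hi2 hfin
  refine ⟨?_, i2, hi3⟩
  have := n_ge_of_stable b h.cn h.hf (d := c + 1) (d' := c + 1) (by omega) hi3
    (fun i hi A hA hd => (hi3 i hi A hd).2 hA)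
  omega

end

end Flip28
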